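import Pool.Agent.H31.MF.Main

set_option autoImplicit false

/-! # The choice of the parameters -/

namespace Pool.Agent.H31.MF

open Finset Filter Topology Pool.Agent.H373R2.T7

lemma pow_le_two_pow (c : ℝ) (B : ℕ) : ∃ k0 : ℕ, ∀ k : ℕ, k0 ≤ k → c * ((k : ℝ) + 1) ^ B ≤ 2 ^ (k / 2) := by
  have h := tendsto_pow_const_div_const_pow_of_one_lt B (show (1 : ℝ) < 2 by norm_num)
  have h1 := (tendsto_add_atTop_iff_nat 1).2 h
  have hpos : (0 : ℝ) < 1 / (2 * (|c| * 2 ^ B + 1)) := by positivity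
  have h2 := h1.eventually (gt_mem_nhds hpos)
  rw [eventually_atTop] at h2
  obtain ⟨i0, hi0⟩ := h2
  refine ⟨2 * i0, fun k hk => ?_⟩
  set i := k / 2 with hi
  have h3 := hi0 i (by omega)
  have h4 : (k : ℝ) + 1 ≤ 2 * ((i : ℝ) + 1) := by
    have : k + 1 ≤ 2 * (i + 1) := by omega
    exact_mod_cast this
  have h5 : (((i + 1 : ℕ) : ℝ)) ^ B ≤ 1 / (2 * (|c| * 2 ^ B + 1)) * 2 ^ (i + 1) := by
    rw [div_lt_iff₀ (by positivity)] at h3
    exact h3.le
  have h6 : |c| * (2 ^ B * ((i : ℝ) + 1) ^ B) ≤ 2 ^ i := by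
    have h7 : 0 < |c| * 2 ^ B + 1 := by positivity
    push_cast at h5
    calc |c| * (2 ^ B * ((i : ℝ) + 1) ^ B) = (|c| * 2 ^ B) * ((i : ℝ) + 1) ^ B := by ring
      _ ≤ (|c| * 2 ^ B + 1) * (1 / (2 * (|c| * 2 ^ B + 1)) * 2 ^ (i + 1)) := by
          apply mul_le_mul _ h5 (by positivity) h7.le
          linarith
      _ = 2 ^ i := by
          rw [pow_succ]
          field_simp
  calc c * ((k : ℝ) + 1) ^ B ≤ |c| * ((k : ℝ) + 1) ^ B := mul_le_mul_of_nonneg_right (le_abs_self c) (by positivity)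
    _ ≤ |c| * (2 * ((i : ℝ) + 1)) ^ B := by gcongr
    _ = |c| * (2 ^ B * ((i : ℝ) + 1) ^ B) := by rw [mul_pow]
    _ ≤ 2 ^ i := h6

lemma harm_le (k K : ℕ) (hk : 1 ≤ k) (h : k ≤ K) : ∑ j ∈ Ico k K, 1 / (j : ℝ) ≤ 2 * Real.log ((K : ℝ) / k) := by
  induction K, h using Nat.le_induction with
  | base =>
    have : (k : ℝ) ≠ 0 := by exact_mod_cast (by omega : k ≠ 0)
    rw [div_self this]
    simp
  | succ n hn ih =>
    rw [sum_Ico_succ_top hn]
    have hk0 : (0 : ℝ) < k := by exact_mod_cast (by omega : 0 < k)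
    have hn0 : (0 : ℝ) < n := by exact_mod_cast (by omega : 0 < n)
    have hn1 : (1 : ℝ) ≤ n := by exact_mod_cast (by omega : 1 ≤ n)
    have h1 : Real.log (((n + 1 : ℕ) : ℝ) / k) = Real.log ((n : ℝ) / k) + Real.log (((n + 1 : ℕ) : ℝ) / n) := by
      rw [← Real.log_mul (by positivity) (by positivity)]
      congr 1
      field_simp
    have h2 : 1 / (n : ℝ) ≤ 2 * Real.log (((n + 1 : ℕ) : ℝ) / n) := by
      have h3 := Real.one_sub_inv_le_log_of_pos (show 0 < ((n + 1 : ℕ) : ℝ) / n by positivity)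
      have h4 : 1 - (((n + 1 : ℕ) : ℝ) / n)⁻¹ = 1 / ((n : ℝ) + 1) := by
        push_cast
        field_simp
        ring
      rw [h4] at h3
      have h5 : 1 / (n : ℝ) ≤ 2 * (1 / ((n : ℝ) + 1)) := by
        rw [mul_one_div, div_le_div_iff₀ hn0 (by linarith)]
        linarith
      linarith
    linarith

lemma LL_low : ∃ C : ℝ, 0 ≤ C ∧ ∀ k : ℕ, 2 ≤ k → Real.log k - C ≤ LL k (k ^ 2) := by
  obtain ⟨C, hC0, hC⟩ := Pool.Agent.Helper923.HMertens.mertens_ratio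
  have hlog2 : 0 < Real.log 2 := Real.log_pos (by norm_num)
  refine ⟨C / Real.log 2, by positivity, fun k hk => ?_⟩
  have h1 := hC (2 ^ k) (2 ^ (k ^ 2)) (by
    calc 2 = 2 ^ 1 := by norm_num
      _ ≤ 2 ^ k := Nat.pow_le_pow_right (by norm_num) (by omega)) (Nat.pow_le_pow_right (by norm_num) (Nat.le_self_pow (by norm_num) k))
  have hk0 : (0 : ℝ) < k := by exact_mod_cast (by omega : 0 < k)
  have hk1 : (1 : ℝ) ≤ k := by exact_mod_cast (by omega : 1 ≤ k)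
  have e1 : Real.log ((2 ^ k : ℕ) : ℝ) = k * Real.log 2 := by push_cast; rw [Real.log_pow]
  have e2 : Real.log ((2 ^ (k ^ 2) : ℕ) : ℝ) = (k : ℝ) ^ 2 * Real.log 2 := by push_cast; rw [Real.log_pow]; push_cast; ring
  rw [e1, e2] at h1
  have e3 : (k : ℝ) ^ 2 * Real.log 2 / (k * Real.log 2) = k := by field_simp
  rw [e3] at h1
  have h2 := (abs_le.1 h1).1
  have h3 : C / (k * Real.log 2) ≤ C / Real.log 2 := by
    apply div_le_div_of_nonneg_left hC0 hlog2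
    nlinarith
  unfold LL PP
  linarith

/-- the main theorem -/
theorem main (ε0 : ℝ) (hε0 : 0 < ε0) : ∃ w r : ℕ, 4 ≤ w ∧ 1 ≤ r ∧ ∀ᶠ N : ℕ in atTop, ∀ y : ℕ, w ≤ y → y ^ r ≤ N →
    (∀ g : ℕ → ℂ, (∀ n, ‖g n‖ ≤ 1) → (∀ m n : ℕ, m.Coprime n → g (m * n) = g m * g n) →
      ‖∑ n ∈ Icc 1 N, g n * (ff w y n : ℂ)‖ ≤ ε0 * (N * V y)) ∧
    |∑ n ∈ Icc 1 N, ind y n - N * V y| ≤ ε0 * (N * V y) := by
  classical
  obtain ⟨C, hC, hkat⟩ := kat_total
  obtain ⟨B, n1, hV1⟩ := V_low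
  obtain ⟨C5, hC5, hL5⟩ := LL_low
  -- the choice of `w`
  obtain ⟨n2, hn2⟩ := ev_log' B (512 * C / ε0 ^ 2)
  obtain ⟨w, hw⟩ : ∃ w, w = max (max n1 n2) 4 := ⟨_, rfl⟩
  have hw4 : 4 ≤ w := by rw [hw]; exact le_max_right _ _
  have hwn1 : n1 ≤ w := by rw [hw]; exact le_trans (le_max_left _ _) (le_max_left _ _)
  have hwn2 : n2 ≤ w := by rw [hw]; exact le_trans (le_max_right _ _) (le_max_left _ _)
  clear hw
  have hVw := V_pos w
  have hwr : (4 : ℝ) ≤ w := by exact_mod_cast hw4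
  have hlw : 0 < Real.log w := Real.log_pos (by linarith)
  have hsw : 0 < Real.sqrt w := Real.sqrt_pos.2 (by linarith)
  have hwC : C / Real.sqrt w ≤ ε0 ^ 2 * V w / 512 := by
    have h1 := hV1 w hwn1
    have h2 := hn2 w hwn2
    have h3 : 512 * C / ε0 ^ 2 ≤ Real.sqrt w * V w := by
      have hB : 0 < Real.log w ^ B := by positivity
      rw [div_le_iff₀ hB] at h1
      calc 512 * C / ε0 ^ 2 = (512 * C / ε0 ^ 2) * 1 := by ring
        _ ≤ (512 * C / ε0 ^ 2) * (V w * Real.log w ^ B) := mul_le_mul_of_nonneg_left h1 (by positivity)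
        _ = (512 * C / ε0 ^ 2 * Real.log w ^ B) * V w := by ring
        _ ≤ Real.sqrt w * V w := mul_le_mul_of_nonneg_right h2 hVw.le
    rw [div_le_iff₀ (by positivity)] at h3
    rw [div_le_div_iff₀ hsw (by norm_num)]
    linarith
  -- the choice of `ε`
  obtain ⟨ε, hεd⟩ : ∃ ε, ε = min (min (1 / 3) (ε0 / 3)) (min (ε0 ^ 2 * V w / (1536 * C)) (ε0 ^ 2 / 3072)) := ⟨_, rfl⟩
  have hεpos : 0 < ε := by
    rw [hεd]
    refine lt_min (lt_min (by norm_num) (by positivity)) (lt_min (by positivity) (by positivity))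
  have hε1 : ε ≤ 1 / 3 := by rw [hεd]; exact (min_le_left _ _).trans (min_le_left _ _)
  have hε2 : ε ≤ ε0 / 3 := by rw [hεd]; exact (min_le_left _ _).trans (min_le_right _ _)
  have hε3 : ε ≤ ε0 ^ 2 * V w / (1536 * C) := by rw [hεd]; exact (min_le_right _ _).trans (min_le_left _ _)
  have hε4 : ε ≤ ε0 ^ 2 / 3072 := by rw [hεd]; exact (min_le_right _ _).trans (min_le_right _ _)
  clear hεd
  obtain ⟨r, hr, hfl⟩ := fl ε hεpos
  refine ⟨w, r, hw4, hr, ?_⟩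
  -- the choice of `k`
  obtain ⟨k1, hk1⟩ := pow_le_two_pow (25 / ε ^ 2) 2
  obtain ⟨k2, hk2⟩ := pow_le_two_pow (8 ^ B / ε) (2 * B + 1)
  obtain ⟨k3, hk3⟩ := pow_le_two_pow (8 ^ B * (8 / ε0)) (2 * B)
  obtain ⟨k4, hk4⟩ := pow_le_two_pow (8 / Real.log (1 + ε)) 0
  obtain ⟨k5, hk5⟩ := pow_le_two_pow (1 / ε) 0
  obtain ⟨k6, hk6⟩ := ev_L' (2 * (C5 + 1) + 2 * C5 + 2 * (1024 / ε0 ^ 2))
  obtain ⟨k0, hk0⟩ : ∃ k0, k0 = max (max (max k1 k2) (max k3 k4)) (max (max k5 k6) (max w 2)) := ⟨_, rfl⟩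
  filter_upwards [hfl, eventually_ge_atTop (max (2 ^ (8 * k0 ^ 2)) (max n1 16))] with N hflN hNlarge y hwy hyr
  obtain ⟨J, hJ⟩ : ∃ J, J = Nat.log 2 N / 8 := ⟨_, rfl⟩
  obtain ⟨k, hk⟩ : ∃ k, k = Nat.sqrt J := ⟨_, rfl⟩
  have hN16 : 16 ≤ N := le_trans (le_trans (le_max_right _ _) (le_max_right _ _)) hNlarge
  have hNn1 : n1 ≤ N := le_trans (le_trans (le_max_left _ _) (le_max_right _ _)) hNlarge
  have hN0 : (0 : ℝ) < N := by exact_mod_cast (by omega : 0 < N)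
  have hkk0 : k0 ≤ k := by
    rw [hk, Nat.le_sqrt']
    rw [hJ, Nat.le_div_iff_mul_le (by norm_num)]
    apply Nat.le_log_of_pow_le (by norm_num)
    refine le_trans (le_of_eq ?_) ((le_max_left _ _).trans hNlarge)
    congr 1; ring
  have g1 : k1 ≤ k := le_trans (by rw [hk0]; simp only [le_max_iff, le_refl, true_or, or_true]) hkk0
  have g2 : k2 ≤ k := le_trans (by rw [hk0]; simp only [le_max_iff, le_refl, true_or, or_true]) hkk0
  have g3 : k3 ≤ k := le_trans (by rw [hk0]; simp only [le_max_iff, le_refl, true_or, or_true]) hkk0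
  have g4 : k4 ≤ k := le_trans (by rw [hk0]; simp only [le_max_iff, le_refl, true_or, or_true]) hkk0
  have g5 : k5 ≤ k := le_trans (by rw [hk0]; simp only [le_max_iff, le_refl, true_or, or_true]) hkk0
  have g6 : k6 ≤ k := le_trans (by rw [hk0]; simp only [le_max_iff, le_refl, true_or, or_true]) hkk0
  have g7 : w ≤ k := le_trans (by rw [hk0]; simp only [le_max_iff, le_refl, true_or, or_true]) hkk0
  have g8 : 2 ≤ k := le_trans (by rw [hk0]; simp only [le_max_iff, le_refl, true_or, or_true]) hkk0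
  clear hk0 hkk0
  have hk2J : k ^ 2 ≤ J := by rw [hk]; exact Nat.sqrt_le' J
  have hJk : J < (k + 1) ^ 2 := by rw [hk]; exact Nat.lt_succ_sqrt' J
  have h8J : 2 ^ (8 * J) ≤ N := by
    calc 2 ^ (8 * J) ≤ 2 ^ Nat.log 2 N := Nat.pow_le_pow_right (by norm_num) (by rw [hJ]; omega)
      _ ≤ N := Nat.pow_log_le_self 2 (by omega)
  have h8k : 2 ^ (8 * k ^ 2) ≤ N := le_trans (Nat.pow_le_pow_right (by norm_num) (by omega)) h8J
  have hlogN : Real.log N ≤ 8 * ((k : ℝ) + 1) ^ 2 := by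
    have h1 : N < 2 ^ (8 * (k + 1) ^ 2) := by
      calc N < 2 ^ (Nat.log 2 N + 1) := Nat.lt_pow_succ_log_self (by norm_num) N
        _ ≤ 2 ^ (8 * (k + 1) ^ 2) := Nat.pow_le_pow_right (by norm_num) (by omega)
    have h2 : (N : ℝ) ≤ 2 ^ (8 * (k + 1) ^ 2) := by exact_mod_cast h1.le
    have h3 := Real.log_le_log hN0 h2
    rw [Real.log_pow] at h3
    push_cast at h3
    have h4 : Real.log 2 ≤ 1 := by have := Real.log_two_lt_d9; linarith
    calc Real.log N ≤ 8 * ((k : ℝ) + 1) ^ 2 * Real.log 2 := h3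
      _ ≤ 8 * ((k : ℝ) + 1) ^ 2 * 1 := mul_le_mul_of_nonneg_left h4 (by positivity)
      _ = _ := by ring
  have hlogN1 : 0 < Real.log N := Real.log_pos (by exact_mod_cast (by omega : 1 < N))
  have hyN : y ≤ N := le_trans (Nat.le_self_pow (by omega) y) hyr
  have hVy0 := V_pos y
  -- lower bound for `V y`
  have hVy : 1 ≤ V y * (8 ^ B * ((k : ℝ) + 1) ^ (2 * B)) := by
    have h1 := hV1 N hNn1
    have h2 : 1 / Real.log N ^ B ≤ V y := h1.trans (V_anti hyN)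
    rw [div_le_iff₀ (by positivity)] at h2
    refine h2.trans (mul_le_mul_of_nonneg_left ?_ hVy0.le)
    calc Real.log N ^ B ≤ (8 * ((k : ℝ) + 1) ^ 2) ^ B := pow_le_pow_left₀ hlogN1.le hlogN B
      _ = 8 ^ B * ((k : ℝ) + 1) ^ (2 * B) := by rw [mul_pow, ← pow_mul]
  have hv0 := vv_pos w y
  have hvV : V y ≤ vv w y := by
    rw [V_split hwy]
    exact mul_le_of_le_one_left hv0.le (V_le_one w)
  -- `FL`
  have hwy' : w ^ r ≤ N := (Nat.pow_le_pow_left hwy r).trans hyr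
  have FLy : FL N y ε := fun Q hQ M hM => hflN y (by omega) hyr Q hQ M hM
  have FLw : FL N w ε := fun Q hQ M hM => hflN w (by omega) hwy' Q hQ M hM
  -- all conditions for `j ≥ k`
  have hηj : ∀ j ∈ Ico k (k ^ 2), 1 / Real.sqrt w + ε + (4 * j + 5) / Real.sqrt ((2 ^ (j / 2) : ℕ) : ℝ) + j / (2 ^ j * vv w y) ≤
      1 / Real.sqrt w + 3 * ε := by
    intro j hj
    have hj' := (mem_Ico.1 hj).1
    have a1 : (4 * (j : ℝ) + 5) / Real.sqrt ((2 ^ (j / 2) : ℕ) : ℝ) ≤ ε := by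
      have h1 := hk1 j (by omega)
      have h2 : (4 * (j : ℝ) + 5) ^ 2 ≤ ε ^ 2 * 2 ^ (j / 2) := by
        have h3 : 25 * ((j : ℝ) + 1) ^ 2 ≤ ε ^ 2 * 2 ^ (j / 2) := by
          calc 25 * ((j : ℝ) + 1) ^ 2 = ε ^ 2 * (25 / ε ^ 2 * ((j : ℝ) + 1) ^ 2) := by field_simp
            _ ≤ _ := mul_le_mul_of_nonneg_left h1 (by positivity)
        have h4 : (0 : ℝ) ≤ j := Nat.cast_nonneg _
        nlinarith
      have h5 : (0 : ℝ) < ((2 ^ (j / 2) : ℕ) : ℝ) := by positivity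
      rw [div_le_iff₀ (Real.sqrt_pos.2 h5)]
      apply le_of_sq_le_sq _ (by positivity)
      rw [mul_pow, Real.sq_sqrt h5.le]
      push_cast
      exact h2
    have a2 : (j : ℝ) / (2 ^ j * vv w y) ≤ ε := by
      have h1 := hk2 j (by omega)
      rw [div_le_iff₀ (by positivity)]
      have h2 : (2 : ℝ) ^ (j / 2) ≤ 2 ^ j := pow_le_pow_right₀ (by norm_num) (by omega)
      have h3 : (8 : ℝ) ^ B * ((j : ℝ) + 1) ^ (2 * B + 1) ≤ ε * 2 ^ j := by
        calc (8 : ℝ) ^ B * ((j : ℝ) + 1) ^ (2 * B + 1) = ε * (8 ^ B / ε * ((j : ℝ) + 1) ^ (2 * B + 1)) := by field_simp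
          _ ≤ ε * 2 ^ j := mul_le_mul_of_nonneg_left (h1.trans h2) hεpos.le
      have h4 : (j : ℝ) ≤ V y * (8 ^ B * ((j : ℝ) + 1) ^ (2 * B + 1)) := by
        have h5 : 1 ≤ V y * (8 ^ B * ((j : ℝ) + 1) ^ (2 * B)) := by
          refine hVy.trans (mul_le_mul_of_nonneg_left ?_ hVy0.le)
          have : (k : ℝ) ≤ j := by exact_mod_cast hj'
          gcongr
        have h6 : (0 : ℝ) ≤ j := Nat.cast_nonneg _
        calc (j : ℝ) ≤ (j : ℝ) + 1 := by linarith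
          _ = 1 * ((j : ℝ) + 1) := by ring
          _ ≤ (V y * (8 ^ B * ((j : ℝ) + 1) ^ (2 * B))) * ((j : ℝ) + 1) := mul_le_mul_of_nonneg_right h5 (by linarith)
          _ = _ := by rw [pow_succ]; ring
      calc (j : ℝ) ≤ V y * (8 ^ B * ((j : ℝ) + 1) ^ (2 * B + 1)) := h4
        _ ≤ vv w y * (ε * 2 ^ j) := mul_le_mul hvV h3 (by positivity) hv0.le
        _ = _ := by ring
    linarith
  -- `L`
  obtain ⟨L, hLd⟩ : ∃ L, L = LL k (k ^ 2) := ⟨_, rfl⟩
  have hkr : (2 : ℝ) ≤ k := by exact_mod_cast g8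
  have hlk := hk6 k g6
  have hE0 : 0 ≤ 1024 / ε0 ^ 2 := by positivity
  have hL1 : Real.log k - C5 ≤ L := by rw [hLd]; exact hL5 k g8
  have hLhalf : Real.log k ≤ 2 * L := by linarith
  have hLone : 1 ≤ L := by linarith
  have hLbig : 1024 / ε0 ^ 2 ≤ L := by linarith
  have hL0 : 0 < L := by linarith
  have hharm : ∑ j ∈ Ico k (k ^ 2), 1 / (j : ℝ) ≤ 4 * L := by
    have h1 := harm_le k (k ^ 2) (by omega) (Nat.le_self_pow (by norm_num) k)
    have e : ((k ^ 2 : ℕ) : ℝ) / k = k := by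
      have : (k : ℝ) ≠ 0 := by linarith
      push_cast
      field_simp
    rw [e] at h1
    linarith
  have hexp : Real.exp (8 / 2 ^ k) ≤ 1 + ε := by
    have h1 := hk4 k g4
    rw [pow_zero, mul_one] at h1
    have h2 : (2 : ℝ) ^ (k / 2) ≤ 2 ^ k := pow_le_pow_right₀ (by norm_num) (by omega)
    have h3 : 0 < Real.log (1 + ε) := Real.log_pos (by linarith)
    have h4 : 8 / (2 : ℝ) ^ k ≤ Real.log (1 + ε) := by
      have h5 := h1.trans h2
      rw [div_le_iff₀ h3] at h5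
      rw [div_le_iff₀ (by positivity)]
      linarith
    calc Real.exp (8 / 2 ^ k) ≤ Real.exp (Real.log (1 + ε)) := Real.exp_le_exp.2 h4
      _ = 1 + ε := Real.exp_log (by linarith)
  have hJN : (2 ^ (k ^ 2) : ℝ) ^ 2 / N ≤ ε := by
    have h1 := hk5 k g5
    rw [pow_zero, mul_one] at h1
    have h2 : (2 : ℝ) ^ (k / 2) ≤ 2 ^ k := pow_le_pow_right₀ (by norm_num) (by omega)
    have h3 : (2 : ℝ) ^ (2 * k ^ 2 + k) ≤ N := by
      have : 2 ^ (2 * k ^ 2 + k) ≤ N := le_trans (Nat.pow_le_pow_right (by norm_num) (by nlinarith)) h8k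
      exact_mod_cast this
    rw [div_le_iff₀ hN0]
    have h4 : 1 ≤ ε * 2 ^ k := by
      have := h1.trans h2
      rw [div_le_iff₀ hεpos] at this
      linarith
    calc ((2 : ℝ) ^ (k ^ 2)) ^ 2 = (2 : ℝ) ^ (2 * k ^ 2) * 1 := by rw [← pow_mul, mul_one]; congr 1; ring
      _ ≤ (2 : ℝ) ^ (2 * k ^ 2) * (ε * 2 ^ k) := mul_le_mul_of_nonneg_left h4 (by positivity)
      _ = ε * (2 : ℝ) ^ (2 * k ^ 2 + k) := by rw [pow_add]; ring
      _ ≤ ε * N := mul_le_mul_of_nonneg_left h3 hεpos.le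
  -- Turan-Kubilius
  have tky := turan_kubilius y N k (k ^ 2) ε hεpos.le hε1 FLy hN16 g8 h8k hexp (by exact_mod_cast hJN)
  have tkw := turan_kubilius w N k (k ^ 2) ε hεpos.le hε1 FLw hN16 g8 h8k hexp (by exact_mod_cast hJN)
  rw [← hLd] at tky tkw
  -- the counts
  have cnt_bound : ∀ z : ℕ, FL N z ε → |∑ n ∈ Icc 1 N, ind z n - N * V z| ≤ ε * (N * V z) := by
    intro z hz
    have h1 := hz _ (adm1 1) N (Nat.le_self_pow (by norm_num) N)
    rw [cnt1, ← V_eq] at h1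
    simpa using h1
  have cy := cnt_bound y FLy
  have cw := cnt_bound w FLw
  have hNV : 0 < N * V y := by positivity
  refine ⟨?_, cy.trans (mul_le_mul_of_nonneg_right (by linarith) hNV.le)⟩
  intro g hg hmul
  have hkat' := hkat k (k ^ 2) w y N ε (1 / Real.sqrt w + 3 * ε) g8 (Nat.le_self_pow (by norm_num) k) hw4 hwy
    (lt_of_le_of_lt g7 Nat.lt_two_pow_self) hN16 h8k hεpos.le (by linarith) FLy FLw hηj g hg hmul
  -- the bilinear part
  have hA : ‖∑ n ∈ Icc 1 N, g n * (ff w y n : ℂ) * (om k (k ^ 2) n : ℂ)‖ ≤ ε0 / 2 * L * (N * V y) := by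
    refine hkat'.trans ?_
    have b1 : 2 * (N : ℝ) / 2 ^ k ≤ ε0 / 4 * L * (N * V y) := by
      have h1 := hk3 k g3
      have h2 : (2 : ℝ) ^ (k / 2) ≤ 2 ^ k := pow_le_pow_right₀ (by norm_num) (by omega)
      have h3 : 8 / ε0 ≤ V y * 2 ^ k := by
        calc 8 / ε0 = (8 / ε0) * 1 := by ring
          _ ≤ (8 / ε0) * (V y * (8 ^ B * ((k : ℝ) + 1) ^ (2 * B))) := mul_le_mul_of_nonneg_left hVy (by positivity)
          _ = V y * (8 ^ B * (8 / ε0) * ((k : ℝ) + 1) ^ (2 * B)) := by ring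
          _ ≤ V y * 2 ^ k := mul_le_mul_of_nonneg_left (h1.trans h2) hVy0.le
      have h4 : 8 ≤ ε0 * (V y * 2 ^ k) := by
        rw [div_le_iff₀ hε0] at h3
        linarith
      rw [div_le_iff₀ (by positivity)]
      have h5 : 8 ≤ ε0 * L * (V y * 2 ^ k) := by
        calc (8 : ℝ) ≤ ε0 * (V y * 2 ^ k) := h4
          _ = (ε0 * (V y * 2 ^ k)) * 1 := by ring
          _ ≤ (ε0 * (V y * 2 ^ k)) * L := mul_le_mul_of_nonneg_left hLone (by positivity)
          _ = _ := by ring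
      calc 2 * (N : ℝ) = N / 4 * 8 := by ring
        _ ≤ N / 4 * (ε0 * L * (V y * 2 ^ k)) := mul_le_mul_of_nonneg_left h5 (by positivity)
        _ = _ := by ring
    have b2 : Real.sqrt (C * V w * (1 / Real.sqrt w + 3 * ε)) ≤ ε0 * V w / 16 := by
      apply Real.sqrt_le_iff.2
      refine ⟨by positivity, ?_⟩
      have h1 : C * (1 / Real.sqrt w + 3 * ε) ≤ ε0 ^ 2 * V w / 256 := by
        have h2 : C * (3 * ε) ≤ ε0 ^ 2 * V w / 512 := by
          rw [le_div_iff₀ (by positivity)] at hε3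
          linarith
        have h3 : C * (1 / Real.sqrt w) = C / Real.sqrt w := by ring
        rw [mul_add, h3]
        linarith
      calc C * V w * (1 / Real.sqrt w + 3 * ε) = (C * (1 / Real.sqrt w + 3 * ε)) * V w := by ring
        _ ≤ (ε0 ^ 2 * V w / 256) * V w := mul_le_mul_of_nonneg_right h1 hVw.le
        _ = (ε0 * V w / 16) ^ 2 := by ring
    have b3 : (N : ℝ) * vv w y * Real.sqrt (C * V w * (1 / Real.sqrt w + 3 * ε)) * ∑ j ∈ Ico k (k ^ 2), 1 / (j : ℝ) ≤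
        ε0 / 4 * L * (N * V y) := by
      calc (N : ℝ) * vv w y * Real.sqrt (C * V w * (1 / Real.sqrt w + 3 * ε)) * ∑ j ∈ Ico k (k ^ 2), 1 / (j : ℝ)
          ≤ (N : ℝ) * vv w y * (ε0 * V w / 16) * (4 * L) := by
            apply mul_le_mul _ hharm (sum_nonneg fun _ _ => by positivity) (by positivity)
            exact mul_le_mul_of_nonneg_left b2 (by positivity)
        _ = ε0 / 4 * L * (N * (V w * vv w y)) := by ring
        _ = _ := by rw [← V_split hwy]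
    calc _ ≤ ε0 / 4 * L * (N * V y) + ε0 / 4 * L * (N * V y) := add_le_add b1 b3
      _ = _ := by ring
  -- the deviation part
  have hB : ‖∑ n ∈ Icc 1 N, g n * (ff w y n : ℂ) * ((L - om k (k ^ 2) n : ℝ) : ℂ)‖ ≤ ε0 / 4 * L * (N * V y) := by
    have h1 : ‖∑ n ∈ Icc 1 N, g n * (ff w y n : ℂ) * ((L - om k (k ^ 2) n : ℝ) : ℂ)‖ ≤
        ∑ n ∈ Icc 1 N, Real.sqrt |ff w y n| * (Real.sqrt |ff w y n| * |om k (k ^ 2) n - L|) := by
      refine (norm_sum_le _ _).trans (sum_le_sum fun n _ => ?_)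
      rw [norm_mul, norm_mul, Complex.norm_real, Complex.norm_real, Real.norm_eq_abs, Real.norm_eq_abs, ← mul_assoc,
        Real.mul_self_sqrt (abs_nonneg _), abs_sub_comm L]
      have := hg n
      have h2 : ‖g n‖ * |ff w y n| ≤ 1 * |ff w y n| := mul_le_mul_of_nonneg_right this (abs_nonneg _)
      rw [one_mul] at h2
      exact mul_le_mul_of_nonneg_right h2 (abs_nonneg _)
    have h2 := Finset.sum_mul_sq_le_sq_mul_sq (Icc 1 N) (fun n => Real.sqrt |ff w y n|) (fun n => Real.sqrt |ff w y n| * |om k (k ^ 2) n - L|)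
    have h3 : ∑ n ∈ Icc 1 N, Real.sqrt |ff w y n| ^ 2 ≤ 4 * (N * V y) := by
      calc ∑ n ∈ Icc 1 N, Real.sqrt |ff w y n| ^ 2 ≤ ∑ n ∈ Icc 1 N, (ind y n + vv w y * ind w n) := by
            apply sum_le_sum
            intro n _
            rw [Real.sq_sqrt (abs_nonneg _)]
            exact (ff_abs w y n hwy).2
        _ = ∑ n ∈ Icc 1 N, ind y n + vv w y * ∑ n ∈ Icc 1 N, ind w n := by rw [sum_add_distrib, ← mul_sum]
        _ ≤ 2 * (N * V y) + vv w y * (2 * (N * V w)) := by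
            have e1 := (abs_le.1 cy).2
            have e2 := (abs_le.1 cw).2
            have e3 : ε * (N * V y) ≤ 1 * (N * V y) := mul_le_mul_of_nonneg_right (by linarith) hNV.le
            have e4 : ε * (N * V w) ≤ 1 * (N * V w) := mul_le_mul_of_nonneg_right (by linarith) (by positivity)
            apply add_le_add (by linarith)
            exact mul_le_mul_of_nonneg_left (by linarith) hv0.le
        _ = 4 * (N * V y) := by rw [V_split hwy]; ring
    have h4 : ∑ n ∈ Icc 1 N, (Real.sqrt |ff w y n| * |om k (k ^ 2) n - L|) ^ 2 ≤ 2 * (N * V y) * (4 * L + 12 * ε * L ^ 2) := by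
      calc ∑ n ∈ Icc 1 N, (Real.sqrt |ff w y n| * |om k (k ^ 2) n - L|) ^ 2
          ≤ ∑ n ∈ Icc 1 N, (ind y n * (om k (k ^ 2) n - L) ^ 2 + vv w y * (ind w n * (om k (k ^ 2) n - L) ^ 2)) := by
            apply sum_le_sum
            intro n _
            rw [mul_pow, Real.sq_sqrt (abs_nonneg _), sq_abs]
            have := (ff_abs w y n hwy).2
            calc |ff w y n| * (om k (k ^ 2) n - L) ^ 2 ≤ (ind y n + vv w y * ind w n) * (om k (k ^ 2) n - L) ^ 2 :=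
                  mul_le_mul_of_nonneg_right this (sq_nonneg _)
              _ = _ := by ring
        _ = ∑ n ∈ Icc 1 N, ind y n * (om k (k ^ 2) n - L) ^ 2 + vv w y * ∑ n ∈ Icc 1 N, ind w n * (om k (k ^ 2) n - L) ^ 2 := by
            rw [sum_add_distrib, ← mul_sum]
        _ ≤ N * V y * (4 * L + 12 * ε * L ^ 2) + vv w y * (N * V w * (4 * L + 12 * ε * L ^ 2)) := by
            apply add_le_add tky
            exact mul_le_mul_of_nonneg_left tkw hv0.le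
        _ = _ := by rw [V_split hwy]; ring
    have h5 : 32 * L + 96 * ε * L ^ 2 ≤ (ε0 / 4 * L) ^ 2 := by
      have e1 : 1024 ≤ ε0 ^ 2 * L := by
        rw [div_le_iff₀ (by positivity)] at hLbig
        linarith
      have e2 : 32 * L ≤ ε0 ^ 2 * L ^ 2 / 32 := by nlinarith
      have e3 : 96 * ε * L ^ 2 ≤ ε0 ^ 2 * L ^ 2 / 32 := by
        have : 96 * ε ≤ ε0 ^ 2 / 32 := by linarith
        calc 96 * ε * L ^ 2 ≤ ε0 ^ 2 / 32 * L ^ 2 := mul_le_mul_of_nonneg_right this (by positivity)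
          _ = _ := by ring
      calc 32 * L + 96 * ε * L ^ 2 ≤ ε0 ^ 2 * L ^ 2 / 32 + ε0 ^ 2 * L ^ 2 / 32 := add_le_add e2 e3
        _ = _ := by ring
    refine h1.trans ?_
    apply le_of_sq_le_sq _ (by positivity)
    refine h2.trans ?_
    calc (∑ n ∈ Icc 1 N, Real.sqrt |ff w y n| ^ 2) * ∑ n ∈ Icc 1 N, (Real.sqrt |ff w y n| * |om k (k ^ 2) n - L|) ^ 2
        ≤ (4 * (N * V y)) * (2 * (N * V y) * (4 * L + 12 * ε * L ^ 2)) :=
          mul_le_mul h3 h4 (sum_nonneg fun _ _ => sq_nonneg _) (by positivity)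
      _ = (N * V y) ^ 2 * (32 * L + 96 * ε * L ^ 2) := by ring
      _ ≤ (N * V y) ^ 2 * (ε0 / 4 * L) ^ 2 := mul_le_mul_of_nonneg_left h5 (by positivity)
      _ = _ := by ring
  -- conclusion
  have hsum : (L : ℂ) * ∑ n ∈ Icc 1 N, g n * (ff w y n : ℂ) =
      ∑ n ∈ Icc 1 N, g n * (ff w y n : ℂ) * (om k (k ^ 2) n : ℂ) + ∑ n ∈ Icc 1 N, g n * (ff w y n : ℂ) * ((L - om k (k ^ 2) n : ℝ) : ℂ) := by
    rw [mul_sum, ← sum_add_distrib]
    apply sum_congr rfl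
    intro n _
    push_cast
    ring
  have hfin : L * ‖∑ n ∈ Icc 1 N, g n * (ff w y n : ℂ)‖ ≤ L * (ε0 * (N * V y)) := by
    have e1 : L * ‖∑ n ∈ Icc 1 N, g n * (ff w y n : ℂ)‖ = ‖(L : ℂ) * ∑ n ∈ Icc 1 N, g n * (ff w y n : ℂ)‖ := by
      rw [norm_mul, Complex.norm_real, Real.norm_of_nonneg hL0.le]
    rw [e1, hsum]
    refine (norm_add_le _ _).trans ((add_le_add hA hB).trans ?_)
    have : 0 ≤ ε0 * L * (N * V y) := by positivity
    linarith
  exact le_of_mul_le_mul_left hfin hL0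
where
  le_of_sq_le_sq {a b : ℝ} (h : a ^ 2 ≤ b ^ 2) (hb : 0 ≤ b) : a ≤ b := (abs_le_of_sq_le_sq' h hb).2

end Pool.Agent.H31.MF
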