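import Pool.Agent.H31.MF.Fin
import Pool.Graph.R_seed8.H373R2.T7.SupLiou
import Pool.Graph.R_pool_sql_team_seeded_64922ed1.X55.Pal.Pal4

set_option autoImplicit false

/-! # The Liouville function, and the size of the product -/

namespace Pool.Agent.H31.MF

open Finset Filter Topology Pool.Agent.H373R2.T7
open Pool.Agent.H807R2.Dav

lemma Rgh_mod (w n : ℕ) : Rgh w n ↔ Rgh w (n % ∏ p ∈ pz w, p) := by
  unfold Rgh
  have key : ∀ p ∈ pz w, (p ∣ n ^ 2 + 1 ↔ p ∣ (n % ∏ p ∈ pz w, p) ^ 2 + 1) := by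
    intro p hp
    have h1 := dvd_mod 1 p n
    have h2 := dvd_mod 1 p (n % ∏ p ∈ pz w, p)
    rw [Nat.mod_mod_of_dvd n (dvd_prod_of_mem _ hp)] at h2
    rw [one_mul, one_mul] at h1 h2
    rw [h1, h2]
  constructor
  · intro h p hp h1
    exact h p hp ((key p hp).2 h1)
  · intro h p hp h1
    exact h p hp ((key p hp).1 h1)

/-- sums over one class -/
lemma class_sum_le (h : ℕ → ℂ) (N W b : ℕ) (hW : 1 ≤ W) (K : ℝ) (hK : ∀ α : ℝ, ‖∑ n ∈ Icc 1 N, h n * ee ((n : ℝ) * α)‖ ≤ K) :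
    ‖∑ n ∈ (Icc 1 N).filter (fun n : ℕ => (W : ℤ) ∣ (n : ℤ) - b), h n‖ ≤ K := by
  have hW0 : (0 : ℝ) < W := by exact_mod_cast hW
  have e1 : (W : ℂ) * ∑ n ∈ (Icc 1 N).filter (fun n : ℕ => (W : ℤ) ∣ (n : ℤ) - b), h n =
      ∑ t ∈ range W, ee (-((t : ℝ) * (b / W))) * ∑ n ∈ Icc 1 N, h n * ee ((n : ℝ) * (t / W)) := by
    have e2 : ∀ n ∈ Icc 1 N, (if (W : ℤ) ∣ (n : ℤ) - b then (W : ℂ) * h n else 0) =
        ∑ t ∈ range W, ee (-((t : ℝ) * (b / W))) * (h n * ee ((n : ℝ) * (t / W))) := by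
      intro n _
      have h1 := orth W hW ((n : ℤ) - b)
      have h2 : ∑ t ∈ range W, ee (-((t : ℝ) * (b / W))) * (h n * ee ((n : ℝ) * (t / W))) =
          h n * ∑ t ∈ range W, ee ((t : ℝ) * ((((n : ℤ) - b : ℤ) : ℝ) / W)) := by
        rw [mul_sum]
        apply sum_congr rfl
        intro t _
        have h3 : ee ((t : ℝ) * ((((n : ℤ) - b : ℤ) : ℝ) / W)) = ee (-((t : ℝ) * (b / W))) * ee ((n : ℝ) * (t / W)) := by
          rw [← ee_add]
          congr 1
          push_cast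
          field_simp
          ring
        rw [h3]
        ring
      rw [h2, h1]
      split_ifs
      · ring
      · simp
    rw [sum_filter, mul_sum]
    have e3 : ∀ n ∈ Icc 1 N, (W : ℂ) * (if (W : ℤ) ∣ (n : ℤ) - b then h n else 0) =
        (if (W : ℤ) ∣ (n : ℤ) - b then (W : ℂ) * h n else 0) := by
      intro n _
      split_ifs <;> simp
    rw [sum_congr rfl e3, sum_congr rfl e2, sum_comm]
    apply sum_congr rfl
    intro t _
    rw [mul_sum]
  have e4 : (W : ℝ) * ‖∑ n ∈ (Icc 1 N).filter (fun n : ℕ => (W : ℤ) ∣ (n : ℤ) - b), h n‖ ≤ W * K := by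
    have e5 : (W : ℝ) * ‖∑ n ∈ (Icc 1 N).filter (fun n : ℕ => (W : ℤ) ∣ (n : ℤ) - b), h n‖ =
        ‖(W : ℂ) * ∑ n ∈ (Icc 1 N).filter (fun n : ℕ => (W : ℤ) ∣ (n : ℤ) - b), h n‖ := by
      rw [norm_mul, Complex.norm_natCast]
    rw [e5, e1]
    refine (norm_sum_le _ _).trans ?_
    calc ∑ t ∈ range W, ‖ee (-((t : ℝ) * (b / W))) * ∑ n ∈ Icc 1 N, h n * ee ((n : ℝ) * (t / W))‖
        ≤ ∑ _t ∈ range W, K := by
          apply sum_le_sum
          intro t _
          rw [norm_mul, norm_ee, one_mul]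
          exact hK _
      _ = W * K := by rw [sum_const, card_range, nsmul_eq_mul]
  exact le_of_mul_le_mul_left e4 hW0

/-- the Liouville function on the classes -/
theorem liou_classes (w : ℕ) (δ : ℝ) (hδ : 0 < δ) : ∀ᶠ N : ℕ in atTop,
    ‖∑ n ∈ Icc 1 N, liR n * (ind w n : ℂ)‖ ≤ δ * N := by
  classical
  set W := ∏ p ∈ pz w, p with hW
  have hW1 : 1 ≤ W := Nat.one_le_iff_ne_zero.2 (prod_ne_zero_iff.2 fun p hp => (mem_pz.1 hp).2.ne_zero)
  obtain ⟨N0, h0⟩ := sup_liou 1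
  obtain ⟨N1, h1⟩ := ev_L' ((W : ℝ) / δ)
  filter_upwards [eventually_ge_atTop (max (max N0 N1) 3)] with N hN
  have g1 := h0 N (le_trans (le_trans (le_max_left _ _) (le_max_left _ _)) hN)
  have g2 := h1 N (le_trans (le_trans (le_max_right _ _) (le_max_left _ _)) hN)
  have g3 : 3 ≤ N := le_trans (le_max_right _ _) hN
  have hlog : 0 < Real.log N := Real.log_pos (by exact_mod_cast (by omega : 1 < N))
  have e1 : ∑ n ∈ Icc 1 N, liR n * (ind w n : ℂ) =
      ∑ b ∈ (range W).filter (fun b => Rgh w b), ∑ n ∈ (Icc 1 N).filter (fun n : ℕ => (W : ℤ) ∣ (n : ℤ) - b), liR n := by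
    have e2 : ∀ b ∈ (range W).filter (fun b => Rgh w b), ∑ n ∈ (Icc 1 N).filter (fun n : ℕ => (W : ℤ) ∣ (n : ℤ) - b), liR n =
        ∑ n ∈ Icc 1 N, if (W : ℤ) ∣ (n : ℤ) - b then liR n else 0 := fun b _ => sum_filter _ _
    rw [sum_congr rfl e2, sum_comm]
    apply sum_congr rfl
    intro n _
    have e3 : ∀ b ∈ (range W).filter (fun b => Rgh w b), (if (W : ℤ) ∣ (n : ℤ) - b then liR n else 0) = if b = n % W then liR n else 0 := by
      intro b hb
      rw [mem_filter, mem_range] at hb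
      have : ((W : ℤ) ∣ (n : ℤ) - b) ↔ b = n % W := by
        rw [← Nat.modEq_iff_dvd]
        constructor
        · intro h
          have h1 : b % W = n % W := h
          rwa [Nat.mod_eq_of_lt hb.1] at h1
        · intro h
          show b % W = n % W
          rw [h, Nat.mod_mod]
      simp only [this]
    rw [sum_congr rfl e3, sum_ite_eq']
    have e4 : (n % W ∈ (range W).filter (fun b => Rgh w b)) ↔ Rgh w n := by
      rw [mem_filter, mem_range, Rgh_mod w n, ← hW]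
      exact ⟨fun h => h.2, fun h => ⟨Nat.mod_lt _ hW1, h⟩⟩
    simp only [e4]
    unfold ind
    split_ifs <;> simp
  rw [e1]
  refine (norm_sum_le _ _).trans ?_
  calc ∑ b ∈ (range W).filter (fun b => Rgh w b), ‖∑ n ∈ (Icc 1 N).filter (fun n : ℕ => (W : ℤ) ∣ (n : ℤ) - b), liR n‖
      ≤ ∑ _b ∈ (range W).filter (fun b => Rgh w b), (N : ℝ) / Real.log N ^ 1 :=
        sum_le_sum fun b _ => class_sum_le liR N W b hW1 _ g1
    _ ≤ W * ((N : ℝ) / Real.log N ^ 1) := by
        rw [sum_const, nsmul_eq_mul]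
        apply mul_le_mul_of_nonneg_right _ (by positivity)
        have := card_filter_le (range W) (fun b => Rgh w b)
        rw [card_range] at this
        exact_mod_cast this
    _ ≤ δ * N := by
        rw [pow_one, mul_div_assoc', div_le_iff₀ hlog]
        rw [div_le_iff₀ hδ] at g2
        have : (0 : ℝ) ≤ N := Nat.cast_nonneg _
        nlinarith

/-- the order of magnitude of the product -/
theorem V_order : ∃ c C : ℝ, 0 < c ∧ 0 < C ∧ ∀ y : ℕ, 3 ≤ y → c / Real.log y ≤ V y ∧ V y ≤ C / Real.log y := by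
  classical
  obtain ⟨c, hc, h1⟩ := Pool.Agent.X55.Pal.VV_low
  obtain ⟨C, hC, h2⟩ := Pool.Agent.X55.Pal.VV_up
  have hrh : ∀ p, rh p = (Pool.Agent.X55.Pal.nu p : ℝ) / p := by
    intro p
    unfold rh Z Pool.Agent.X55.Pal.nu
    simp only [one_mul]
  have hsplit : ∀ y : ℕ, V y = Pool.Agent.X55.Pal.VV y * ∏ p ∈ (pz y).filter (fun p => ¬ ¬ p ∣ 10), (1 - rh p) := by
    intro y
    unfold V Pool.Agent.X55.Pal.VV
    rw [← prod_filter_mul_prod_filter_not (pz y) (fun p => ¬ p ∣ 10)]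
    congr 1
    apply prod_congr rfl
    intro p _
    rw [hrh]
  have hlow : ∀ y : ℕ, (1 / 10 : ℝ) ≤ ∏ p ∈ (pz y).filter (fun p => ¬ ¬ p ∣ 10), (1 - rh p) := by
    intro y
    have hsub : (pz y).filter (fun p => ¬ ¬ p ∣ 10) ⊆ ({2, 5} : Finset ℕ) := by
      intro p hp
      rw [mem_filter, mem_pz] at hp
      obtain ⟨⟨_, h3⟩, h4⟩ := hp
      push Not at h4
      have h5 : p ∈ Nat.divisors 10 := Nat.mem_divisors.2 ⟨h4, by norm_num⟩
      have h6 : Nat.divisors 10 = {1, 2, 5, 10} := by decide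
      rw [h6] at h5
      simp only [mem_insert, mem_singleton] at h5
      rcases h5 with rfl | rfl | rfl | rfl
      · exact absurd h3 (by norm_num)
      · simp
      · simp
      · exact absurd h3 (by norm_num)
    have h3 : ∏ p ∈ ({2, 5} : Finset ℕ), (1 - rh p) ≤ ∏ p ∈ (pz y).filter (fun p => ¬ ¬ p ∣ 10), (1 - rh p) := by
      apply prod_le_prod_of_subset_of_le_one' hsub
      · intro p hp
        have : p.Prime := by
          simp only [mem_insert, mem_singleton] at hp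
          rcases hp with rfl | rfl <;> norm_num
        have := rh_lt this
        linarith
      · intro p hp
        have := rh_nonneg p
        linarith
    refine le_trans ?_ h3
    have h4 := (fac_bounds (adm1 1) 2 (by norm_num)).2.2.1
    have h5 := (fac_bounds (adm1 1) 5 (by norm_num)).2.2.1
    rw [nu_Z] at h4 h5
    rw [prod_pair (by norm_num)]
    unfold rh
    push_cast at h4 h5 ⊢
    have h6 : (1 / 2 : ℝ) * (1 / 5) ≤ (1 - ((Z 1 2).card : ℝ) / 2) * (1 - ((Z 1 5).card : ℝ) / 5) :=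
      mul_le_mul h4 h5 (by norm_num) (le_trans (by norm_num) h4)
    linarith
  have hup : ∀ y : ℕ, ∏ p ∈ (pz y).filter (fun p => ¬ ¬ p ∣ 10), (1 - rh p) ≤ 1 := by
    intro y
    apply prod_le_one
    · intro p hp
      have := rh_lt (mem_pz.1 (mem_filter.1 hp).1).2
      linarith
    · intro p hp
      have := rh_nonneg p
      linarith
  refine ⟨c / 10, C, by positivity, hC, fun y hy => ?_⟩
  have hlog : 0 < Real.log y := Real.log_pos (by exact_mod_cast (by omega : 1 < y))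
  have g1 := h1 y hy
  have g2 := h2 y hy
  have g3 := hlow y
  have g4 := hup y
  have g5 : 0 ≤ Pool.Agent.X55.Pal.VV y := le_trans (by positivity) g1
  rw [hsplit]
  constructor
  · calc c / 10 / Real.log y = (c / Real.log y) * (1 / 10) := by ring
      _ ≤ _ := mul_le_mul g1 g3 (by norm_num) g5
  · calc _ ≤ Pool.Agent.X55.Pal.VV y * 1 := mul_le_mul_of_nonneg_left g4 g5
      _ ≤ _ := by rw [mul_one]; exact g2
where
  prod_le_prod_of_subset_of_le_one' {s t : Finset ℕ} {f : ℕ → ℝ} (h : s ⊆ t) (h0 : ∀ p ∈ t, 0 ≤ f p) (h1 : ∀ p ∈ t, f p ≤ 1) :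
    ∏ p ∈ t, f p ≤ ∏ p ∈ s, f p := by
    classical
    rw [← prod_sdiff h]
    have h2 : ∏ p ∈ t \ s, f p ≤ 1 := prod_le_one (fun p hp => h0 p (mem_sdiff.1 hp).1) (fun p hp => h1 p (mem_sdiff.1 hp).1)
    have h3 : 0 ≤ ∏ p ∈ s, f p := prod_nonneg fun p hp => h0 p (h hp)
    exact mul_le_of_le_one_left h3 h2

end Pool.Agent.H31.MF
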