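import Pool.Agent.H31.MF.Pair
import Pool.Graph.R_seed8.Helper256.KM.Mertens

set_option autoImplicit false

/-! # The average of the singular series over pairs of primes of a dyadic interval -/

namespace Pool.Agent.H31.MF

open Finset Filter Topology Pool.Agent.H373R2.T7

lemma log_pow_le : ∀ x : ℝ, 1 ≤ x → Real.log x ^ 8 ≤ 16 ^ 8 * Real.sqrt x := by
  intro x hx
  have h1 := Real.log_le_rpow_div (by linarith : 0 ≤ x) (by norm_num : (0 : ℝ) < 1 / 16)
  have h0 : 0 ≤ Real.log x := Real.log_nonneg hx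
  calc Real.log x ^ 8 ≤ (x ^ (1 / 16 : ℝ) / (1 / 16)) ^ 8 := pow_le_pow_left₀ h0 h1 8
    _ = 16 ^ 8 * (x ^ (1 / 16 : ℝ)) ^ 8 := by ring
    _ = 16 ^ 8 * Real.sqrt x := by
        congr 1
        rw [← Real.rpow_natCast (x ^ (1 / 16 : ℝ)) 8, ← Real.rpow_mul (by linarith), Real.sqrt_eq_rpow]
        norm_num

/-- the exponential of a sum over a set of primes -/
lemma exp_sum_le : ∃ C : ℝ, 0 < C ∧ ∀ S : Finset ℕ, (∀ p ∈ S, p.Prime) →
    Real.exp (∑ p ∈ S, 8 / (p : ℝ)) - 1 ≤ C * ∑ p ∈ S, 1 / Real.sqrt p := by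
  obtain ⟨C0, hC0⟩ := Pool.Agent.Helper256.KM.mertens_inv
  have hC00 : 0 ≤ C0 := (abs_nonneg _).trans (hC0 3 le_rfl)
  set C1 : ℝ := Real.exp (8 * C0) * 16 ^ 8 + 1 with hC1
  have hC10 : 0 < C1 := by positivity
  refine ⟨C1 * (8 * Real.exp 4), by positivity, fun S => ?_⟩
  induction S using Finset.induction_on_max with
  | empty => intro _; simp
  | insert m S hm ih =>
    intro hS
    have hmS : m ∉ S := fun h => lt_irrefl _ (hm m h)
    have hmp : m.Prime := hS m (mem_insert_self _ _)
    have ih' := ih (fun p hp => hS p (mem_insert_of_mem hp))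
    rw [sum_insert hmS, sum_insert hmS, Real.exp_add]
    set s := ∑ p ∈ S, 8 / (p : ℝ) with hs
    have hs0 : 0 ≤ s := sum_nonneg fun _ _ => by positivity
    have hm2 : (2 : ℝ) ≤ m := by exact_mod_cast hmp.two_le
    have hm0 : (0 : ℝ) < m := by linarith
    have hsq : 1 ≤ Real.sqrt m := Real.one_le_sqrt.2 (by linarith)
    -- the first bound
    have h1 : Real.exp s ≤ C1 * Real.sqrt m := by
      rcases Nat.lt_or_ge m 3 with h3 | h3
      · have hm2' : m = 2 := by have := hmp.two_le; omega
        have hSe : S = ∅ := by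
          rw [eq_empty_iff_forall_notMem]
          intro p hp
          have := hm p hp
          have := (hS p (mem_insert_of_mem hp)).two_le
          omega
        have : s = 0 := by rw [hs, hSe]; simp
        rw [this, Real.exp_zero]
        have : (1 : ℝ) ≤ C1 := by
          rw [hC1]
          have : 0 ≤ Real.exp (8 * C0) * 16 ^ 8 := by positivity
          linarith
        nlinarith
      · have h4 := (abs_le.1 (hC0 m h3)).2
        have h5 : s ≤ 8 * (Real.log (Real.log m) + C0) := by
          have h6 : s ≤ 8 * ∑ p ∈ (Finset.Icc 1 m).filter Nat.Prime, (1 : ℝ) / p := by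
            rw [hs, mul_sum]
            calc ∑ p ∈ S, 8 / (p : ℝ) = ∑ p ∈ S, 8 * (1 / (p : ℝ)) := by
                  apply sum_congr rfl; intro p _; ring
              _ ≤ _ := by
                  apply sum_le_sum_of_subset_of_nonneg
                  · intro p hp
                    rw [mem_filter, mem_Icc]
                    have hpp := hS p (mem_insert_of_mem hp)
                    exact ⟨⟨hpp.one_lt.le, (hm p hp).le⟩, hpp⟩
                  · intro _ _ _; positivity
          linarith
        have hl : 1 ≤ Real.log m := by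
          rw [Real.le_log_iff_exp_le hm0]
          have : (3 : ℝ) ≤ m := by exact_mod_cast h3
          have := Real.exp_one_lt_d9
          linarith
        calc Real.exp s ≤ Real.exp (8 * (Real.log (Real.log m) + C0)) := Real.exp_le_exp.2 h5
          _ = Real.exp (8 * C0) * Real.log m ^ 8 := by
              rw [mul_add, Real.exp_add, mul_comm (Real.exp _)]
              congr 1
              rw [show (8 : ℝ) * Real.log (Real.log m) = ((8 : ℕ) : ℝ) * Real.log (Real.log m) by norm_num,
                Real.exp_nat_mul, Real.exp_log (by linarith)]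
          _ ≤ Real.exp (8 * C0) * (16 ^ 8 * Real.sqrt m) :=
              mul_le_mul_of_nonneg_left (log_pow_le m (by linarith)) (Real.exp_pos _).le
          _ = (Real.exp (8 * C0) * 16 ^ 8) * Real.sqrt m := by ring
          _ ≤ C1 * Real.sqrt m := by
              apply mul_le_mul_of_nonneg_right _ (by linarith)
              rw [hC1]; linarith
    -- the second bound
    have h2 : Real.exp (8 / m) - 1 ≤ (8 * Real.exp 4) / m := by
      have h3 : Real.exp (8 / m) - 1 ≤ (8 / m) * Real.exp (8 / m) := by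
        have h4 := Real.add_one_le_exp (-(8 / (m : ℝ)))
        have h5 : 1 - 8 / (m : ℝ) ≤ Real.exp (-(8 / (m : ℝ))) := by linarith
        have h6 := mul_le_mul_of_nonneg_right h5 (Real.exp_pos (8 / (m : ℝ))).le
        rw [← Real.exp_add, neg_add_cancel, Real.exp_zero] at h6
        linarith
      have h4 : Real.exp (8 / (m : ℝ)) ≤ Real.exp 4 := by
        apply Real.exp_le_exp.2
        rw [div_le_iff₀ hm0]
        linarith
      calc Real.exp (8 / m) - 1 ≤ (8 / m) * Real.exp (8 / m) := h3
        _ ≤ (8 / m) * Real.exp 4 := mul_le_mul_of_nonneg_left h4 (by positivity)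
        _ = _ := by ring
    have h3 : 0 ≤ Real.exp (8 / (m : ℝ)) - 1 := by
      have := Real.one_le_exp (by positivity : 0 ≤ 8 / (m : ℝ))
      linarith
    have h4 : Real.exp s * (Real.exp (8 / m) - 1) ≤ C1 * (8 * Real.exp 4) * (1 / Real.sqrt m) := by
      calc Real.exp s * (Real.exp (8 / m) - 1) ≤ (C1 * Real.sqrt m) * ((8 * Real.exp 4) / m) :=
            mul_le_mul h1 h2 h3 (by positivity)
        _ = C1 * (8 * Real.exp 4) * (1 / Real.sqrt m) := by
            have e : (m : ℝ) = Real.sqrt m * Real.sqrt m := (Real.mul_self_sqrt hm0.le).symm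
            have hsq0 : Real.sqrt m ≠ 0 := by positivity
            rw [div_eq_mul_one_div (8 * Real.exp 4) (m : ℝ)]
            nth_rewrite 2 [e]
            field_simp
    calc Real.exp (8 / m) * Real.exp s - 1 = Real.exp s * (Real.exp (8 / m) - 1) + (Real.exp s - 1) := by ring
      _ ≤ C1 * (8 * Real.exp 4) * (1 / Real.sqrt m) + C1 * (8 * Real.exp 4) * ∑ p ∈ S, 1 / Real.sqrt p :=
          add_le_add h4 ih'
      _ = _ := by ring

/-- the primes of a dyadic interval -/
def PJ (j : ℕ) : Finset ℕ := (Ioc (2 ^ j) (2 ^ (j + 1))).filter Nat.Prime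

lemma mem_PJ {j p : ℕ} : p ∈ PJ j ↔ p.Prime ∧ 2 ^ j < p ∧ p ≤ 2 ^ (j + 1) := by
  unfold PJ
  rw [mem_filter, mem_Ioc]
  tauto

/-- Brun-Titchmarsh -/
lemma bt1 : ∃ C : ℝ, 0 < C ∧ ∀ j : ℕ, 2 ≤ j → ∀ l : ℕ, (l = 1 ∨ l.Prime) → l * l ≤ 2 ^ j → ∀ c : ℕ,
    (((PJ j).filter (fun a => a ≡ c [MOD l])).card : ℝ) ≤ C * 2 ^ j / (l * j) := by
  obtain ⟨C, hC1, hC⟩ := Pool.Agent.Helper923.PPS.brun_titchmarsh
  have hC0 : 0 < C := by linarith
  have hlog2 : 0 < Real.log 2 := Real.log_pos (by norm_num)
  refine ⟨4 * C / Real.log 2, by positivity, fun j hj l hl hlj c => ?_⟩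
  have hl1 : 1 ≤ l := by
    rcases hl with h | h
    · omega
    · exact h.one_lt.le
  set s := 2 ^ j + 1 with hs
  set t := (c + l * s - s) % l with ht
  set N := 2 ^ j / l + 1 with hN
  have hle : l ≤ 2 ^ j := le_trans (Nat.le_mul_self l) hlj
  have hdiv1 : 1 ≤ 2 ^ j / l := Nat.div_pos hle hl1
  have h1 := hC (s + t) l N (by omega) hl
  have h2 : ((PJ j).filter (fun a => a ≡ c [MOD l])).card ≤ ((range N).filter (fun k => (s + t + k * l).Prime)).card := by
    have key : ∀ a ∈ (PJ j).filter (fun a => a ≡ c [MOD l]), s + t + ((a - s) / l) * l = a := by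
      intro a ha
      rw [mem_filter, mem_PJ] at ha
      have h3 : s ≤ a := by omega
      have h4 : (a - s) % l = t := by
        rw [ht]
        have h5 : s ≤ l * s := Nat.le_mul_of_pos_left s hl1
        have h6 : (a - s) + s ≡ (c + l * s - s) + s [MOD l] := by
          rw [Nat.sub_add_cancel h3, Nat.sub_add_cancel (by omega)]
          have : c + l * s ≡ c [MOD l] := by
            unfold Nat.ModEq
            rw [Nat.add_mul_mod_self_left]
          exact ha.2.trans this.symm
        exact Nat.ModEq.add_right_cancel' s h6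
      have h5 := Nat.mod_add_div (a - s) l
      rw [h4] at h5
      have h6 : l * ((a - s) / l) = (a - s) / l * l := Nat.mul_comm _ _
      omega
    apply card_le_card_of_injOn (fun a => (a - s) / l)
    · intro a ha
      have hk := key a ha
      rw [mem_coe, mem_filter, mem_PJ] at ha
      rw [mem_coe, mem_filter, mem_range]
      refine ⟨?_, ?_⟩
      · rw [hN]
        apply Nat.lt_succ_of_le
        apply Nat.div_le_div_right
        have : 2 ^ (j + 1) = 2 * 2 ^ j := by ring
        omega
      · rw [hk]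
        exact ha.1.1
    · intro a ha b hb hab
      have h3 := key a ha
      have h4 := key b hb
      simp only at hab
      rw [← h3, ← h4, hab]
  have hlr : (0 : ℝ) < l := by exact_mod_cast hl1
  have hjr : (2 : ℝ) ≤ j := by exact_mod_cast hj
  have h3 : (N : ℝ) ≤ 2 * (2 ^ j / l) := by
    have h4 : (1 : ℝ) ≤ 2 ^ j / l := by
      rw [le_div_iff₀ hlr, one_mul]
      exact_mod_cast hle
    have h5 : ((2 ^ j / l : ℕ) : ℝ) ≤ 2 ^ j / l := by
      have := @Nat.cast_div_le ℝ _ _ _ (2 ^ j) l
      push_cast at this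
      exact this
    rw [hN]
    push_cast
    linarith
  have h4 : (j : ℝ) / 2 * Real.log 2 ≤ Real.log N := by
    -- `2 ^ j ≤ N ^ 2`
    have h5 : 2 ^ j ≤ N ^ 2 := by
      by_contra h
      push Not at h
      have h6 : 2 ^ j < N * l := by
        rw [hN]
        have := Nat.lt_mul_div_succ (2 ^ j) hl1
        rw [mul_comm] at this
        exact this
      have h7 : (2 ^ j) * (2 ^ j) < (N * l) * (N * l) := Nat.mul_lt_mul_of_lt_of_lt h6 h6
      have h8 : (N * l) * (N * l) = N ^ 2 * (l * l) := by ring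
      have h9 : N ^ 2 * (l * l) ≤ 2 ^ j * 2 ^ j := Nat.mul_le_mul h.le hlj
      omega
    have h6 : ((2 : ℝ) ^ j) ≤ (N : ℝ) ^ 2 := by exact_mod_cast h5
    have h7 := Real.log_le_log (by positivity) h6
    rw [Real.log_pow, Real.log_pow] at h7
    push_cast at h7
    linarith
  have hj0 : (0 : ℝ) < j := by linarith
  have hlogN : 0 < Real.log N := lt_of_lt_of_le (by positivity) h4
  calc (((PJ j).filter (fun a => a ≡ c [MOD l])).card : ℝ) ≤ C * N / Real.log N := le_trans (by exact_mod_cast h2) h1
    _ ≤ C * (2 * (2 ^ j / l)) / ((j : ℝ) / 2 * Real.log 2) := by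
        apply div_le_div₀ (by positivity) _ (by positivity) h4
        exact mul_le_mul_of_nonneg_left h3 hC0.le
    _ = 4 * C / Real.log 2 * 2 ^ j / (l * j) := by
        field_simp
        ring

lemma PJ_card : ∃ C : ℝ, 0 < C ∧ ∀ j : ℕ, 2 ≤ j → ((PJ j).card : ℝ) ≤ C * 2 ^ j / j := by
  obtain ⟨C, hC0, hC⟩ := bt1
  refine ⟨C, hC0, fun j hj => ?_⟩
  have h := hC j hj 1 (Or.inl rfl) (by rw [one_mul]; exact Nat.one_le_two_pow) 0
  have e : (PJ j).filter (fun a => a ≡ 0 [MOD 1]) = PJ j := by
    apply filter_true_of_mem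
    intro a _
    exact Nat.modEq_one
  rw [e] at h
  simpa using h

lemma card_pf_le (n : ℕ) (hn : n ≠ 0) : n.primeFactors.card ≤ Nat.log 2 n := by
  have h1 : 2 ^ n.primeFactors.card ≤ n := by
    calc 2 ^ n.primeFactors.card = ∏ _p ∈ n.primeFactors, 2 := by rw [prod_const]
      _ ≤ ∏ p ∈ n.primeFactors, p := prod_le_prod' (fun p hp => (Nat.prime_of_mem_primeFactors hp).two_le)
      _ ≤ n := Nat.le_of_dvd (Nat.pos_of_ne_zero hn) (Nat.prod_primeFactors_dvd n)
  exact Nat.le_log_of_pow_le (by norm_num) h1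

lemma sum_three_half (w z : ℕ) (hw : 1 ≤ w) : ∑ n ∈ Ioc w z, 1 / ((n : ℝ) * Real.sqrt n) ≤ 2 / Real.sqrt w := by
  rcases le_or_gt z w with h | h
  · rw [Ioc_eq_empty (by omega)]
    simp only [sum_empty]
    positivity
  have h2 : ∀ z : ℕ, w ≤ z → ∑ n ∈ Ioc w z, 1 / ((n : ℝ) * Real.sqrt n) ≤ 2 / Real.sqrt w - 2 / Real.sqrt z := by
    intro z hz
    induction z, hz using Nat.le_induction with
    | base => simp
    | succ z hz ih =>
      rw [show Ioc w (z + 1) = insert (z + 1) (Ioc w z) by ext x; simp only [mem_Ioc, mem_insert]; omega,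
        sum_insert (by simp)]
      have hz0 : (0 : ℝ) < z := by exact_mod_cast (by omega : 0 < z)
      have hz1 : (0 : ℝ) < ((z + 1 : ℕ) : ℝ) := by positivity
      have ea : (Real.sqrt z) ^ 2 = z := Real.sq_sqrt hz0.le
      have eb : (Real.sqrt ((z + 1 : ℕ) : ℝ)) ^ 2 = z + 1 := by rw [Real.sq_sqrt hz1.le]; push_cast; ring
      have pa : 0 < Real.sqrt z := Real.sqrt_pos.2 hz0
      have pb : 0 < Real.sqrt ((z + 1 : ℕ) : ℝ) := Real.sqrt_pos.2 hz1
      have hab : Real.sqrt z ≤ Real.sqrt ((z + 1 : ℕ) : ℝ) := Real.sqrt_le_sqrt (by push_cast; linarith)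
      have h3 : 1 / (((z + 1 : ℕ) : ℝ) * Real.sqrt ((z + 1 : ℕ) : ℝ)) ≤ 2 / Real.sqrt z - 2 / Real.sqrt ((z + 1 : ℕ) : ℝ) := by
        set a := Real.sqrt z
        set b := Real.sqrt ((z + 1 : ℕ) : ℝ)
        have e1 : ((z + 1 : ℕ) : ℝ) = b ^ 2 := by rw [eb]; push_cast; ring
        rw [e1, div_sub_div _ _ pa.ne' pb.ne', div_le_div_iff₀ (by positivity) (by positivity)]
        have e2 : b ^ 2 = a ^ 2 + 1 := by rw [ea, eb]
        -- a b ≤ (2 b - a 2) b^3,  (b - a)(b + a) = 1
        have e3 : (b - a) * (b + a) = 1 := by ring_nf; rw [e2]; ring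
        have e4 : a ≤ (2 * b - a * 2) * b ^ 2 := by
          have e5 : (b - a) * (2 * b) ≥ 1 := by nlinarith
          have e6 : b * a ≤ b ^ 2 := by nlinarith
          nlinarith
        nlinarith
      linarith
  have h3 := h2 z h.le
  have h4 : (0 : ℝ) ≤ 2 / Real.sqrt z := by positivity
  linarith


/-- the sum over the bad primes of one pair -/
lemma bad_sum (j w y a b : ℕ) (ha : a ∈ PJ j) (hb : b ∈ PJ j) (hab : a ≠ b) :
    ∑ l ∈ (mid w y).filter (fun l => Bad a b l), 1 / Real.sqrt l ≤
      (∑ l ∈ (mid w (2 ^ (j / 2))), (1 / Real.sqrt l) * ((if l ∣ a + b then 1 else 0) + (if a ≡ b [MOD l] then 1 else 0))) +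
      (4 * j + 5) / Real.sqrt ((2 ^ (j / 2) : ℕ) : ℝ) := by
  classical
  set T := 2 ^ (j / 2) with hT
  have hTj : T ≤ 2 ^ j := Nat.pow_le_pow_right (by norm_num) (Nat.div_le_self j 2)
  rw [mem_PJ] at ha hb
  rw [← sum_filter_add_sum_filter_not _ (fun l => l ≤ T)]
  apply add_le_add
  · -- small primes
    calc ∑ l ∈ ((mid w y).filter (fun l => Bad a b l)).filter (fun l => l ≤ T), 1 / Real.sqrt l
        ≤ ∑ l ∈ ((mid w y).filter (fun l => Bad a b l)).filter (fun l => l ≤ T), (1 / Real.sqrt l) * ((if l ∣ a + b then 1 else 0) + (if a ≡ b [MOD l] then 1 else 0)) := by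
          apply sum_le_sum
          intro l hl
          rw [mem_filter, mem_filter, mem_mid] at hl
          obtain ⟨⟨⟨hlp, hl1, hl2⟩, hbad⟩, hlT⟩ := hl
          have hn1 : ¬ l ∣ a := by
            intro h
            rcases (Nat.dvd_prime ha.1).1 h with h1 | h1
            · exact hlp.one_lt.ne' h1
            · omega
          have hn2 : ¬ l ∣ b := by
            intro h
            rcases (Nat.dvd_prime hb.1).1 h with h1 | h1
            · exact hlp.one_lt.ne' h1
            · omega
          have h0 : (0 : ℝ) ≤ 1 / Real.sqrt l := by positivity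
          have h1 : (1 : ℝ) ≤ (if l ∣ a + b then 1 else 0) + (if a ≡ b [MOD l] then 1 else 0) := by
            rcases hbad with h | h | h | h
            · exact absurd h hn1
            · exact absurd h hn2
            · rw [if_pos h]
              split_ifs <;> norm_num
            · rw [if_pos h]
              split_ifs <;> norm_num
          nlinarith
      _ ≤ _ := by
          apply sum_le_sum_of_subset_of_nonneg
          · intro l hl
            rw [mem_filter, mem_filter, mem_mid] at hl
            rw [mem_mid]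
            exact ⟨hl.1.1.1, hl.1.1.2.1, hl.2⟩
          · intro l _ _
            apply mul_nonneg (by positivity)
            split_ifs <;> norm_num
  · -- large primes
    set d := (a - b) + (b - a) with hd
    set n := a * b * (a + b) * d with hn
    have hd0 : d ≠ 0 := by omega
    have hapos := ha.1.pos
    have hbpos := hb.1.pos
    have hn0 : n ≠ 0 := by
      rw [hn]
      have : 0 < a * b * (a + b) * d := by
        apply Nat.mul_pos (Nat.mul_pos (Nat.mul_pos hapos hbpos) (by omega)) (by omega)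
      omega
    have hcard : (((mid w y).filter (fun l => Bad a b l)).filter (fun l => ¬ l ≤ T)).card ≤ 4 * j + 5 := by
      have h1 : ((mid w y).filter (fun l => Bad a b l)).filter (fun l => ¬ l ≤ T) ⊆ n.primeFactors := by
        intro l hl
        rw [mem_filter, mem_filter, mem_mid] at hl
        obtain ⟨⟨⟨hlp, hl1, hl2⟩, hbad⟩, hlT⟩ := hl
        rw [Nat.mem_primeFactors]
        refine ⟨hlp, ?_, hn0⟩
        rw [hn]
        rcases hbad with h | h | h | h
        · exact ((h.mul_right b).mul_right (a + b)).mul_right d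
        · exact ((h.mul_left a).mul_right (a + b)).mul_right d
        · exact (h.mul_left (a * b)).mul_right d
        · apply Dvd.dvd.mul_left
          rcases le_total a b with h1 | h1
          · have h2 := (Nat.modEq_iff_dvd' h1).1 h
            rw [hd, Nat.sub_eq_zero_of_le h1, zero_add]
            exact h2
          · have h2 := (Nat.modEq_iff_dvd' h1).1 h.symm
            rw [hd, Nat.sub_eq_zero_of_le h1, add_zero]
            exact h2
      refine (card_le_card h1).trans ((card_pf_le n hn0).trans ?_)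
      have h2 : n ≤ 2 ^ (4 * j + 5) := by
        have e1 : a ≤ 2 ^ (j + 1) := ha.2.2
        have e2 : b ≤ 2 ^ (j + 1) := hb.2.2
        have e3 : a + b ≤ 2 ^ (j + 2) := by
          have : 2 ^ (j + 2) = 2 * 2 ^ (j + 1) := by ring
          omega
        have e4 : d ≤ 2 ^ (j + 1) := by omega
        calc n ≤ 2 ^ (j + 1) * 2 ^ (j + 1) * 2 ^ (j + 2) * 2 ^ (j + 1) := by
              rw [hn]
              exact Nat.mul_le_mul (Nat.mul_le_mul (Nat.mul_le_mul e1 e2) e3) e4
          _ = 2 ^ (4 * j + 5) := by ring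
      calc Nat.log 2 n ≤ Nat.log 2 (2 ^ (4 * j + 5)) := Nat.log_mono_right h2
        _ = 4 * j + 5 := Nat.log_pow (by norm_num) _
    have hT0 : (0 : ℝ) < ((T : ℕ) : ℝ) := by rw [hT]; positivity
    calc ∑ l ∈ ((mid w y).filter (fun l => Bad a b l)).filter (fun l => ¬ l ≤ T), 1 / Real.sqrt l
        ≤ ∑ _l ∈ ((mid w y).filter (fun l => Bad a b l)).filter (fun l => ¬ l ≤ T), 1 / Real.sqrt (T : ℝ) := by
          apply sum_le_sum
          intro l hl
          rw [mem_filter] at hl
          have h1 : T ≤ l := by omega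
          apply one_div_le_one_div_of_le (Real.sqrt_pos.2 hT0)
          apply Real.sqrt_le_sqrt
          exact_mod_cast h1
      _ = ((((mid w y).filter (fun l => Bad a b l)).filter (fun l => ¬ l ≤ T)).card : ℝ) * (1 / Real.sqrt (T : ℝ)) := by
          rw [sum_const, nsmul_eq_mul]
      _ ≤ (4 * j + 5) * (1 / Real.sqrt (T : ℝ)) := by
          apply mul_le_mul_of_nonneg_right _ (by positivity)
          exact_mod_cast hcard
      _ = _ := by ring

theorem avg : ∃ C : ℝ, 0 < C ∧ ∀ j : ℕ, 2 ≤ j → ∀ w y : ℕ, 4 ≤ w →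
    ∑ a ∈ PJ j, ∑ b ∈ (PJ j).filter (fun b => a ≠ b), (Real.exp (hS a b w y) - 1) ≤
      C * (2 ^ j / j) ^ 2 * (1 / Real.sqrt w + (4 * j + 5) / Real.sqrt ((2 ^ (j / 2) : ℕ) : ℝ)) := by
  classical
  obtain ⟨C1, hC1, h1⟩ := exp_sum_le
  obtain ⟨C2, hC2, h2⟩ := bt1
  obtain ⟨C3, hC3, h3⟩ := PJ_card
  refine ⟨C1 * (4 * C2 * C3 + C3 ^ 2), by positivity, fun j hj w y hw => ?_⟩
  set T := 2 ^ (j / 2) with hT
  have hjr : (2 : ℝ) ≤ j := by exact_mod_cast hj
  have hj0 : (0 : ℝ) < j := by linarith
  have hTT : T * T ≤ 2 ^ j := by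
    rw [hT, ← pow_add]
    apply Nat.pow_le_pow_right (by norm_num)
    omega
  have hT0 : (0 : ℝ) < (T : ℝ) := by rw [hT]; positivity
  set E : ℝ := (4 * j + 5) / Real.sqrt (T : ℝ) with hE
  have hE0 : 0 ≤ E := by positivity
  have hcard := h3 j hj
  -- one pair
  have hone : ∀ a ∈ PJ j, ∀ b ∈ (PJ j).filter (fun b => a ≠ b), Real.exp (hS a b w y) - 1 ≤
      C1 * ((∑ l ∈ (mid w T), (1 / Real.sqrt l) * ((if l ∣ a + b then 1 else 0) + (if a ≡ b [MOD l] then 1 else 0))) + E) := by
    intro a ha b hb
    rw [mem_filter] at hb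
    have g1 := h1 ((mid w y).filter (fun l => Bad a b l)) (fun p hp => (mem_mid.1 (mem_filter.1 hp).1).1)
    refine g1.trans (mul_le_mul_of_nonneg_left ?_ hC1.le)
    exact bad_sum j w y a b ha hb.1 hb.2
  have hnn : ∀ a b l : ℕ, (0 : ℝ) ≤ (if l ∣ a + b then 1 else 0) + (if a ≡ b [MOD l] then 1 else 0) := by
    intro a b l
    split_ifs <;> norm_num
  calc ∑ a ∈ PJ j, ∑ b ∈ (PJ j).filter (fun b => a ≠ b), (Real.exp (hS a b w y) - 1)
      ≤ ∑ a ∈ PJ j, ∑ b ∈ (PJ j).filter (fun b => a ≠ b), C1 * ((∑ l ∈ (mid w T), (1 / Real.sqrt l) * ((if l ∣ a + b then 1 else 0) + (if a ≡ b [MOD l] then 1 else 0))) + E) :=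
        sum_le_sum fun a ha => sum_le_sum fun b hb => hone a ha b hb
    _ ≤ ∑ a ∈ PJ j, ∑ b ∈ PJ j, C1 * ((∑ l ∈ (mid w T), (1 / Real.sqrt l) * ((if l ∣ a + b then 1 else 0) + (if a ≡ b [MOD l] then 1 else 0))) + E) := by
        apply sum_le_sum
        intro a _
        apply sum_le_sum_of_subset_of_nonneg (filter_subset _ _)
        intro b _ _
        apply mul_nonneg hC1.le
        apply add_nonneg _ hE0
        apply sum_nonneg
        intro l _
        exact mul_nonneg (by positivity) (hnn a b l)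
    _ = C1 * ((∑ l ∈ mid w T, (1 / Real.sqrt l) * ∑ b ∈ PJ j, ∑ a ∈ PJ j, (((if l ∣ a + b then 1 else 0) + (if a ≡ b [MOD l] then 1 else 0)) : ℝ)) + (PJ j).card * (PJ j).card * E) := by
        simp only [← mul_sum, sum_add_distrib, sum_const, nsmul_eq_mul]
        congr 1
        congr 1
        · rw [sum_comm]
          simp only [sum_comm (s := PJ j) (t := mid w T)]
          apply sum_congr rfl
          intro l _
          rw [← sum_add_distrib, mul_sum]
          apply sum_congr rfl
          intro b _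
          rw [← sum_add_distrib, mul_sum]
        · ring
    _ ≤ C1 * ((∑ l ∈ mid w T, (1 / Real.sqrt l) * ((PJ j).card * (2 * (C2 * 2 ^ j / (l * j))))) + (C3 * 2 ^ j / j) * (C3 * 2 ^ j / j) * E) := by
        apply mul_le_mul_of_nonneg_left _ hC1.le
        apply add_le_add
        · apply sum_le_sum
          intro l hl
          apply mul_le_mul_of_nonneg_left _ (by positivity)
          rw [← nsmul_eq_mul, ← sum_const]
          apply sum_le_sum
          intro b _
          obtain ⟨hlp, hl1, hl2⟩ := mem_mid.1 hl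
          have hll : l * l ≤ 2 ^ j := (Nat.mul_le_mul hl2 hl2).trans hTT
          rw [sum_add_distrib]
          have k1 := h2 j hj l (Or.inr hlp) hll b
          have k2 := h2 j hj l (Or.inr hlp) hll (l * b - b)
          have e1 : ∑ a ∈ PJ j, (if a ≡ b [MOD l] then (1 : ℝ) else 0) = (((PJ j).filter (fun a => a ≡ b [MOD l])).card : ℝ) := by
            rw [card_filter]; push_cast; rfl
          have e2 : ∑ a ∈ PJ j, (if l ∣ a + b then (1 : ℝ) else 0) = (((PJ j).filter (fun a => a ≡ l * b - b [MOD l])).card : ℝ) := by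
            rw [card_filter]; push_cast
            apply sum_congr rfl
            intro a _
            have hbl : b ≤ l * b := Nat.le_mul_of_pos_left b hlp.pos
            have : (l ∣ a + b) ↔ (a ≡ l * b - b [MOD l]) := by
              constructor
              · intro h
                apply Nat.ModEq.add_right_cancel' b
                rw [Nat.sub_add_cancel hbl]
                exact ((Nat.modEq_zero_iff_dvd.2 h).trans (Nat.modEq_zero_iff_dvd.2 (dvd_mul_right l b)).symm)
              · intro h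
                have h5 := Nat.ModEq.add_right b h
                rw [Nat.sub_add_cancel hbl] at h5
                exact Nat.modEq_zero_iff_dvd.1 (h5.trans (Nat.modEq_zero_iff_dvd.2 (dvd_mul_right l b)))
            simp only [this]
          rw [e1, e2]
          linarith
        · apply mul_le_mul_of_nonneg_right _ hE0
          apply mul_le_mul hcard hcard (Nat.cast_nonneg _) (by positivity)
    _ ≤ C1 * ((C3 * 2 ^ j / j) * (2 * C2 * (2 ^ j / j)) * (2 / Real.sqrt w) + (C3 * 2 ^ j / j) * (C3 * 2 ^ j / j) * E) := by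
        apply mul_le_mul_of_nonneg_left _ hC1.le
        apply add_le_add _ le_rfl
        have e : ∑ l ∈ mid w T, (1 / Real.sqrt l) * ((PJ j).card * (2 * (C2 * 2 ^ j / (l * j)))) =
            ((PJ j).card * (2 * C2 * (2 ^ j / j))) * ∑ l ∈ mid w T, 1 / ((l : ℝ) * Real.sqrt l) := by
          rw [mul_sum]
          apply sum_congr rfl
          intro l hl
          have hlp := (mem_mid.1 hl).1
          have hl0 : (0 : ℝ) < l := by exact_mod_cast hlp.pos
          have hs0 : 0 < Real.sqrt l := Real.sqrt_pos.2 hl0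
          field_simp
        rw [e]
        have k1 : ∑ l ∈ mid w T, 1 / ((l : ℝ) * Real.sqrt l) ≤ 2 / Real.sqrt w := by
          refine le_trans ?_ (sum_three_half w T (by omega))
          apply sum_le_sum_of_subset_of_nonneg
          · intro l hl
            rw [mem_mid] at hl
            rw [mem_Ioc]
            exact hl.2
          · intro _ _ _; positivity
        apply mul_le_mul _ k1 (sum_nonneg fun _ _ => by positivity) (by positivity)
        apply mul_le_mul_of_nonneg_right hcard (by positivity)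
    _ ≤ C1 * (4 * C2 * C3 + C3 ^ 2) * (2 ^ j / j) ^ 2 * (1 / Real.sqrt w + E) := by
        have e : C1 * ((C3 * 2 ^ j / j) * (2 * C2 * (2 ^ j / j)) * (2 / Real.sqrt w) + (C3 * 2 ^ j / j) * (C3 * 2 ^ j / j) * E) =
          C1 * (2 ^ j / j) ^ 2 * (4 * C2 * C3 * (1 / Real.sqrt w) + C3 ^ 2 * E) := by ring
        rw [e]
        have k1 : 0 ≤ 1 / Real.sqrt (w : ℝ) := by positivity
        have k2 : 4 * C2 * C3 * (1 / Real.sqrt w) + C3 ^ 2 * E ≤ (4 * C2 * C3 + C3 ^ 2) * (1 / Real.sqrt w + E) := by
          have a1 : 0 ≤ C2 * C3 * E := by positivity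
          have a2 : 0 ≤ C3 ^ 2 * (1 / Real.sqrt w) := by positivity
          linarith
        calc C1 * (2 ^ j / j) ^ 2 * (4 * C2 * C3 * (1 / Real.sqrt w) + C3 ^ 2 * E)
            ≤ C1 * (2 ^ j / j) ^ 2 * ((4 * C2 * C3 + C3 ^ 2) * (1 / Real.sqrt w + E)) :=
              mul_le_mul_of_nonneg_left k2 (by positivity)
          _ = _ := by ring

end Pool.Agent.H31.MF
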