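import Pool.Graph.R_seed8.Helper923.PPS.BT
import Pool.Graph.R_seed8.Helper923.HMertens
import Pool.Graph.R_seed8.Helper601.HKa14
import Pool.Graph.R_pool_sql_team_seeded_64922ed1.X55.Pal.Sv

set_option autoImplicit false

/-! # The fundamental lemma for intervals, with a relative error -/

namespace Pool.Agent.H31.MF

open Finset Filter Topology Pool.Agent.H373R2.T7

/-- periodic conditions with at most four classes, not containing the zero class -/
structure Adm (Q : ℕ → ℕ → Prop) : Prop where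
  per : PerB Q 4
  zero : ∀ p, p.Prime → ¬ Q p 0

/-- the product -/
noncomputable def Prd (Q : ℕ → ℕ → Prop) (y : ℕ) : ℝ := ∏ p ∈ pz y, (1 - (nuB Q p : ℝ) / p)

open Classical in
/-- the number of the `m ≤ M` which avoid all the classes -/
noncomputable def cnt (Q : ℕ → ℕ → Prop) (y M : ℕ) : ℕ := ((Icc 1 M).filter (fun n => ∀ p ∈ pz y, ¬ Q p n)).card

lemma nuB_lt {Q : ℕ → ℕ → Prop} (h : Adm Q) (p : ℕ) (hp : p.Prime) : nuB Q p + 1 ≤ p := by
  classical
  unfold nuB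
  have : (range p).filter (fun r => Q p r) ⊆ (range p).erase 0 := by
    intro r hr
    rw [mem_filter] at hr
    rw [mem_erase]
    refine ⟨?_, hr.1⟩
    rintro rfl
    exact h.zero p hp hr.2
  have h1 := card_le_card this
  rw [card_erase_of_mem (mem_range.2 hp.pos), card_range] at h1
  have := hp.pos
  omega

lemma fac_bounds {Q : ℕ → ℕ → Prop} (h : Adm Q) (p : ℕ) (hp : p.Prime) :
    0 < 1 - (nuB Q p : ℝ) / p ∧ 1 - (nuB Q p : ℝ) / p ≤ 1 ∧ 1 / (p : ℝ) ≤ 1 - (nuB Q p : ℝ) / p ∧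
      1 - 4 / (p : ℝ) ≤ 1 - (nuB Q p : ℝ) / p := by
  have hp0 : (0 : ℝ) < p := by exact_mod_cast hp.pos
  have h1 : (nuB Q p : ℝ) + 1 ≤ p := by exact_mod_cast nuB_lt h p hp
  have h2 : (nuB Q p : ℝ) ≤ 4 := by exact_mod_cast h.per.few p hp
  have h3 : 1 / (p : ℝ) ≤ 1 - (nuB Q p : ℝ) / p := by
    rw [div_le_iff₀ hp0, sub_mul, div_mul_cancel₀ _ hp0.ne']
    linarith
  refine ⟨lt_of_lt_of_le (by positivity) h3, ?_, h3, ?_⟩
  · have : 0 ≤ (nuB Q p : ℝ) / p := by positivity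
    linarith
  · have : (nuB Q p : ℝ) / p ≤ 4 / p := div_le_div_of_nonneg_right h2 hp0.le
    linarith

lemma Prd_pos {Q : ℕ → ℕ → Prop} (h : Adm Q) (y : ℕ) : 0 < Prd Q y :=
  prod_pos fun p hp => (fac_bounds h p (mem_pz.1 hp).2).1

lemma Prd_le_one {Q : ℕ → ℕ → Prop} (h : Adm Q) (y : ℕ) : Prd Q y ≤ 1 :=
  prod_le_one (fun p hp => (fac_bounds h p (mem_pz.1 hp).2).1.le) (fun p hp => (fac_bounds h p (mem_pz.1 hp).2).2.1)

/-- the trivial lower bound of the product -/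
lemma Prd_low {Q : ℕ → ℕ → Prop} (h : Adm Q) (y : ℕ) (hy : 1 ≤ y) : 1 / (y : ℝ) ^ 8 ≤ Prd Q y := by
  classical
  -- product over all integers
  have key : ∀ y : ℕ, 1 ≤ y → 1 / (y : ℝ) ^ 8 ≤ ∏ n ∈ Icc 1 y, (if n.Prime then (1 - (nuB Q n : ℝ) / n) else 1) := by
    intro y hy
    induction y, hy using Nat.le_induction with
    | base =>
      simp only [Nat.cast_one, one_pow, Icc_self, prod_singleton]
      rw [if_neg (by norm_num)]
      norm_num
    | succ n hn ih =>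
      rw [show Icc 1 (n + 1) = insert (n + 1) (Icc 1 n) by
        ext x; simp only [mem_Icc, mem_insert]; omega, prod_insert (by simp)]
      have hnr : (1 : ℝ) ≤ n := by exact_mod_cast hn
      have hn0 : (0 : ℝ) < n := by linarith
      have h5 : 1 / (((n + 1 : ℕ) : ℝ) ^ 8) ≤ 1 / ((n : ℝ) ^ 8) := by
        apply one_div_le_one_div_of_le (by positivity)
        push_cast
        gcongr
        linarith
      split_ifs with hp
      · obtain ⟨h1, h2, h3, h4⟩ := fac_bounds h (n + 1) hp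
        rcases Nat.lt_or_ge n 6 with h6 | h6
        · -- small: the factor is at least `1 / (n + 1)`
          have h7 : 1 / (((n + 1 : ℕ) : ℝ) ^ 8) ≤ (1 / ((n + 1 : ℕ) : ℝ)) * (1 / ((n : ℝ) ^ 8)) := by
            rw [one_div_mul_one_div]
            apply one_div_le_one_div_of_le (by positivity)
            interval_cases n <;> first | (norm_num; done) | (exfalso; revert hp; norm_num)
          refine h7.trans ?_
          apply mul_le_mul h3 ih (by positivity) h1.le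
        · have h7 : 1 / (((n + 1 : ℕ) : ℝ) ^ 8) ≤ (1 - 4 / ((n + 1 : ℕ) : ℝ)) * (1 / ((n : ℝ) ^ 8)) := by
            have h6r : (6 : ℝ) ≤ n := by exact_mod_cast h6
            push_cast
            have e1 : (1 - 4 / ((n : ℝ) + 1)) = ((n : ℝ) - 3) / (n + 1) := by field_simp; ring
            rw [e1, div_mul_div_comm, div_le_div_iff₀ (by positivity) (by positivity)]
            obtain ⟨t, ht⟩ : ∃ t : ℝ, t = n - 6 := ⟨_, rfl⟩
            have ht0 : 0 ≤ t := by rw [ht]; linarith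
            have e2 : (n : ℝ) = t + 6 := by rw [ht]; ring
            rw [e2]
            have e3 : (t + 6 - 3) * 1 * (t + 6 + 1) ^ 8 - 1 * ((t + 6 + 1) * (t + 6) ^ 8) =
              (t + 7) * (791013 + 1054684 * t + 576016 * t ^ 2 + 169596 * t ^ 3 + 29330 * t ^ 4 + 2996 * t ^ 5 +
                168 * t ^ 6 + 4 * t ^ 7) := by ring
            have e4 : 0 ≤ (t + 7) * (791013 + 1054684 * t + 576016 * t ^ 2 + 169596 * t ^ 3 + 29330 * t ^ 4 + 2996 * t ^ 5 +
                168 * t ^ 6 + 4 * t ^ 7) := by positivity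
            linarith
          refine h7.trans ?_
          apply mul_le_mul h4 ih (by positivity) h1.le
      · rw [one_mul]
        exact h5.trans ih
  refine (key y hy).trans (le_of_eq ?_)
  unfold Prd pz
  rw [prod_filter]

lemma four_pow_le (d : ℕ) (hd : 1 ≤ d) : (4 : ℝ) ^ d.primeFactors.card ≤ (d : ℝ) ^ 2 := by
  have h1 : 2 ^ d.primeFactors.card ≤ d.divisors.card := by
    have h2 : d.primeFactors.powerset.card ≤ d.divisors.card := by
      apply card_le_card_of_injOn (fun T => ∏ p ∈ T, p)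
      · intro T hT
        rw [mem_coe, mem_powerset] at hT
        rw [mem_coe, Nat.mem_divisors]
        refine ⟨(prod_dvd_prod_of_subset _ _ _ hT).trans (Nat.prod_primeFactors_dvd d), by omega⟩
      · intro T hT T' hT' he
        rw [mem_coe, mem_powerset] at hT hT'
        have h2 := Nat.primeFactors_prod (fun p hp => Nat.prime_of_mem_primeFactors (hT hp))
        have h3 := Nat.primeFactors_prod (fun p hp => Nat.prime_of_mem_primeFactors (hT' hp))
        rw [← h2, ← h3]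
        exact congrArg Nat.primeFactors he
    rwa [card_powerset] at h2
  have h3 : (2 : ℝ) ^ d.primeFactors.card ≤ d := by
    exact_mod_cast h1.trans (Nat.card_divisors_le_self d)
  calc (4 : ℝ) ^ d.primeFactors.card = ((2 : ℝ) ^ d.primeFactors.card) ^ 2 := by
        rw [← pow_mul, mul_comm, pow_mul]; norm_num
    _ ≤ (d : ℝ) ^ 2 := pow_le_pow_left₀ (by positivity) h3 2

lemma cnt_mod (M d r : ℕ) (hd : 1 ≤ d) :
    |(((Icc 1 M).filter (fun n => n ≡ r [MOD d])).card : ℝ) - (M : ℝ) / d| ≤ 1 := by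
  have h := Pool.Agent.Helper601.HK.count_two_class 0 M d r hd
  rw [zero_add] at h
  exact h

/-- **The fundamental lemma for intervals**, with a relative error, for all `M ≥ N ^ (1 / 4)` -/
theorem fl (ε : ℝ) (hε : 0 < ε) : ∃ r : ℕ, 1 ≤ r ∧ ∀ᶠ N : ℕ in atTop, ∀ y : ℕ, 2 ≤ y → y ^ r ≤ N →
    ∀ Q : ℕ → ℕ → Prop, Adm Q → ∀ M : ℕ, N ≤ M ^ 4 →
      |(cnt Q y M : ℝ) - M * Prd Q y| ≤ ε * (M * Prd Q y) := by
  classical
  obtain ⟨K, K0, hK, hK0, hg⟩ := Pool.Agent.X55.Pal.gen 4 (by norm_num) (ε / 2) (by positivity)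
  obtain ⟨C, hC⟩ := exists_nat_ge (4 * (K0 : ℝ) ^ 4 / ε)
  refine ⟨8 * (3 * K + 9), by omega, ?_⟩
  filter_upwards [eventually_ge_atTop (C ^ 8)] with N hN y hy hyN Q hQ M hM
  have h1 := hg 1 y hy (Icc 1 M) M (fun _ => 1) (Nat.cast_nonneg _) (fun _ => zero_le_one)
    (fun d hd _ _ r => cnt_mod M d r hd) Q hQ.per
  have e1 : (Icc 1 M).filter (fun n => ∀ p ∈ pz y, ¬ p ∣ 1 → ¬ Q p n) = (Icc 1 M).filter (fun n => ∀ p ∈ pz y, ¬ Q p n) := by
    apply filter_congr
    intro n _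
    constructor
    · intro h p hp
      exact h p hp (fun h1 => (mem_pz.1 hp).2.one_lt.ne' (Nat.dvd_one.1 h1))
    · intro h p hp _
      exact h p hp
  have e2 : (pz y).filter (fun p => ¬ p ∣ 1) = pz y := by
    apply filter_true_of_mem
    intro p hp h1
    exact (mem_pz.1 hp).2.one_lt.ne' (Nat.dvd_one.1 h1)
  rw [e1, e2] at h1
  have hPr := Prd_low hQ y (by omega)
  have hPr0 := Prd_pos hQ y
  unfold cnt
  unfold Prd at hPr hPr0 ⊢
  refine h1.trans ?_
  have hy0 : (0 : ℝ) < y := by exact_mod_cast (by omega : 0 < y)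
  have hyr : (2 : ℝ) ≤ y := by exact_mod_cast hy
  have hK0r : (1 : ℝ) ≤ K0 := by exact_mod_cast hK0
  -- the error
  have h2 : ((JJ y : ℝ) + 2) ≤ 2 * y := by
    rcases Nat.lt_or_ge y 3 with h | h
    · have : y = 2 := by omega
      subst this
      have : JJ 2 = 1 := by unfold JJ; norm_num
      rw [this]; norm_num
    · exact_mod_cast JJ_small y h
  have h3 : ∑ d ∈ (Icc 1 (K0 * y ^ K)).filter (fun d => d.Coprime 1), ((4 : ℕ) : ℝ) ^ d.primeFactors.card * (1 : ℝ) ≤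
      ((K0 : ℝ) * y ^ K) ^ 3 := by
    calc ∑ d ∈ (Icc 1 (K0 * y ^ K)).filter (fun d => d.Coprime 1), ((4 : ℕ) : ℝ) ^ d.primeFactors.card * (1 : ℝ)
        ≤ ∑ d ∈ (Icc 1 (K0 * y ^ K)), ((4 : ℕ) : ℝ) ^ d.primeFactors.card * (1 : ℝ) :=
          sum_le_sum_of_subset_of_nonneg (filter_subset _ _) (fun _ _ _ => by positivity)
      _ ≤ ∑ d ∈ (Icc 1 (K0 * y ^ K)), ((K0 : ℝ) * y ^ K) ^ 2 := by
          apply sum_le_sum
          intro d hd
          rw [mem_Icc] at hd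
          have h4 := four_pow_le d hd.1
          have h5 : (d : ℝ) ≤ (K0 : ℝ) * y ^ K := by exact_mod_cast hd.2
          rw [mul_one]
          push_cast
          exact h4.trans (pow_le_pow_left₀ (Nat.cast_nonneg _) h5 2)
      _ = ((K0 : ℝ) * y ^ K) ^ 3 := by
          rw [sum_const, Nat.card_Icc, nsmul_eq_mul, Nat.add_sub_cancel]
          push_cast
          ring
  have h4 : ((JJ y : ℝ) + 2) * ((K0 : ℝ) * ∑ d ∈ (Icc 1 (K0 * y ^ K)).filter (fun d => d.Coprime 1), ((4 : ℕ) : ℝ) ^ d.primeFactors.card * (1 : ℝ)) ≤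
      2 * (K0 : ℝ) ^ 4 * (y : ℝ) ^ (3 * K + 1) := by
    calc _ ≤ (2 * (y : ℝ)) * ((K0 : ℝ) * ((K0 : ℝ) * y ^ K) ^ 3) := by
          apply mul_le_mul h2 _ (by positivity) (by positivity)
          exact mul_le_mul_of_nonneg_left h3 (by positivity)
      _ = _ := by ring
  have h5 : (C : ℝ) * (y : ℝ) ^ (3 * K + 9) ≤ M := by
    have h6 : (C * y ^ (3 * K + 9)) ^ 8 ≤ M ^ 8 := by
      calc (C * y ^ (3 * K + 9)) ^ 8 = C ^ 8 * y ^ (8 * (3 * K + 9)) := by rw [mul_pow, ← pow_mul, mul_comm (3 * K + 9) 8]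
        _ ≤ N * N := Nat.mul_le_mul hN hyN
        _ ≤ M ^ 4 * M ^ 4 := Nat.mul_le_mul hM hM
        _ = M ^ 8 := by ring
    have h7 : C * y ^ (3 * K + 9) ≤ M := by
      by_contra h
      push Not at h
      have := Nat.pow_lt_pow_left h (show 8 ≠ 0 by norm_num)
      omega
    exact_mod_cast h7
  have h6 : 2 * (K0 : ℝ) ^ 4 * (y : ℝ) ^ (3 * K + 1) ≤ ε / 2 * (M * ∏ p ∈ pz y, (1 - (nuB Q p : ℝ) / p)) := by
    have h7 : 4 * (K0 : ℝ) ^ 4 ≤ C * ε := by
      rwa [div_le_iff₀ hε] at hC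
    have h8 : (C : ℝ) * (y : ℝ) ^ (3 * K + 1) ≤ M * ∏ p ∈ pz y, (1 - (nuB Q p : ℝ) / p) := by
      calc (C : ℝ) * (y : ℝ) ^ (3 * K + 1) = (C * (y : ℝ) ^ (3 * K + 9)) * (1 / (y : ℝ) ^ 8) := by
            have e3 : (y : ℝ) ^ (3 * K + 9) = (y : ℝ) ^ (3 * K + 1) * (y : ℝ) ^ 8 := by rw [← pow_add]
            rw [e3]
            field_simp
        _ ≤ _ := mul_le_mul h5 hPr (by positivity) (Nat.cast_nonneg _)
    calc 2 * (K0 : ℝ) ^ 4 * (y : ℝ) ^ (3 * K + 1) = (1 / 2) * (4 * (K0 : ℝ) ^ 4) * (y : ℝ) ^ (3 * K + 1) := by ring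
      _ ≤ (1 / 2) * (C * ε) * (y : ℝ) ^ (3 * K + 1) := by gcongr
      _ = ε / 2 * (C * (y : ℝ) ^ (3 * K + 1)) := by ring
      _ ≤ _ := mul_le_mul_of_nonneg_left h8 (by positivity)
  push_cast at h4 h6 ⊢
  linarith

end Pool.Agent.H31.MF
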