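import Pool.Agent.H31.MF.Avg

set_option autoImplicit false

/-! # The bilinear estimate for one dyadic block of primes -/

namespace Pool.Agent.H31.MF

open Finset Filter Topology Pool.Agent.H373R2.T7

/-- the fundamental lemma holds for `y` with the relative error `ε` for all `M ≥ N ^ (1 / 4)` -/
def FL (N y : ℕ) (ε : ℝ) : Prop := ∀ Q : ℕ → ℕ → Prop, Adm Q → ∀ M : ℕ, N ≤ M ^ 4 →
  |(cnt Q y M : ℝ) - M * Prd Q y| ≤ ε * (M * Prd Q y)

lemma big_quot (N a : ℕ) (hN : 16 ≤ N) (ha : 1 ≤ a) (h : a ^ 4 ≤ N) : N ≤ (N / a) ^ 4 := by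
  -- `N / a ≥ N / (2 a)`
  have h1 : a ≤ N := le_trans (by
    calc a = a ^ 1 := (pow_one a).symm
      _ ≤ a ^ 4 := Nat.pow_le_pow_right ha (by norm_num)) h
  have h2 : N ≤ 2 * a * (N / a) := by
    have h3 := Nat.div_add_mod N a
    have h4 := Nat.mod_lt N ha
    have h5 : 1 ≤ N / a := Nat.div_pos h1 ha
    have h6 : a ≤ a * (N / a) := Nat.le_mul_of_pos_right a h5
    calc N = a * (N / a) + N % a := h3.symm
      _ ≤ a * (N / a) + a * (N / a) := by omega
      _ = 2 * a * (N / a) := by ring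
  have h3 : N ^ 4 ≤ 16 * N * (N / a) ^ 4 := by
    calc N ^ 4 ≤ (2 * a * (N / a)) ^ 4 := Nat.pow_le_pow_left h2 4
      _ = 16 * a ^ 4 * (N / a) ^ 4 := by ring
      _ ≤ 16 * N * (N / a) ^ 4 := by gcongr
  have h4 : 16 * N * N ≤ 16 * N * (N / a) ^ 4 := by
    calc 16 * N * N ≤ N * N * N := by gcongr
      _ ≤ N ^ 4 := by
          have : N ^ 4 = N * N * N * N := by ring
          rw [this]
          exact Nat.le_mul_of_pos_right _ (by omega)
      _ ≤ _ := h3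
  exact Nat.le_of_mul_le_mul_left h4 (by omega)

lemma prime_filter_card (a y : ℕ) (ha : a.Prime) : ((pz y).filter (fun p => p ∣ a)).card ≤ 1 := by
  rw [card_le_one]
  intro p hp q hq
  rw [mem_filter, mem_pz] at hp hq
  have h1 := (Nat.prime_dvd_prime_iff_eq hp.1.2 ha).1 hp.2
  have h2 := (Nat.prime_dvd_prime_iff_eq hq.1.2 ha).1 hq.2
  rw [h1, h2]

lemma diag_bound (a w y N M : ℕ) (ε : ℝ) (hε1 : ε ≤ 1) (hwy : w ≤ y) (ha : a.Prime) (ha4 : 4 ≤ a)
    (h1 : FL N y ε) (h2 : FL N w ε) (hM : N ≤ M ^ 4) :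
    |∑ m ∈ Icc 1 M, ff w y (a * m) * ff w y (a * m)| ≤ 12 * M * V y := by
  have hv0 := vv_pos w y
  have hv1 := vv_le_one w y
  have e1 : ∀ m, ff w y (a * m) * ff w y (a * m) ≤ ind y (a * m) + vv w y * ind w (a * m) := by
    intro m
    have i1 := ind_sq y (a * m)
    have i2 := ind_sq w (a * m)
    have i3 : ind y (a * m) * ind w (a * m) = ind y (a * m) := by
      unfold ind
      by_cases h : Rgh y (a * m)
      · simp [h, Rgh_mono hwy h]
      · simp [h]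
    have i4 := ind_nonneg y (a * m)
    have i5 := ind_nonneg w (a * m)
    unfold ff
    have e : (ind y (a * m) - vv w y * ind w (a * m)) * (ind y (a * m) - vv w y * ind w (a * m)) =
      ind y (a * m) * ind y (a * m) - 2 * vv w y * (ind y (a * m) * ind w (a * m)) + vv w y ^ 2 * (ind w (a * m) * ind w (a * m)) := by ring
    rw [e, i1, i2, i3]
    have k1 : 0 ≤ vv w y * ind y (a * m) := by positivity
    have k2 : vv w y ^ 2 * ind w (a * m) ≤ vv w y * ind w (a * m) := by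
      apply mul_le_mul_of_nonneg_right _ i5
      nlinarith
    linarith
  have e2 : 0 ≤ ∑ m ∈ Icc 1 M, ff w y (a * m) * ff w y (a * m) := sum_nonneg fun m _ => mul_self_nonneg _
  rw [abs_of_nonneg e2]
  have hP : ∀ z : ℕ, Prd (Q1 a) z ≤ V z * 3 := by
    intro z
    have h := (prd1_bounds a z a ha4 (fun p hp hpa => by
      rw [(Nat.prime_dvd_prime_iff_eq hp ha).1 hpa]) 1 (prime_filter_card a z ha)).2
    refine h.trans (mul_le_mul_of_nonneg_left ?_ (V_pos z).le)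
    have h3 : Real.exp (4 * ((1 : ℕ) : ℝ) / a) ≤ Real.exp 1 := by
      apply Real.exp_le_exp.2
      have : (4 : ℝ) ≤ a := by exact_mod_cast ha4
      rw [div_le_one (by linarith)]
      push_cast
      linarith
    have := Real.exp_one_lt_d9
    linarith
  have f1 := (abs_le.1 (h1 _ (adm1 a) M hM)).2
  have f2 := (abs_le.1 (h2 _ (adm1 a) M hM)).2
  rw [cnt1] at f1 f2
  have hM0 : (0 : ℝ) ≤ M := Nat.cast_nonneg _
  have hPy := hP y
  have hPw := hP w
  have hPy0 := (Prd_pos (adm1 a) y).le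
  have hPw0 := (Prd_pos (adm1 a) w).le
  have g1 : ∑ m ∈ Icc 1 M, ind y (a * m) ≤ 6 * (M * V y) := by
    have : ε * (M * Prd (Q1 a) y) ≤ 1 * (M * Prd (Q1 a) y) := mul_le_mul_of_nonneg_right hε1 (by positivity)
    have h3 : M * Prd (Q1 a) y ≤ M * (V y * 3) := mul_le_mul_of_nonneg_left hPy hM0
    linarith
  have g2 : ∑ m ∈ Icc 1 M, ind w (a * m) ≤ 6 * (M * V w) := by
    have : ε * (M * Prd (Q1 a) w) ≤ 1 * (M * Prd (Q1 a) w) := mul_le_mul_of_nonneg_right hε1 (by positivity)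
    have h3 : M * Prd (Q1 a) w ≤ M * (V w * 3) := mul_le_mul_of_nonneg_left hPw hM0
    linarith
  calc ∑ m ∈ Icc 1 M, ff w y (a * m) * ff w y (a * m) ≤ ∑ m ∈ Icc 1 M, (ind y (a * m) + vv w y * ind w (a * m)) :=
        sum_le_sum fun m _ => e1 m
    _ = ∑ m ∈ Icc 1 M, ind y (a * m) + vv w y * ∑ m ∈ Icc 1 M, ind w (a * m) := by
        rw [sum_add_distrib, ← mul_sum]
    _ ≤ 6 * (M * V y) + vv w y * (6 * (M * V w)) := add_le_add g1 (mul_le_mul_of_nonneg_left g2 hv0.le)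
    _ = 12 * M * V y := by rw [V_split hwy]; ring

/-- Cauchy's inequality, and expanding the square -/
lemma cauchy_expand (P S : Finset ℕ) (N : ℕ) (g : ℕ → ℂ) (hg : ∀ n, ‖g n‖ ≤ 1) (f : ℕ → ℝ) (c : ℕ → ℂ) (hc : ∀ n, ‖c n‖ ≤ 1) :
    ‖∑ m ∈ S, c m * ∑ a ∈ P, (if a * m ≤ N then g a * (f (a * m) : ℂ) else 0)‖ ^ 2 ≤
      (S.card : ℝ) * ∑ a ∈ P, ∑ b ∈ P, |∑ m ∈ S.filter (fun m => a * m ≤ N ∧ b * m ≤ N), f (a * m) * f (b * m)| := by
  classical
  set G : ℕ → ℂ := fun m => ∑ a ∈ P, (if a * m ≤ N then g a * (f (a * m) : ℂ) else 0) with hG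
  have h1 : ‖∑ m ∈ S, c m * G m‖ ≤ ∑ m ∈ S, ‖G m‖ := by
    refine (norm_sum_le _ _).trans (sum_le_sum fun m _ => ?_)
    rw [norm_mul]
    calc ‖c m‖ * ‖G m‖ ≤ 1 * ‖G m‖ := mul_le_mul_of_nonneg_right (hc m) (norm_nonneg _)
      _ = ‖G m‖ := one_mul _
  have h2 : (∑ m ∈ S, ‖G m‖) ^ 2 ≤ (S.card : ℝ) * ∑ m ∈ S, ‖G m‖ ^ 2 := sq_sum_le_card_mul_sum_sq
  have h3 : ‖∑ m ∈ S, c m * G m‖ ^ 2 ≤ (∑ m ∈ S, ‖G m‖) ^ 2 := pow_le_pow_left₀ (norm_nonneg _) h1 2
  refine (h3.trans h2).trans (mul_le_mul_of_nonneg_left ?_ (Nat.cast_nonneg _))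
  -- expand
  have h4 : ∀ m, ((‖G m‖ ^ 2 : ℝ) : ℂ) = ∑ a ∈ P, ∑ b ∈ P, (g a * (starRingEnd ℂ) (g b)) *
      (if a * m ≤ N ∧ b * m ≤ N then ((f (a * m) * f (b * m) : ℝ) : ℂ) else 0) := by
    intro m
    rw [← Complex.normSq_eq_norm_sq, ← Complex.mul_conj, hG]
    simp only [map_sum]
    rw [sum_mul_sum]
    apply sum_congr rfl
    intro a _
    apply sum_congr rfl
    intro b _
    by_cases ha : a * m ≤ N <;> by_cases hb : b * m ≤ N
    · simp only [ha, hb, and_self, if_true, map_mul, Complex.conj_ofReal, Complex.ofReal_mul]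
      ring
    · simp [ha, hb]
    · simp [ha, hb]
    · simp [ha, hb]
  have h5 : ((∑ m ∈ S, ‖G m‖ ^ 2 : ℝ) : ℂ) = ∑ a ∈ P, ∑ b ∈ P, (g a * (starRingEnd ℂ) (g b)) *
      ((∑ m ∈ S.filter (fun m => a * m ≤ N ∧ b * m ≤ N), f (a * m) * f (b * m) : ℝ) : ℂ) := by
    rw [Complex.ofReal_sum]
    simp only [h4]
    rw [sum_comm]
    apply sum_congr rfl
    intro a _
    rw [sum_comm]
    apply sum_congr rfl
    intro b _
    rw [← mul_sum, sum_filter]
    congr 1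
    push_cast
    apply sum_congr rfl
    intro m _
    split_ifs <;> simp
  have h6 : (∑ m ∈ S, ‖G m‖ ^ 2 : ℝ) = ‖((∑ m ∈ S, ‖G m‖ ^ 2 : ℝ) : ℂ)‖ := by
    rw [Complex.norm_real, Real.norm_of_nonneg (sum_nonneg fun _ _ => by positivity)]
  rw [h6, h5]
  refine (norm_sum_le _ _).trans (sum_le_sum fun a _ => ?_)
  refine (norm_sum_le _ _).trans (sum_le_sum fun b _ => ?_)
  rw [norm_mul, norm_mul, RCLike.norm_conj, Complex.norm_real, Real.norm_eq_abs]
  have k1 : ‖g a‖ * ‖g b‖ ≤ 1 := mul_le_one₀ (hg a) (norm_nonneg _) (hg b)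
  calc ‖g a‖ * ‖g b‖ * |∑ m ∈ S.filter (fun m => a * m ≤ N ∧ b * m ≤ N), f (a * m) * f (b * m)|
      ≤ 1 * |∑ m ∈ S.filter (fun m => a * m ≤ N ∧ b * m ≤ N), f (a * m) * f (b * m)| :=
        mul_le_mul_of_nonneg_right k1 (abs_nonneg _)
    _ = _ := one_mul _

/-- **one block** -/
theorem block : ∃ C : ℝ, 0 < C ∧ ∀ (j w y N : ℕ) (ε : ℝ), 2 ≤ j → 4 ≤ w → w ≤ y → w < 2 ^ j → 16 ≤ N →
    (2 ^ (j + 1)) ^ 4 ≤ N → 0 ≤ ε → ε ≤ 1 → FL N y ε → FL N w ε → ∀ g : ℕ → ℂ, (∀ n, ‖g n‖ ≤ 1) →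
    ‖∑ a ∈ PJ j, ∑ m ∈ Icc 1 (N / a), g a * g m * (ff w y (a * m) : ℂ)‖ ^ 2 ≤
      (N * vv w y / j) ^ 2 * (C * V w * (1 / Real.sqrt w + ε + (4 * j + 5) / Real.sqrt ((2 ^ (j / 2) : ℕ) : ℝ) + j / (2 ^ j * vv w y))) := by
  classical
  obtain ⟨C1, hC1, h1⟩ := avg
  obtain ⟨C2, hC2, h2⟩ := PJ_card
  refine ⟨20 * C2 ^ 2 + 6 * C1 + 12 * C2, by positivity, fun j w y N ε hj hw hwy hwj hN hjN hε0 hε1 hy hw' g hg => ?_⟩
  set v := vv w y with hv
  have hv0 : 0 < v := vv_pos w y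
  have hVw := V_pos w
  set S := Icc 1 (N / 2 ^ j) with hSd
  have h2j : 0 < 2 ^ j := by positivity
  -- rewriting the sum
  have e1 : ∑ a ∈ PJ j, ∑ m ∈ Icc 1 (N / a), g a * g m * (ff w y (a * m) : ℂ) =
      ∑ m ∈ S, g m * ∑ a ∈ PJ j, (if a * m ≤ N then g a * (ff w y (a * m) : ℂ) else 0) := by
    simp only [mul_sum]
    rw [sum_comm]
    apply sum_congr rfl
    intro a ha
    rw [mem_PJ] at ha
    have ha0 : 0 < a := ha.1.pos
    have e2 : Icc 1 (N / a) = S.filter (fun m => a * m ≤ N) := by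
      ext m
      rw [mem_filter, hSd, mem_Icc, mem_Icc, Nat.le_div_iff_mul_le ha0, Nat.le_div_iff_mul_le h2j]
      constructor
      · rintro ⟨h3, h4⟩
        have h5 : m * 2 ^ j ≤ m * a := Nat.mul_le_mul_left m ha.2.1.le
        refine ⟨⟨h3, by omega⟩, by rw [mul_comm]; exact h4⟩
      · rintro ⟨⟨h3, h4⟩, h5⟩
        exact ⟨h3, by rw [mul_comm]; exact h5⟩
    rw [e2, sum_filter]
    apply sum_congr rfl
    intro m _
    split_ifs
    · ring
    · simp
  rw [e1]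
  refine (cauchy_expand (PJ j) S N g hg (ff w y) g hg).trans ?_
  have hScard : (S.card : ℝ) ≤ N / 2 ^ j := by
    rw [hSd, Nat.card_Icc, Nat.add_sub_cancel]
    have := @Nat.cast_div_le ℝ _ _ _ N (2 ^ j)
    push_cast at this
    exact this
  have hN0 : (0 : ℝ) ≤ N := Nat.cast_nonneg _
  -- the inner sums
  have hfil : ∀ a ∈ PJ j, ∀ b ∈ PJ j, S.filter (fun m => a * m ≤ N ∧ b * m ≤ N) = Icc 1 (N / max a b) := by
    intro a ha b hb
    rw [mem_PJ] at ha hb
    have hab0 : 0 < max a b := lt_of_lt_of_le ha.1.pos (le_max_left _ _)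
    ext m
    rw [mem_filter, hSd, mem_Icc, mem_Icc, Nat.le_div_iff_mul_le hab0, Nat.le_div_iff_mul_le h2j]
    constructor
    · rintro ⟨⟨h3, h4⟩, h5, h6⟩
      refine ⟨h3, ?_⟩
      rcases le_total a b with h | h
      · rw [max_eq_right h, mul_comm]; exact h6
      · rw [max_eq_left h, mul_comm]; exact h5
    · rintro ⟨h3, h4⟩
      have h5 : m * a ≤ m * max a b := Nat.mul_le_mul_left m (le_max_left _ _)
      have h6 : m * b ≤ m * max a b := Nat.mul_le_mul_left m (le_max_right _ _)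
      have h7 : m * 2 ^ j ≤ m * a := Nat.mul_le_mul_left m ha.2.1.le
      refine ⟨⟨h3, by omega⟩, by rw [mul_comm]; omega, by rw [mul_comm]; omega⟩
  have hM4 : ∀ a ∈ PJ j, ∀ b ∈ PJ j, N ≤ (N / max a b) ^ 4 := by
    intro a ha b hb
    rw [mem_PJ] at ha hb
    apply big_quot N _ hN (le_trans ha.1.one_lt.le (le_max_left _ _))
    exact (Nat.pow_le_pow_left (max_le ha.2.2 hb.2.2) 4).trans hjN
  have hMle : ∀ a ∈ PJ j, ∀ b ∈ PJ j, ((N / max a b : ℕ) : ℝ) ≤ N / 2 ^ j := by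
    intro a ha b hb
    rw [mem_PJ] at ha hb
    have h3 := @Nat.cast_div_le ℝ _ _ _ N (max a b)
    refine h3.trans ?_
    apply div_le_div_of_nonneg_left hN0 (by positivity)
    exact_mod_cast ha.2.1.le.trans (le_max_left _ _)
  have hj0 : (0 : ℝ) < j := by exact_mod_cast (by omega : 0 < j)
  have hcard := h2 j hj
  have havg := h1 j hj w y hw
  set E : ℝ := (4 * j + 5) / Real.sqrt ((2 ^ (j / 2) : ℕ) : ℝ) with hE
  have hE0 : 0 ≤ E := by positivity
  set X : ℝ := 2 ^ j / j with hX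
  have hX0 : 0 < X := by positivity
  have hc' : ((PJ j).card : ℝ) ≤ C2 * X := by rw [hX]; linarith [hcard, (by ring : C2 * (2 ^ j / (j : ℝ)) = C2 * 2 ^ j / j)]
  -- off-diagonal
  have hoff : ∀ a ∈ PJ j, ∀ b ∈ (PJ j).filter (fun b => a ≠ b),
      |∑ m ∈ S.filter (fun m => a * m ≤ N ∧ b * m ≤ N), ff w y (a * m) * ff w y (b * m)| ≤
        (N / 2 ^ j) * V w * v ^ 2 * (16 / w + 6 * (Real.exp (hS a b w y) - 1) + 4 * ε) := by
    intro a ha b hb
    rw [mem_filter] at hb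
    rw [hfil a ha b hb.1]
    have hap := (mem_PJ.1 ha)
    have h3 := pair_bound a b w y (N / max a b) hw hwy ε hε0 (fun p hp hpa => by
      rw [(Nat.prime_dvd_prime_iff_eq hp hap.1).1 hpa]; omega) (fun Q hQ => hy Q hQ _ (hM4 a ha b hb.1))
    refine h3.trans ?_
    have hh : 0 ≤ Real.exp (hS a b w y) - 1 := by
      have := Real.one_le_exp (hS_nonneg a b w y)
      linarith
    have hw0 : (0 : ℝ) ≤ 16 / w := by positivity
    have k1 : 16 / (w : ℝ) + (2 + 4 * ε) * (Real.exp (hS a b w y) - 1) + 4 * ε ≤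
        16 / w + 6 * (Real.exp (hS a b w y) - 1) + 4 * ε := by
      have : (2 + 4 * ε) * (Real.exp (hS a b w y) - 1) ≤ 6 * (Real.exp (hS a b w y) - 1) :=
        mul_le_mul_of_nonneg_right (by linarith) hh
      linarith
    have k2 : 0 ≤ 16 / (w : ℝ) + (2 + 4 * ε) * (Real.exp (hS a b w y) - 1) + 4 * ε := by
      have : 0 ≤ (2 + 4 * ε) * (Real.exp (hS a b w y) - 1) := mul_nonneg (by positivity) hh
      linarith
    have k3 : ((N / max a b : ℕ) : ℝ) * V w * v ^ 2 ≤ (N / 2 ^ j) * V w * v ^ 2 := by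
      apply mul_le_mul_of_nonneg_right _ (by positivity)
      exact mul_le_mul_of_nonneg_right (hMle a ha b hb.1) hVw.le
    exact mul_le_mul k3 k1 k2 (by positivity)
  -- diagonal
  have hdiag : ∀ a ∈ PJ j, |∑ m ∈ S.filter (fun m => a * m ≤ N ∧ a * m ≤ N), ff w y (a * m) * ff w y (a * m)| ≤
      12 * (N / 2 ^ j) * V y := by
    intro a ha
    rw [hfil a ha a ha]
    have hap := (mem_PJ.1 ha)
    refine (diag_bound a w y N (N / max a a) ε hε1 hwy hap.1 (by omega) hy hw' (hM4 a ha a ha)).trans ?_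
    apply mul_le_mul_of_nonneg_right _ (V_pos y).le
    exact mul_le_mul_of_nonneg_left (hMle a ha a ha) (by norm_num)
  -- the total
  have htot : ∑ a ∈ PJ j, ∑ b ∈ PJ j, |∑ m ∈ S.filter (fun m => a * m ≤ N ∧ b * m ≤ N), ff w y (a * m) * ff w y (b * m)| ≤
      (N / 2 ^ j) * V w * v ^ 2 * X ^ 2 * ((20 * C2 ^ 2 + 6 * C1 + 12 * C2) * (1 / Real.sqrt w + ε + E + j / (2 ^ j * v))) := by
    have e2 : ∀ a ∈ PJ j, ∑ b ∈ PJ j, |∑ m ∈ S.filter (fun m => a * m ≤ N ∧ b * m ≤ N), ff w y (a * m) * ff w y (b * m)| =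
        ∑ b ∈ (PJ j).filter (fun b => a ≠ b), |∑ m ∈ S.filter (fun m => a * m ≤ N ∧ b * m ≤ N), ff w y (a * m) * ff w y (b * m)| +
        |∑ m ∈ S.filter (fun m => a * m ≤ N ∧ a * m ≤ N), ff w y (a * m) * ff w y (a * m)| := by
      intro a ha
      rw [← sum_filter_add_sum_filter_not (PJ j) (fun b => a ≠ b)]
      congr 1
      have : (PJ j).filter (fun b => ¬ a ≠ b) = {a} := by
        ext b
        rw [mem_filter, mem_singleton]
        constructor
        · rintro ⟨_, h⟩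
          push Not at h
          exact h.symm
        · rintro rfl
          exact ⟨ha, by simp⟩
      rw [this, sum_singleton]
    rw [sum_congr rfl e2, sum_add_distrib]
    have k1 : ∑ a ∈ PJ j, ∑ b ∈ (PJ j).filter (fun b => a ≠ b), |∑ m ∈ S.filter (fun m => a * m ≤ N ∧ b * m ≤ N), ff w y (a * m) * ff w y (b * m)| ≤
        (N / 2 ^ j) * V w * v ^ 2 * ((C2 * X) * (C2 * X) * (16 / w + 4 * ε) + 6 * (C1 * X ^ 2 * (1 / Real.sqrt w + E))) := by
      calc _ ≤ ∑ a ∈ PJ j, ∑ b ∈ (PJ j).filter (fun b => a ≠ b), ((N / 2 ^ j) * V w * v ^ 2) * ((16 / w + 4 * ε) + 6 * (Real.exp (hS a b w y) - 1)) := by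
            apply sum_le_sum
            intro a ha
            apply sum_le_sum
            intro b hb
            refine (hoff a ha b hb).trans (le_of_eq ?_)
            ring
        _ = ((N / 2 ^ j) * V w * v ^ 2) * (∑ a ∈ PJ j, ∑ _b ∈ (PJ j).filter (fun b => a ≠ b), (16 / w + 4 * ε) +
            6 * ∑ a ∈ PJ j, ∑ b ∈ (PJ j).filter (fun b => a ≠ b), (Real.exp (hS a b w y) - 1)) := by
            simp only [← mul_sum, sum_add_distrib]
        _ ≤ _ := by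
            apply mul_le_mul_of_nonneg_left _ (by positivity)
            apply add_le_add
            · calc ∑ a ∈ PJ j, ∑ _b ∈ (PJ j).filter (fun b => a ≠ b), (16 / (w : ℝ) + 4 * ε)
                  ≤ ∑ _a ∈ PJ j, ∑ _b ∈ PJ j, (16 / (w : ℝ) + 4 * ε) := by
                    apply sum_le_sum
                    intro a _
                    apply sum_le_sum_of_subset_of_nonneg (filter_subset _ _)
                    intro _ _ _; positivity
                _ = ((PJ j).card : ℝ) * ((PJ j).card : ℝ) * (16 / w + 4 * ε) := by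
                    simp only [sum_const, nsmul_eq_mul]; ring
                _ ≤ _ := by
                    apply mul_le_mul_of_nonneg_right _ (by positivity)
                    exact mul_le_mul hc' hc' (Nat.cast_nonneg _) (by positivity)
            · exact mul_le_mul_of_nonneg_left havg (by norm_num)
    have k2 : ∑ a ∈ PJ j, |∑ m ∈ S.filter (fun m => a * m ≤ N ∧ a * m ≤ N), ff w y (a * m) * ff w y (a * m)| ≤
        (N / 2 ^ j) * V w * v ^ 2 * X ^ 2 * (12 * C2 * (j / (2 ^ j * v))) := by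
      calc _ ≤ ∑ _a ∈ PJ j, 12 * ((N : ℝ) / 2 ^ j) * V y := sum_le_sum hdiag
        _ = ((PJ j).card : ℝ) * (12 * ((N : ℝ) / 2 ^ j) * V y) := by rw [sum_const, nsmul_eq_mul]
        _ ≤ (C2 * X) * (12 * ((N : ℝ) / 2 ^ j) * V y) := by
            apply mul_le_mul_of_nonneg_right hc'
            have := V_pos y
            positivity
        _ = (N / 2 ^ j) * V w * v ^ 2 * X ^ 2 * (12 * C2 * (j / (2 ^ j * v))) := by
            rw [V_split hwy, ← hv, hX]
            field_simp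
    have k3 : 16 / (w : ℝ) ≤ 16 * (1 / Real.sqrt w) := by
      have hw4 : (4 : ℝ) ≤ w := by exact_mod_cast hw
      have : Real.sqrt w ≤ w := by
        rw [Real.sqrt_le_left (by linarith)]
        nlinarith
      rw [div_eq_mul_one_div]
      apply mul_le_mul_of_nonneg_left _ (by norm_num)
      apply one_div_le_one_div_of_le (Real.sqrt_pos.2 (by linarith)) this
    have hs0 : 0 ≤ 1 / Real.sqrt (w : ℝ) := by positivity
    have hq0 : 0 ≤ (j : ℝ) / (2 ^ j * v) := by positivity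
    refine (add_le_add k1 k2).trans ?_
    have e3 : (N / 2 ^ j) * V w * v ^ 2 * ((C2 * X) * (C2 * X) * (16 / w + 4 * ε) + 6 * (C1 * X ^ 2 * (1 / Real.sqrt w + E))) +
        (N / 2 ^ j) * V w * v ^ 2 * X ^ 2 * (12 * C2 * (j / (2 ^ j * v))) =
      (N / 2 ^ j) * V w * v ^ 2 * X ^ 2 * (C2 ^ 2 * (16 / w + 4 * ε) + 6 * C1 * (1 / Real.sqrt w + E) + 12 * C2 * (j / (2 ^ j * v))) := by
      ring
    rw [e3]
    apply mul_le_mul_of_nonneg_left _ (by positivity)
    have m1 : C2 ^ 2 * (16 / w + 4 * ε) ≤ 20 * C2 ^ 2 * (1 / Real.sqrt w + ε) := by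
      calc C2 ^ 2 * (16 / w + 4 * ε) ≤ C2 ^ 2 * (16 * (1 / Real.sqrt w) + 4 * ε) := by gcongr
        _ ≤ C2 ^ 2 * (20 * (1 / Real.sqrt w + ε)) := by
            apply mul_le_mul_of_nonneg_left _ (by positivity)
            linarith
        _ = _ := by ring
    have m2 : 0 ≤ C2 ^ 2 * (E + j / (2 ^ j * v)) := by positivity
    have m3 : 0 ≤ C1 * (ε + j / (2 ^ j * v)) := by positivity
    have m4 : 0 ≤ C2 * (1 / Real.sqrt w + ε + E) := by positivity
    nlinarith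
  calc (S.card : ℝ) * ∑ a ∈ PJ j, ∑ b ∈ PJ j, |∑ m ∈ S.filter (fun m => a * m ≤ N ∧ b * m ≤ N), ff w y (a * m) * ff w y (b * m)|
      ≤ (N / 2 ^ j) * ((N / 2 ^ j) * V w * v ^ 2 * X ^ 2 * ((20 * C2 ^ 2 + 6 * C1 + 12 * C2) * (1 / Real.sqrt w + ε + E + j / (2 ^ j * v)))) := by
        apply mul_le_mul hScard htot (sum_nonneg fun _ _ => sum_nonneg fun _ _ => abs_nonneg _) (by positivity)
    _ = _ := by
        rw [hX]
        field_simp

end Pool.Agent.H31.MF
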