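import Pool.Agent.H31.MF.Base

set_option autoImplicit false

/-! # The local factors -/

namespace Pool.Agent.H31.MF

open Finset Filter Topology Pool.Agent.H373R2.T7

/-- `n ^ 2 + 1` has no prime factor `≤ y` -/
def Rgh (y n : ℕ) : Prop := ∀ p ∈ pz y, ¬ p ∣ n ^ 2 + 1

def Q1 (a : ℕ) : ℕ → ℕ → Prop := fun p n => p ∣ (a * n) ^ 2 + 1

def Q2 (a b y₁ y₂ : ℕ) : ℕ → ℕ → Prop := fun p n => (p ≤ y₁ ∧ p ∣ (a * n) ^ 2 + 1) ∨ (p ≤ y₂ ∧ p ∣ (b * n) ^ 2 + 1)

lemma dvd_iff (a p n : ℕ) : p ∣ (a * n) ^ 2 + 1 ↔ ((a : ZMod p) * (n : ZMod p)) ^ 2 + 1 = 0 := by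
  rw [← ZMod.natCast_eq_zero_iff]
  push_cast
  rfl

lemma dvd_mod (a p n : ℕ) : p ∣ (a * n) ^ 2 + 1 ↔ p ∣ (a * (n % p)) ^ 2 + 1 := by
  rw [dvd_iff, dvd_iff, ZMod.natCast_mod]

lemma mem_root {a p n : ℕ} (hp : p.Prime) (h : p ∣ (a * n) ^ 2 + 1) : ¬ p ∣ a ∧ ¬ p ∣ n := by
  constructor
  · intro h1
    have h2 : p ∣ (a * n) ^ 2 := dvd_pow (h1.mul_right n) (by norm_num)
    exact hp.one_lt.ne' (Nat.dvd_one.1 ((Nat.dvd_add_right h2).1 h))
  · intro h1
    have h2 : p ∣ (a * n) ^ 2 := dvd_pow (h1.mul_left a) (by norm_num)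
    exact hp.one_lt.ne' (Nat.dvd_one.1 ((Nat.dvd_add_right h2).1 h))

open Classical in
/-- the roots -/
noncomputable def Z (a p : ℕ) : Finset ℕ := (range p).filter (fun n => p ∣ (a * n) ^ 2 + 1)

lemma mem_Z {a p n : ℕ} : n ∈ Z a p ↔ n < p ∧ p ∣ (a * n) ^ 2 + 1 := by
  unfold Z
  rw [mem_filter, mem_range]

lemma nu_Z (a p : ℕ) : nuB (Q1 a) p = (Z a p).card := by
  unfold nuB Z Q1
  congr

/-- two roots are equal up to sign -/
lemma two_roots {a p n m : ℕ} (hp : p.Prime) (hn : n ∈ Z a p) (hm : m ∈ Z a p) : m = n ∨ m = p - n := by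
  rw [mem_Z] at hn hm
  have := Fact.mk hp
  have h1 := (dvd_iff a p n).1 hn.2
  have h2 := (dvd_iff a p m).1 hm.2
  have ha := (mem_root hp hn.2).1
  have ha' : (a : ZMod p) ≠ 0 := by
    intro h
    exact ha ((ZMod.natCast_eq_zero_iff _ _).1 h)
  have h3 : ((a : ZMod p)) ^ 2 * (((m : ZMod p) - n) * ((m : ZMod p) + n)) = 0 := by
    have : (a : ZMod p) ^ 2 * (((m : ZMod p) - n) * ((m : ZMod p) + n)) =
      (((a : ZMod p) * (m : ZMod p)) ^ 2 + 1) - (((a : ZMod p) * (n : ZMod p)) ^ 2 + 1) := by ring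
    rw [this, h1, h2, sub_zero]
  rcases mul_eq_zero.1 h3 with h4 | h4
  · exact absurd h4 (pow_ne_zero 2 ha')
  · rcases mul_eq_zero.1 h4 with h5 | h5
    · left
      have h6 : (m : ZMod p) = n := sub_eq_zero.1 h5
      have h7 := (ZMod.natCast_eq_natCast_iff' _ _ _).1 h6
      rwa [Nat.mod_eq_of_lt hm.1, Nat.mod_eq_of_lt hn.1] at h7
    · right
      have h6 : ((m + n : ℕ) : ZMod p) = 0 := by push_cast; exact h5
      have h7 := (ZMod.natCast_eq_zero_iff _ _).1 h6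
      have h8 : ¬ p ∣ n := (mem_root hp hn.2).2
      obtain ⟨k, hk⟩ := h7
      have h9 : k < 2 := by
        by_contra h
        push Not at h
        have : p * 2 ≤ p * k := Nat.mul_le_mul_left p h
        omega
      interval_cases k
      · have : n = 0 := by omega
        rw [this] at h8
        exact absurd (dvd_zero p) h8
      · omega

lemma Z_card_le (a p : ℕ) (hp : p.Prime) : (Z a p).card ≤ 2 := by
  classical
  rcases (Z a p).eq_empty_or_nonempty with h | ⟨n, hn⟩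
  · rw [h]; simp
  · calc (Z a p).card ≤ ({n, p - n} : Finset ℕ).card := by
          apply card_le_card
          intro m hm
          rw [mem_insert, mem_singleton]
          exact two_roots hp hn hm
      _ ≤ 2 := card_le_two

lemma Z_empty (a p : ℕ) (hp : p.Prime) (h : p ∣ a) : Z a p = ∅ := by
  rw [eq_empty_iff_forall_notMem]
  intro n hn
  exact (mem_root hp (mem_Z.1 hn).2).1 h

/-- multiplication by a unit does not change the number of roots -/
lemma Z_card_eq (a p : ℕ) (hp : p.Prime) (h : ¬ p ∣ a) : (Z a p).card = (Z 1 p).card := by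
  have := Fact.mk hp
  have ha' : (a : ZMod p) ≠ 0 := by
    intro h1
    exact h ((ZMod.natCast_eq_zero_iff _ _).1 h1)
  refine card_nbij' (fun n => ((a : ZMod p) * (n : ZMod p)).val) (fun n => ((a : ZMod p)⁻¹ * (n : ZMod p)).val) ?_ ?_ ?_ ?_
  · intro n hn
    rw [mem_coe, mem_Z] at hn ⊢
    refine ⟨ZMod.val_lt _, ?_⟩
    rw [dvd_iff, ZMod.natCast_zmod_val]
    have := (dvd_iff a p n).1 hn.2
    push_cast
    rw [one_mul]
    exact this
  · intro n hn
    rw [mem_coe, mem_Z] at hn ⊢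
    refine ⟨ZMod.val_lt _, ?_⟩
    rw [dvd_iff, ZMod.natCast_zmod_val, ← mul_assoc, mul_inv_cancel₀ ha']
    have := (dvd_iff 1 p n).1 hn.2
    push_cast at this
    exact this
  · intro n hn
    rw [mem_coe, mem_Z] at hn
    simp only [ZMod.natCast_zmod_val]
    rw [← mul_assoc, inv_mul_cancel₀ ha', one_mul, ZMod.val_natCast, Nat.mod_eq_of_lt hn.1]
  · intro n hn
    rw [mem_coe, mem_Z] at hn
    simp only [ZMod.natCast_zmod_val]
    rw [← mul_assoc, mul_inv_cancel₀ ha', one_mul, ZMod.val_natCast, Nat.mod_eq_of_lt hn.1]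

lemma Z_le (a p : ℕ) (hp : p.Prime) : (Z a p).card ≤ (Z 1 p).card := by
  by_cases h : p ∣ a
  · rw [Z_empty a p hp h]; simp
  · exact (Z_card_eq a p hp h).le

/-- the roots for `a` and for `b` are disjoint if `p` does not divide `a ^ 2 - b ^ 2` -/
lemma Z_disj (a b p : ℕ) (hp : p.Prime) (h1 : ¬ p ∣ a + b) (h2 : ¬ a ≡ b [MOD p]) : Disjoint (Z a p) (Z b p) := by
  rw [disjoint_left]
  intro n hn hn'
  rw [mem_Z] at hn hn'
  have := Fact.mk hp
  have e1 := (dvd_iff a p n).1 hn.2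
  have e2 := (dvd_iff b p n).1 hn'.2
  have hn0 : (n : ZMod p) ≠ 0 := by
    intro h
    exact (mem_root hp hn.2).2 ((ZMod.natCast_eq_zero_iff _ _).1 h)
  have h3 : (n : ZMod p) ^ 2 * (((a : ZMod p) - b) * ((a : ZMod p) + b)) = 0 := by
    have : (n : ZMod p) ^ 2 * (((a : ZMod p) - b) * ((a : ZMod p) + b)) =
      (((a : ZMod p) * (n : ZMod p)) ^ 2 + 1) - (((b : ZMod p) * (n : ZMod p)) ^ 2 + 1) := by ring
    rw [this, e1, e2, sub_zero]
  rcases mul_eq_zero.1 h3 with h4 | h4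
  · exact pow_ne_zero 2 hn0 h4
  · rcases mul_eq_zero.1 h4 with h5 | h5
    · exact h2 ((ZMod.natCast_eq_natCast_iff _ _ _).1 (sub_eq_zero.1 h5))
    · apply h1
      rw [← ZMod.natCast_eq_zero_iff]
      push_cast
      exact h5

lemma nu2 (a b y₁ y₂ p : ℕ) : nuB (Q2 a b y₁ y₂) p =
    ((if p ≤ y₁ then Z a p else ∅) ∪ (if p ≤ y₂ then Z b p else ∅)).card := by
  classical
  unfold nuB
  congr 1
  ext n
  simp only [mem_filter, mem_range, mem_union]
  unfold Q2
  constructor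
  · rintro ⟨h1, h2 | h2⟩
    · left; rw [if_pos h2.1, mem_Z]; exact ⟨h1, h2.2⟩
    · right; rw [if_pos h2.1, mem_Z]; exact ⟨h1, h2.2⟩
  · rintro (h | h)
    · split_ifs at h with h3
      · rw [mem_Z] at h
        exact ⟨h.1, Or.inl ⟨h3, h.2⟩⟩
      · simp at h
    · split_ifs at h with h3
      · rw [mem_Z] at h
        exact ⟨h.1, Or.inr ⟨h3, h.2⟩⟩
      · simp at h

lemma adm1 (a : ℕ) : Adm (Q1 a) := by
  refine ⟨⟨fun p n => dvd_mod a p n, fun p hp => ?_⟩, fun p hp h => ?_⟩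
  · rw [nu_Z]
    exact (Z_card_le a p hp).trans (by norm_num)
  · exact (mem_root hp h).2 (dvd_zero p)

lemma adm2 (a b y₁ y₂ : ℕ) : Adm (Q2 a b y₁ y₂) := by
  refine ⟨⟨fun p n => ?_, fun p hp => ?_⟩, fun p hp h => ?_⟩
  · unfold Q2
    rw [dvd_mod a p n, dvd_mod b p n]
  · rw [nu2]
    refine (card_union_le _ _).trans ?_
    have h1 : (if p ≤ y₁ then Z a p else ∅).card ≤ 2 := by
      split_ifs
      · exact Z_card_le a p hp
      · simp
    have h2 : (if p ≤ y₂ then Z b p else ∅).card ≤ 2 := by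
      split_ifs
      · exact Z_card_le b p hp
      · simp
    omega
  · rcases h with h | h
    · exact (mem_root hp h.2).2 (dvd_zero p)
    · exact (mem_root hp h.2).2 (dvd_zero p)

end Pool.Agent.H31.MF
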