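import Pool.Agent.H31.MF.TK

set_option autoImplicit false

/-! # Multiplicative functions along the integers `n` with `n ^ 2 + 1` rough -/

namespace Pool.Agent.H31.MF

open Finset Filter Topology Pool.Agent.H373R2.T7

lemma sum_PP {β : Type*} [AddCommMonoid β] (F : ℕ → β) (J0 J1 : ℕ) (h : J0 ≤ J1) :
    ∑ p ∈ PP J0 J1, F p = ∑ j ∈ Ico J0 J1, ∑ p ∈ PJ j, F p := by
  induction J1, h using Nat.le_induction with
  | base => simp [PP]
  | succ n hn ih =>
    rw [sum_Ico_succ_top hn, ← ih]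
    have e : PP J0 (n + 1) = PP J0 n ∪ PJ n := by
      ext p
      have h1 : 2 ^ J0 ≤ 2 ^ n := Nat.pow_le_pow_right (by norm_num) hn
      have h2 : 2 ^ n ≤ 2 ^ (n + 1) := Nat.pow_le_pow_right (by norm_num) (by omega)
      rw [mem_union, mem_PP, mem_PP, mem_PJ]
      constructor
      · rintro ⟨a, b, c⟩
        rcases le_or_gt p (2 ^ n) with h3 | h3
        · exact Or.inl ⟨a, b, h3⟩
        · exact Or.inr ⟨a, h3, c⟩
      · rintro (⟨a, b, c⟩ | ⟨a, b, c⟩)
        · exact ⟨a, b, c.trans h2⟩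
        · exact ⟨a, lt_of_le_of_lt h1 b, c⟩
    have hd : Disjoint (PP J0 n) (PJ n) := by
      rw [disjoint_left]
      intro p hp hp'
      rw [mem_PP] at hp
      rw [mem_PJ] at hp'
      omega
    rw [e, sum_union hd]

lemma ff_abs (w y n : ℕ) (h : w ≤ y) : |ff w y n| ≤ 1 ∧ |ff w y n| ≤ ind y n + vv w y * ind w n := by
  have h1 := vv_pos w y
  have h2 := vv_le_one w y
  have h3 := ind_nonneg y n
  have h4 := ind_nonneg w n
  have h5 := ind_le_one y n
  have h6 := ind_le_one w n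
  have h7 := ind_mono n h
  unfold ff
  constructor
  · rw [abs_le]
    constructor <;> nlinarith
  · rw [abs_le]
    constructor <;> nlinarith

/-- Multiplicativity and the blocks -/
theorem kat_total : ∃ C : ℝ, 0 < C ∧ ∀ (J0 J1 w y N : ℕ) (ε η : ℝ), 2 ≤ J0 → J0 ≤ J1 → 4 ≤ w → w ≤ y → w < 2 ^ J0 → 16 ≤ N →
    2 ^ (8 * J1) ≤ N → 0 ≤ ε → ε ≤ 1 → FL N y ε → FL N w ε →
    (∀ j ∈ Ico J0 J1, 1 / Real.sqrt w + ε + (4 * j + 5) / Real.sqrt ((2 ^ (j / 2) : ℕ) : ℝ) + j / (2 ^ j * vv w y) ≤ η) →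
    ∀ g : ℕ → ℂ, (∀ n, ‖g n‖ ≤ 1) → (∀ m n : ℕ, m.Coprime n → g (m * n) = g m * g n) →
    ‖∑ n ∈ Icc 1 N, g n * (ff w y n : ℂ) * (om J0 J1 n : ℂ)‖ ≤
      2 * N / 2 ^ J0 + N * vv w y * Real.sqrt (C * V w * η) * ∑ j ∈ Ico J0 J1, 1 / (j : ℝ) := by
  classical
  obtain ⟨C, hC, hb⟩ := block
  refine ⟨C, hC, fun J0 J1 w y N ε η hJ0 hJ01 hw hwy hwJ hN hJ1 hε0 hε1 hy hw' hη g hg hmul => ?_⟩
  have hv0 := vv_pos w y
  have hV := V_pos w
  have e1 : ∑ n ∈ Icc 1 N, g n * (ff w y n : ℂ) * (om J0 J1 n : ℂ) =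
      ∑ p ∈ PP J0 J1, ∑ m ∈ Icc 1 (N / p), g (p * m) * (ff w y (p * m) : ℂ) := by
    unfold om
    push_cast
    simp only [mul_sum]
    rw [sum_comm]
    apply sum_congr rfl
    intro p hp
    rw [mem_PP] at hp
    rw [← sum_multiples N p hp.1.one_lt.le (fun n => g n * (ff w y n : ℂ)), sum_filter]
    apply sum_congr rfl
    intro n _
    split_ifs <;> simp
  have e2 : ∀ p ∈ PP J0 J1, ∑ m ∈ Icc 1 (N / p), g (p * m) * (ff w y (p * m) : ℂ) =
      ∑ m ∈ Icc 1 (N / p), g p * g m * (ff w y (p * m) : ℂ) +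
      ∑ m ∈ (Icc 1 (N / p)).filter (fun m => p ∣ m), (g (p * m) - g p * g m) * (ff w y (p * m) : ℂ) := by
    intro p hp
    rw [mem_PP] at hp
    rw [sum_filter, ← sum_add_distrib]
    apply sum_congr rfl
    intro m _
    split_ifs with h
    · ring
    · rw [hmul p m ((Nat.Prime.coprime_iff_not_dvd hp.1).2 h), add_zero]
  have e3 : ∀ p ∈ PP J0 J1, ‖∑ m ∈ (Icc 1 (N / p)).filter (fun m => p ∣ m), (g (p * m) - g p * g m) * (ff w y (p * m) : ℂ)‖ ≤
      2 * N * (1 / (p : ℝ) ^ 2) := by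
    intro p hp
    rw [mem_PP] at hp
    have hp0 : 0 < p := hp.1.pos
    refine (norm_sum_le _ _).trans ?_
    calc ∑ m ∈ (Icc 1 (N / p)).filter (fun m => p ∣ m), ‖(g (p * m) - g p * g m) * (ff w y (p * m) : ℂ)‖
        ≤ ∑ _m ∈ (Icc 1 (N / p)).filter (fun m => p ∣ m), (2 : ℝ) := by
          apply sum_le_sum
          intro m _
          rw [norm_mul, Complex.norm_real, Real.norm_eq_abs]
          have k1 : ‖g (p * m) - g p * g m‖ ≤ 2 := by
            refine (norm_sub_le _ _).trans ?_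
            have := hg (p * m)
            rw [norm_mul]
            have k2 : ‖g p‖ * ‖g m‖ ≤ 1 := mul_le_one₀ (hg p) (norm_nonneg _) (hg m)
            linarith
          have k3 := (ff_abs w y (p * m) hwy).1
          calc ‖g (p * m) - g p * g m‖ * |ff w y (p * m)| ≤ 2 * 1 := mul_le_mul k1 k3 (abs_nonneg _) (by norm_num)
            _ = 2 := by norm_num
      _ = 2 * (((Icc 1 (N / p)).filter (fun m => p ∣ m)).card : ℝ) := by rw [sum_const, nsmul_eq_mul]; ring
      _ ≤ 2 * (N * (1 / (p : ℝ) ^ 2)) := by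
          apply mul_le_mul_of_nonneg_left _ (by norm_num)
          have k4 : ((Icc 1 (N / p)).filter (fun m => p ∣ m)).card = N / p / p := by
            have := sum_multiples (N / p) p hp0 (fun _ => (1 : ℕ))
            simp only [sum_const, smul_eq_mul, mul_one, Nat.card_Icc, Nat.add_sub_cancel] at this
            exact this
          rw [k4]
          have k5 : ((N / p / p : ℕ) : ℝ) ≤ (N : ℝ) / p / p := by
            refine Nat.cast_div_le.trans ?_
            apply div_le_div_of_nonneg_right _ (Nat.cast_nonneg _)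
            exact Nat.cast_div_le
          refine k5.trans (le_of_eq ?_)
          field_simp
      _ = _ := by ring
  rw [e1, sum_congr rfl e2, sum_add_distrib]
  refine (norm_add_le _ _).trans ?_
  rw [add_comm]
  apply add_le_add
  · refine (norm_sum_le _ _).trans ((sum_le_sum e3).trans ?_)
    rw [← mul_sum]
    have k1 := sum_inv_sq (2 ^ J0) (2 ^ J1) Nat.one_le_two_pow
    have k2 : PP J0 J1 = mid (2 ^ J0) (2 ^ J1) := by
      ext p; rw [mem_PP, mem_mid]
    rw [k2]
    push_cast at k1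
    calc 2 * (N : ℝ) * ∑ i ∈ mid (2 ^ J0) (2 ^ J1), 1 / (i : ℝ) ^ 2 ≤ 2 * N * (1 / 2 ^ J0) :=
          mul_le_mul_of_nonneg_left k1 (by positivity)
      _ = _ := by ring
  · rw [sum_PP _ J0 J1 hJ01]
    refine (norm_sum_le _ _).trans ?_
    rw [mul_sum]
    apply sum_le_sum
    intro j hj
    have hj' := mem_Ico.1 hj
    have hwj : w < 2 ^ j := lt_of_lt_of_le hwJ (Nat.pow_le_pow_right (by norm_num) hj'.1)
    have h4 : (2 ^ (j + 1)) ^ 4 ≤ N := by
      calc (2 ^ (j + 1)) ^ 4 = 2 ^ (4 * (j + 1)) := by rw [← pow_mul]; congr 1; ring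
        _ ≤ 2 ^ (8 * J1) := Nat.pow_le_pow_right (by norm_num) (by omega)
        _ ≤ N := hJ1
    have h5 := hb j w y N ε (by omega) hw hwy hwj hN h4 hε0 hε1 hy hw' g hg
    have hj0 : (0 : ℝ) < j := by exact_mod_cast (by omega : 0 < j)
    have h6 : ‖∑ a ∈ PJ j, ∑ m ∈ Icc 1 (N / a), g a * g m * (ff w y (a * m) : ℂ)‖ ^ 2 ≤
        (N * vv w y * Real.sqrt (C * V w * η) * (1 / j)) ^ 2 := by
      refine h5.trans ?_
      have hη0 : 0 ≤ η := le_trans (by positivity) (hη j hj)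
      have e4 : ((N : ℝ) * vv w y * Real.sqrt (C * V w * η) * (1 / j)) ^ 2 = (N * vv w y / j) ^ 2 * (C * V w * η) := by
        have h7 := Real.sq_sqrt (show 0 ≤ C * V w * η by positivity)
        calc ((N : ℝ) * vv w y * Real.sqrt (C * V w * η) * (1 / j)) ^ 2 = (N * vv w y / j) ^ 2 * Real.sqrt (C * V w * η) ^ 2 := by ring
          _ = _ := by rw [h7]
      rw [e4]
      apply mul_le_mul_of_nonneg_left _ (by positivity)
      exact mul_le_mul_of_nonneg_left (hη j hj) (by positivity)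
    exact (abs_le_of_sq_le_sq' h6 (by positivity)).2

lemma V_low : ∃ B : ℕ, ∃ N0 : ℕ, ∀ N : ℕ, N0 ≤ N → 1 / Real.log N ^ B ≤ V N := by
  obtain ⟨C, N0, h⟩ := Vz_low
  refine ⟨C * 3, N0, fun N hN => ?_⟩
  have h1 := h N hN
  have h2 : Vz N ^ 3 ≤ V N := by
    unfold Vz V
    rw [← prod_pow]
    apply Finset.prod_le_prod
    · intro p hp
      have hp2 : (2 : ℝ) ≤ p := by exact_mod_cast (mem_pz.1 hp).2.two_le
      have : 1 / (p : ℝ) ≤ 1 / 2 := one_div_le_one_div_of_le (by norm_num) hp2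
      have : 0 ≤ 1 - 1 / (p : ℝ) := by linarith
      positivity
    · intro p hp
      have hp' := (mem_pz.1 hp).2
      have hp2 : (2 : ℝ) ≤ p := by exact_mod_cast hp'.two_le
      have hp0 : (0 : ℝ) < p := by linarith
      rcases Nat.lt_or_ge p 3 with h3 | h3
      · have hpe : p = 2 := by have := hp'.two_le; omega
        subst hpe
        have h4 := (fac_bounds (adm1 1) 2 hp').2.2.1
        rw [nu_Z] at h4
        unfold rh
        push_cast at h4 ⊢
        norm_num at h4 ⊢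
        linarith
      · have h3r : (3 : ℝ) ≤ p := by exact_mod_cast h3
        have h4 := rh_le hp'
        set x := 1 / (p : ℝ) with hx
        have hx0 : 0 ≤ x := by positivity
        have hx1 : x ≤ 1 / 3 := one_div_le_one_div_of_le (by norm_num) h3r
        have h5 : 2 / (p : ℝ) = 2 * x := by rw [hx]; ring
        rw [h5] at h4
        have h6 : (1 - x) ^ 3 ≤ 1 - 2 * x := by
          have e : 1 - 2 * x - (1 - x) ^ 3 = x * (1 - 3 * x + x ^ 2) := by ring
          have : 0 ≤ x * (1 - 3 * x + x ^ 2) := mul_nonneg hx0 (by nlinarith)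
          linarith
        linarith
  rcases Nat.lt_or_ge N 2 with h3 | h3
  · -- trivial
    have h4 : Real.log N = 0 := by
      interval_cases N <;> simp
    rw [h4] at h1 ⊢
    rcases Nat.eq_zero_or_pos C with hC | hC
    · subst hC
      have h5 : (1 : ℝ) ≤ Vz N := by simpa using h1
      have h6 : (1 : ℝ) ≤ Vz N ^ 3 := one_le_pow₀ h5
      simp only [Nat.zero_mul, pow_zero, div_one]
      linarith
    · rw [zero_pow (by omega), div_zero]
      exact (V_pos N).le
  · have hl : 0 < Real.log N := Real.log_pos (by exact_mod_cast (by omega : 1 < N))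
    calc 1 / Real.log N ^ (C * 3) = (1 / Real.log N ^ C) ^ 3 := by rw [div_pow, one_pow, pow_mul]
      _ ≤ Vz N ^ 3 := pow_le_pow_left₀ (by positivity) h1 3
      _ ≤ V N := h2

lemma V_anti {w y : ℕ} (h : w ≤ y) : V y ≤ V w := by
  rw [V_split h]
  exact mul_le_of_le_one_right (V_pos w).le (vv_le_one w y)

end Pool.Agent.H31.MF
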