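import Pool.Agent.H31.MF.Pr

set_option autoImplicit false

/-! # Correlations -/

namespace Pool.Agent.H31.MF

open Finset Filter Topology Pool.Agent.H373R2.T7

open Classical in
noncomputable def ind (y n : ℕ) : ℝ := if Rgh y n then 1 else 0

noncomputable def ff (w y n : ℕ) : ℝ := ind y n - vv w y * ind w n

lemma ind_nonneg (y n : ℕ) : 0 ≤ ind y n := by unfold ind; split_ifs <;> norm_num
lemma ind_le_one (y n : ℕ) : ind y n ≤ 1 := by unfold ind; split_ifs <;> norm_num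
lemma ind_sq (y n : ℕ) : ind y n * ind y n = ind y n := by unfold ind; split_ifs <;> norm_num

lemma Rgh_mono {w y n : ℕ} (h : w ≤ y) (hn : Rgh y n) : Rgh w n := by
  intro p hp
  rw [mem_pz] at hp
  exact hn p (mem_pz.2 ⟨hp.1.trans h, hp.2⟩)

lemma ind_mono {w y : ℕ} (n : ℕ) (h : w ≤ y) : ind y n ≤ ind w n := by
  unfold ind
  split_ifs with h1 h2
  · exact le_rfl
  · exact absurd (Rgh_mono h h1) h2
  · norm_num
  · exact le_rfl

lemma cnt2 (a b y y₁ y₂ M : ℕ) (h1 : y₁ ≤ y) (h2 : y₂ ≤ y) :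
    (cnt (Q2 a b y₁ y₂) y M : ℝ) = ∑ m ∈ Icc 1 M, ind y₁ (a * m) * ind y₂ (b * m) := by
  classical
  unfold cnt
  rw [card_filter]
  push_cast
  apply sum_congr rfl
  intro m _
  unfold ind
  have key : (∀ p ∈ pz y, ¬ Q2 a b y₁ y₂ p m) ↔ (Rgh y₁ (a * m) ∧ Rgh y₂ (b * m)) := by
    unfold Q2 Rgh
    constructor
    · intro h
      refine ⟨fun p hp hd => ?_, fun p hp hd => ?_⟩
      · rw [mem_pz] at hp
        exact h p (mem_pz.2 ⟨hp.1.trans h1, hp.2⟩) (Or.inl ⟨hp.1, hd⟩)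
      · rw [mem_pz] at hp
        exact h p (mem_pz.2 ⟨hp.1.trans h2, hp.2⟩) (Or.inr ⟨hp.1, hd⟩)
    · rintro ⟨h3, h4⟩ p hp (h5 | h5)
      · exact h3 p (mem_pz.2 ⟨h5.1, (mem_pz.1 hp).2⟩) h5.2
      · exact h4 p (mem_pz.2 ⟨h5.1, (mem_pz.1 hp).2⟩) h5.2
  simp only [key]
  by_cases h3 : Rgh y₁ (a * m) <;> by_cases h4 : Rgh y₂ (b * m) <;> simp [h3, h4]

lemma cnt1 (a y M : ℕ) : (cnt (Q1 a) y M : ℝ) = ∑ m ∈ Icc 1 M, ind y (a * m) := by
  classical
  unfold cnt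
  rw [card_filter]
  push_cast
  apply sum_congr rfl
  intro m _
  unfold ind Rgh Q1
  congr

theorem pair_bound (a b w y M : ℕ) (hw : 4 ≤ w) (hwy : w ≤ y) (ε : ℝ) (hε0 : 0 ≤ ε)
    (ha : ∀ p : ℕ, p.Prime → p ∣ a → w < p)
    (hfl : ∀ Q : ℕ → ℕ → Prop, Adm Q → |(cnt Q y M : ℝ) - M * Prd Q y| ≤ ε * (M * Prd Q y)) :
    |∑ m ∈ Icc 1 M, ff w y (a * m) * ff w y (b * m)| ≤
      M * V w * vv w y ^ 2 * (16 / w + (2 + 4 * ε) * (Real.exp (hS a b w y) - 1) + 4 * ε) := by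
  set v := vv w y with hv
  have hv0 : 0 < v := vv_pos w y
  set D := DD a b w with hD
  have hD0 : 0 ≤ D := DD_nonneg a b w
  have hDV : D ≤ V w := DD_le a b w ha
  set h := Real.exp (hS a b w y) with hh
  have hh1 : 1 ≤ h := by rw [hh]; exact Real.one_le_exp (hS_nonneg a b w y)
  have hM0 : (0 : ℝ) ≤ M := Nat.cast_nonneg _
  obtain ⟨hA1, hB1⟩ := Am_le a b w y hw
  have hA0 := (Am_bounds a b w y hw (fun _ _ => Or.inr trivial)).1
  have hB0 := (Am_bounds b a w y hw (fun _ _ => Or.inr trivial)).1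
  have hC1 := Cm_le a b w y hw
  have hC0 := Cm_ge a b w y hw
  rw [← hv, ← hh] at hA1 hB1 hC1
  rw [← hv] at hA0 hB0 hC0
  have f1 := hfl _ (adm2 a b y y)
  have f2 := hfl _ (adm2 a b y w)
  have f3 := hfl _ (adm2 a b w y)
  have f4 := hfl _ (adm2 a b w w)
  rw [prd_yy a b w y hwy, cnt2 a b y y y M le_rfl le_rfl] at f1
  rw [prd_yw a b w y hwy, cnt2 a b y y w M le_rfl hwy] at f2
  rw [prd_wy a b w y hwy, cnt2 a b y w y M hwy le_rfl] at f3
  rw [prd_ww a b w y hwy, cnt2 a b y w w M hwy hwy] at f4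
  rw [← hD] at f1 f2 f3 f4
  set A := Am a w y with hA
  set B := Am b w y with hB
  set Cc := Cm a b w y with hCc
  have e : ∑ m ∈ Icc 1 M, ff w y (a * m) * ff w y (b * m) =
      (∑ m ∈ Icc 1 M, ind y (a * m) * ind y (b * m)) - v * (∑ m ∈ Icc 1 M, ind y (a * m) * ind w (b * m)) -
      v * (∑ m ∈ Icc 1 M, ind w (a * m) * ind y (b * m)) + v ^ 2 * (∑ m ∈ Icc 1 M, ind w (a * m) * ind w (b * m)) := by
    rw [mul_sum, mul_sum, mul_sum, ← sum_sub_distrib, ← sum_sub_distrib, ← sum_add_distrib]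
    apply sum_congr rfl
    intro m _
    unfold ff
    rw [← hv]
    ring
  rw [e]
  set S1 := ∑ m ∈ Icc 1 M, ind y (a * m) * ind y (b * m)
  set S2 := ∑ m ∈ Icc 1 M, ind y (a * m) * ind w (b * m)
  set S3 := ∑ m ∈ Icc 1 M, ind w (a * m) * ind y (b * m)
  set S4 := ∑ m ∈ Icc 1 M, ind w (a * m) * ind w (b * m)
  have hC0' : 0 ≤ Cc := by
    rw [hCc]
    have := (Prd_pos (adm2 a b y y) y).le
    unfold Cm
    apply prod_nonneg
    intro p hp
    have := (fac_bounds (adm2 a b p p) p (mem_mid.1 hp).1).1.le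
    rwa [nu2, if_pos le_rfl, if_pos le_rfl] at this
  -- main terms
  have hmain : |D * Cc - v * (D * A) - v * (D * B) + v ^ 2 * D| ≤ D * (v ^ 2 * (16 / w + 2 * (h - 1))) := by
    have e1 : D * Cc - v * (D * A) - v * (D * B) + v ^ 2 * D = D * (Cc - v * A - v * B + v ^ 2) := by ring
    rw [e1, abs_mul, abs_of_nonneg hD0]
    apply mul_le_mul_of_nonneg_left _ hD0
    have hw0 : (0 : ℝ) ≤ 16 / w := by positivity
    have g1 : v * v ≤ v * A := mul_le_mul_of_nonneg_left hA0 hv0.le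
    have g2 : v * v ≤ v * B := mul_le_mul_of_nonneg_left hB0 hv0.le
    have g3 : v * A ≤ v * (v * h) := mul_le_mul_of_nonneg_left hA1 hv0.le
    have g4 : v * B ≤ v * (v * h) := mul_le_mul_of_nonneg_left hB1 hv0.le
    have hv2 : 0 ≤ v ^ 2 := by positivity
    have hvh : 0 ≤ v ^ 2 * (h - 1) := mul_nonneg hv2 (by linarith)
    have hvw : 0 ≤ v ^ 2 * (16 / w) := mul_nonneg hv2 hw0
    rw [abs_le]
    constructor <;> nlinarith
  -- errors
  have herr : |(S1 - v * S2 - v * S3 + v ^ 2 * S4) - M * (D * Cc - v * (D * A) - v * (D * B) + v ^ 2 * D)| ≤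
      ε * (M * (D * (v ^ 2 * (4 * h)))) := by
    have e2 : (S1 - v * S2 - v * S3 + v ^ 2 * S4) - M * (D * Cc - v * (D * A) - v * (D * B) + v ^ 2 * D) =
      (S1 - M * (D * Cc)) - v * (S2 - M * (D * A)) - v * (S3 - M * (D * B)) + v ^ 2 * (S4 - M * D) := by ring
    rw [e2]
    have k1 : |(S1 - M * (D * Cc)) - v * (S2 - M * (D * A)) - v * (S3 - M * (D * B)) + v ^ 2 * (S4 - M * D)| ≤
      |S1 - M * (D * Cc)| + v * |S2 - M * (D * A)| + v * |S3 - M * (D * B)| + v ^ 2 * |S4 - M * D| := by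
      refine (abs_add_le _ _).trans ?_
      apply add_le_add
      · refine (abs_sub _ _).trans ?_
        apply add_le_add
        · refine (abs_sub _ _).trans ?_
          apply add_le_add le_rfl
          rw [abs_mul, abs_of_pos hv0]
        · rw [abs_mul, abs_of_pos hv0]
      · rw [abs_mul, abs_of_pos (by positivity : (0 : ℝ) < v ^ 2)]
    refine k1.trans ?_
    have c1 : ε * (M * (D * Cc)) ≤ ε * (M * (D * (v ^ 2 * h))) := by gcongr
    have c2 : v * (ε * (M * (D * A))) ≤ ε * (M * (D * (v ^ 2 * h))) := by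
      calc v * (ε * (M * (D * A))) ≤ v * (ε * (M * (D * (v * h)))) := by gcongr
        _ = ε * (M * (D * (v ^ 2 * h))) := by ring
    have c3 : v * (ε * (M * (D * B))) ≤ ε * (M * (D * (v ^ 2 * h))) := by
      calc v * (ε * (M * (D * B))) ≤ v * (ε * (M * (D * (v * h)))) := by gcongr
        _ = ε * (M * (D * (v ^ 2 * h))) := by ring
    have c4 : v ^ 2 * (ε * (M * D)) ≤ ε * (M * (D * (v ^ 2 * h))) := by
      calc v ^ 2 * (ε * (M * D)) = ε * (M * (D * (v ^ 2 * 1))) := by ring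
        _ ≤ _ := by gcongr
    have d2 := mul_le_mul_of_nonneg_left f2 hv0.le
    have d3 := mul_le_mul_of_nonneg_left f3 hv0.le
    have d4 := mul_le_mul_of_nonneg_left f4 (by positivity : (0 : ℝ) ≤ v ^ 2)
    calc |S1 - M * (D * Cc)| + v * |S2 - M * (D * A)| + v * |S3 - M * (D * B)| + v ^ 2 * |S4 - M * D|
        ≤ ε * (M * (D * (v ^ 2 * h))) + ε * (M * (D * (v ^ 2 * h))) + ε * (M * (D * (v ^ 2 * h))) + ε * (M * (D * (v ^ 2 * h))) := by
          linarith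
      _ = ε * (M * (D * (v ^ 2 * (4 * h)))) := by ring
  have e3 : S1 - v * S2 - v * S3 + v ^ 2 * S4 = ((S1 - v * S2 - v * S3 + v ^ 2 * S4) - M * (D * Cc - v * (D * A) - v * (D * B) + v ^ 2 * D)) +
    M * (D * Cc - v * (D * A) - v * (D * B) + v ^ 2 * D) := by ring
  rw [e3]
  refine (abs_add_le _ _).trans ?_
  rw [abs_mul, abs_of_nonneg hM0]
  have hh0 : 0 ≤ h - 1 := by linarith
  calc |(S1 - v * S2 - v * S3 + v ^ 2 * S4) - M * (D * Cc - v * (D * A) - v * (D * B) + v ^ 2 * D)| +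
        M * |D * Cc - v * (D * A) - v * (D * B) + v ^ 2 * D|
      ≤ ε * (M * (D * (v ^ 2 * (4 * h)))) + M * (D * (v ^ 2 * (16 / w + 2 * (h - 1)))) := by
        apply add_le_add herr
        exact mul_le_mul_of_nonneg_left hmain hM0
    _ = M * D * v ^ 2 * (16 / w + (2 + 4 * ε) * (h - 1) + 4 * ε) := by ring
    _ ≤ M * V w * v ^ 2 * (16 / w + (2 + 4 * ε) * (h - 1) + 4 * ε) := by
        have hX : 0 ≤ 16 / (w : ℝ) + (2 + 4 * ε) * (h - 1) + 4 * ε := by
          have x1 := mul_nonneg (by positivity : 0 ≤ 2 + 4 * ε) hh0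
          have x2 : 0 ≤ 16 / (w : ℝ) := by positivity
          linarith
        apply mul_le_mul_of_nonneg_right _ hX
        apply mul_le_mul_of_nonneg_right _ (by positivity)
        exact mul_le_mul_of_nonneg_left hDV hM0

end Pool.Agent.H31.MF
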