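import Pool.Agent.H31.MF.Loc

set_option autoImplicit false

/-! # Comparison of the products -/

namespace Pool.Agent.H31.MF

open Finset Filter Topology Pool.Agent.H373R2.T7

noncomputable def rh (p : ℕ) : ℝ := ((Z 1 p).card : ℝ) / p

noncomputable def V (y : ℕ) : ℝ := ∏ p ∈ pz y, (1 - rh p)

def mid (w y : ℕ) : Finset ℕ := (pz y).filter (fun p => w < p)

noncomputable def vv (w y : ℕ) : ℝ := ∏ p ∈ mid w y, (1 - rh p)

lemma V_eq (y : ℕ) : V y = Prd (Q1 1) y := by
  unfold V Prd rh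
  apply prod_congr rfl
  intro p _
  rw [nu_Z]

lemma mem_mid {w y p : ℕ} : p ∈ mid w y ↔ p.Prime ∧ w < p ∧ p ≤ y := by
  unfold mid
  rw [mem_filter, mem_pz]
  tauto

lemma pz_split {w y : ℕ} (h : w ≤ y) : pz y = pz w ∪ mid w y := by
  ext p
  rw [mem_union, mem_mid, mem_pz, mem_pz]
  constructor
  · rintro ⟨h1, h2⟩
    rcases le_or_gt p w with h3 | h3
    · exact Or.inl ⟨h3, h2⟩
    · exact Or.inr ⟨h2, h3, h1⟩
  · rintro (⟨h1, h2⟩ | ⟨h1, h2, h3⟩)
    · exact ⟨h1.trans h, h2⟩
    · exact ⟨h3, h1⟩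

lemma pz_disj (w y : ℕ) : Disjoint (pz w) (mid w y) := by
  rw [disjoint_left]
  intro p hp hp'
  rw [mem_pz] at hp
  rw [mem_mid] at hp'
  omega

lemma V_split {w y : ℕ} (h : w ≤ y) : V y = V w * vv w y := by
  unfold V vv
  rw [pz_split h, prod_union (pz_disj w y)]

lemma V_pos (y : ℕ) : 0 < V y := by rw [V_eq]; exact Prd_pos (adm1 1) y

lemma V_le_one (y : ℕ) : V y ≤ 1 := by rw [V_eq]; exact Prd_le_one (adm1 1) y

lemma rh_nonneg (p : ℕ) : 0 ≤ rh p := by unfold rh; positivity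

lemma rh_le {p : ℕ} (hp : p.Prime) : rh p ≤ 2 / p := by
  unfold rh
  apply div_le_div_of_nonneg_right _ (Nat.cast_nonneg _)
  exact_mod_cast Z_card_le 1 p hp

lemma rh_lt {p : ℕ} (hp : p.Prime) : rh p < 1 := by
  have := (fac_bounds (adm1 1) p hp).1
  rw [nu_Z] at this
  unfold rh
  linarith

lemma vv_pos (w y : ℕ) : 0 < vv w y := by
  unfold vv
  apply prod_pos
  intro p hp
  have := rh_lt (mem_mid.1 hp).1
  linarith

lemma vv_le_one (w y : ℕ) : vv w y ≤ 1 := by
  unfold vv
  apply prod_le_one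
  · intro p hp
    have := rh_lt (mem_mid.1 hp).1
    linarith
  · intro p _
    have := rh_nonneg p
    linarith

/-- `1 ≤ (1 - x) exp (2 x)` -/
lemma exp_ge {x : ℝ} (h0 : 0 ≤ x) (h1 : x ≤ 1 / 2) : 1 ≤ (1 - x) * Real.exp (2 * x) := by
  have h2 := Real.add_one_le_exp (2 * x)
  have h3 : (1 - x) * (2 * x + 1) ≤ (1 - x) * Real.exp (2 * x) := mul_le_mul_of_nonneg_left h2 (by linarith)
  nlinarith

/-- the product for the multiples of `a` -/
lemma prd1_bounds (a y : ℕ) (P0 : ℕ) (hP0 : 4 ≤ P0) (ha : ∀ p : ℕ, p.Prime → p ∣ a → P0 ≤ p) (k : ℕ)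
    (hk : ((pz y).filter (fun p => p ∣ a)).card ≤ k) :
    V y ≤ Prd (Q1 a) y ∧ Prd (Q1 a) y ≤ V y * Real.exp (4 * k / P0) := by
  constructor
  · unfold V Prd
    apply Finset.prod_le_prod
    · intro p hp
      have := rh_lt (mem_pz.1 hp).2
      linarith
    · intro p hp
      have hp' := (mem_pz.1 hp).2
      rw [nu_Z]
      unfold rh
      have h1 : ((Z a p).card : ℝ) / p ≤ ((Z 1 p).card : ℝ) / p := by
        apply div_le_div_of_nonneg_right _ (Nat.cast_nonneg _)
        exact_mod_cast Z_le a p hp'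
      linarith
  · have hP0r : (4 : ℝ) ≤ P0 := by exact_mod_cast hP0
    have h1 : Prd (Q1 a) y ≤ ∏ p ∈ pz y, ((1 - rh p) * (if p ∣ a then Real.exp (4 / P0) else 1)) := by
      unfold Prd
      apply Finset.prod_le_prod
      · intro p hp
        exact (fac_bounds (adm1 a) p (mem_pz.1 hp).2).1.le
      · intro p hp
        have hp' := (mem_pz.1 hp).2
        rw [nu_Z]
        split_ifs with h
        · rw [Z_empty a p hp' h]
          have h2 : P0 ≤ p := ha p hp' h
          have h3 : (P0 : ℝ) ≤ p := by exact_mod_cast h2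
          have h4 : rh p ≤ 2 / P0 := (rh_le hp').trans (by
            apply div_le_div_of_nonneg_left (by norm_num) (by linarith) h3)
          have h5 := rh_nonneg p
          have h6 : 2 / (P0 : ℝ) ≤ 1 / 2 := by
            rw [div_le_div_iff₀ (by linarith) (by norm_num)]
            linarith
          have h7 := exp_ge h5 (h4.trans h6)
          have h8 : Real.exp (2 * rh p) ≤ Real.exp (4 / P0) := by
            apply Real.exp_le_exp.2
            calc 2 * rh p ≤ 2 * (2 / P0) := by linarith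
              _ = 4 / P0 := by ring
          have h9 : (1 - rh p) * Real.exp (2 * rh p) ≤ (1 - rh p) * Real.exp (4 / P0) :=
            mul_le_mul_of_nonneg_left h8 (by linarith)
          simp only [card_empty, Nat.cast_zero, zero_div, sub_zero]
          linarith
        · rw [mul_one, Z_card_eq a p hp' h]
          exact le_rfl
    refine h1.trans ?_
    rw [prod_mul_distrib]
    unfold V
    apply mul_le_mul_of_nonneg_left _ (V_pos y).le
    rw [← prod_filter, prod_const, ← Real.exp_nat_mul]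
    apply Real.exp_le_exp.2
    have h2 : (((pz y).filter (fun p => p ∣ a)).card : ℝ) ≤ k := by exact_mod_cast hk
    calc (((pz y).filter (fun p => p ∣ a)).card : ℝ) * (4 / P0) ≤ k * (4 / P0) :=
          mul_le_mul_of_nonneg_right h2 (by positivity)
      _ = 4 * k / P0 := by ring

/-- the bad primes of a pair -/
def Bad (a b l : ℕ) : Prop := l ∣ a ∨ l ∣ b ∨ l ∣ a + b ∨ a ≡ b [MOD l]

instance (a b l : ℕ) : Decidable (Bad a b l) := by unfold Bad; infer_instance

noncomputable def hS (a b w y : ℕ) : ℝ := ∑ l ∈ (mid w y).filter (fun l => Bad a b l), 8 / (l : ℝ)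

lemma hS_nonneg (a b w y : ℕ) : 0 ≤ hS a b w y := sum_nonneg fun _ _ => by positivity

noncomputable def DD (a b w : ℕ) : ℝ := ∏ p ∈ pz w, (1 - ((Z a p ∪ Z b p).card : ℝ) / p)

lemma DD_nonneg (a b w : ℕ) : 0 ≤ DD a b w := by
  apply prod_nonneg
  intro p hp
  have h := (fac_bounds (adm2 a b p p) p (mem_pz.1 hp).2).1.le
  rw [nu2, if_pos le_rfl, if_pos le_rfl] at h
  exact h

lemma DD_le (a b w : ℕ) (ha : ∀ p : ℕ, p.Prime → p ∣ a → w < p) : DD a b w ≤ V w := by
  unfold DD V
  apply Finset.prod_le_prod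
  · intro p hp
    have h := (fac_bounds (adm2 a b p p) p (mem_pz.1 hp).2).1.le
    rw [nu2, if_pos le_rfl, if_pos le_rfl] at h
    exact h
  · intro p hp
    obtain ⟨h1, h2⟩ := mem_pz.1 hp
    have h3 : ¬ p ∣ a := fun h => by have := ha p h2 h; omega
    unfold rh
    rw [← Z_card_eq a p h2 h3]
    have h4 : ((Z a p).card : ℝ) / p ≤ ((Z a p ∪ Z b p).card : ℝ) / p := by
      apply div_le_div_of_nonneg_right _ (Nat.cast_nonneg _)
      exact_mod_cast card_le_card subset_union_left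
    linarith

lemma prd2_split (a b w y y₁ y₂ : ℕ) (h : w ≤ y) (h1 : w ≤ y₁) (h2 : w ≤ y₂) :
    Prd (Q2 a b y₁ y₂) y = DD a b w * ∏ p ∈ mid w y, (1 - (((if p ≤ y₁ then Z a p else ∅) ∪ (if p ≤ y₂ then Z b p else ∅)).card : ℝ) / p) := by
  unfold Prd DD
  rw [pz_split h, prod_union (pz_disj w y)]
  congr 1
  · apply prod_congr rfl
    intro p hp
    have := (mem_pz.1 hp).1
    rw [nu2, if_pos (this.trans h1), if_pos (this.trans h2)]
  · apply prod_congr rfl
    intro p hp
    rw [nu2]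

noncomputable def Am (a w y : ℕ) : ℝ := ∏ p ∈ mid w y, (1 - ((Z a p).card : ℝ) / p)
noncomputable def Cm (a b w y : ℕ) : ℝ := ∏ p ∈ mid w y, (1 - ((Z a p ∪ Z b p).card : ℝ) / p)

lemma prd_yy (a b w y : ℕ) (h : w ≤ y) : Prd (Q2 a b y y) y = DD a b w * Cm a b w y := by
  rw [prd2_split a b w y y y h h h]
  unfold Cm
  congr 1
  apply prod_congr rfl
  intro p hp
  rw [if_pos (mem_mid.1 hp).2.2, if_pos (mem_mid.1 hp).2.2]

lemma prd_yw (a b w y : ℕ) (h : w ≤ y) : Prd (Q2 a b y w) y = DD a b w * Am a w y := by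
  rw [prd2_split a b w y y w h h le_rfl]
  unfold Am
  congr 1
  apply prod_congr rfl
  intro p hp
  rw [if_pos (mem_mid.1 hp).2.2, if_neg (by have := (mem_mid.1 hp).2.1; omega), union_empty]

lemma prd_wy (a b w y : ℕ) (h : w ≤ y) : Prd (Q2 a b w y) y = DD a b w * Am b w y := by
  rw [prd2_split a b w y w y h le_rfl h]
  unfold Am
  congr 1
  apply prod_congr rfl
  intro p hp
  rw [if_pos (mem_mid.1 hp).2.2, if_neg (by have := (mem_mid.1 hp).2.1; omega), empty_union]

lemma prd_ww (a b w y : ℕ) (h : w ≤ y) : Prd (Q2 a b w w) y = DD a b w := by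
  rw [prd2_split a b w y w w h le_rfl le_rfl]
  have : ∏ p ∈ mid w y, (1 - (((if p ≤ w then Z a p else ∅) ∪ (if p ≤ w then Z b p else ∅)).card : ℝ) / p) = 1 := by
    apply prod_eq_one
    intro p hp
    rw [if_neg (by have := (mem_mid.1 hp).2.1; omega), if_neg (by have := (mem_mid.1 hp).2.1; omega)]
    simp
  rw [this, mul_one]

lemma Am_bounds (a b w y : ℕ) (hw : 4 ≤ w) (hab : ∀ l, l ∣ a → Bad a b l ∨ True) :
    vv w y ≤ Am a w y ∧ Am a w y ≤ vv w y * Real.exp (∑ l ∈ (mid w y).filter (fun l => l ∣ a), 8 / (l : ℝ)) := by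
  constructor
  · unfold vv Am
    apply Finset.prod_le_prod
    · intro p hp
      have := rh_lt (mem_mid.1 hp).1
      linarith
    · intro p hp
      unfold rh
      have h1 : ((Z a p).card : ℝ) / p ≤ ((Z 1 p).card : ℝ) / p := by
        apply div_le_div_of_nonneg_right _ (Nat.cast_nonneg _)
        exact_mod_cast Z_le a p (mem_mid.1 hp).1
      linarith
  · have h1 : Am a w y ≤ ∏ p ∈ mid w y, ((1 - rh p) * (if p ∣ a then Real.exp (8 / p) else 1)) := by
      unfold Am
      apply Finset.prod_le_prod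
      · intro p hp
        have := (fac_bounds (adm1 a) p (mem_mid.1 hp).1).1.le
        rwa [nu_Z] at this
      · intro p hp
        obtain ⟨h1, h2, h3⟩ := mem_mid.1 hp
        split_ifs with h
        · rw [Z_empty a p h1 h]
          have hpr : (4 : ℝ) ≤ p := by exact_mod_cast (by omega : 4 ≤ p)
          have h4 := rh_le h1
          have h5 := rh_nonneg p
          have h6 : 2 / (p : ℝ) ≤ 1 / 2 := by
            rw [div_le_div_iff₀ (by linarith) (by norm_num)]
            linarith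
          have h7 := exp_ge h5 (h4.trans h6)
          have h8 : Real.exp (2 * rh p) ≤ Real.exp (8 / p) := by
            apply Real.exp_le_exp.2
            calc 2 * rh p ≤ 2 * (2 / p) := by linarith
              _ = 4 / p := by ring
              _ ≤ 8 / p := div_le_div_of_nonneg_right (by norm_num) (by linarith)
          have h9 : (1 - rh p) * Real.exp (2 * rh p) ≤ (1 - rh p) * Real.exp (8 / p) :=
            mul_le_mul_of_nonneg_left h8 (by linarith)
          simp only [card_empty, Nat.cast_zero, zero_div, sub_zero]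
          linarith
        · rw [mul_one, Z_card_eq a p h1 h]
          exact le_rfl
    refine h1.trans ?_
    rw [prod_mul_distrib]
    unfold vv
    apply mul_le_mul_of_nonneg_left _ (vv_pos w y).le
    rw [← prod_filter, Real.exp_sum]

lemma Am_le (a b w y : ℕ) (hw : 4 ≤ w) : Am a w y ≤ vv w y * Real.exp (hS a b w y) ∧ Am b w y ≤ vv w y * Real.exp (hS a b w y) := by
  have h1 := (Am_bounds a b w y hw (fun _ _ => Or.inr trivial)).2
  have h2 := (Am_bounds b a w y hw (fun _ _ => Or.inr trivial)).2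
  constructor
  · refine h1.trans (mul_le_mul_of_nonneg_left (Real.exp_le_exp.2 ?_) (vv_pos w y).le)
    unfold hS
    apply sum_le_sum_of_subset_of_nonneg
    · intro l hl
      rw [mem_filter] at hl ⊢
      exact ⟨hl.1, Or.inl hl.2⟩
    · intro l _ _; positivity
  · refine h2.trans (mul_le_mul_of_nonneg_left (Real.exp_le_exp.2 ?_) (vv_pos w y).le)
    unfold hS
    apply sum_le_sum_of_subset_of_nonneg
    · intro l hl
      rw [mem_filter] at hl ⊢
      exact ⟨hl.1, Or.inr (Or.inl hl.2)⟩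
    · intro l _ _; positivity

lemma Cm_le (a b w y : ℕ) (hw : 4 ≤ w) : Cm a b w y ≤ vv w y ^ 2 * Real.exp (hS a b w y) := by
  have h1 : Cm a b w y ≤ ∏ p ∈ mid w y, ((1 - rh p) ^ 2 * (if Bad a b p then Real.exp (8 / p) else 1)) := by
    unfold Cm
    apply Finset.prod_le_prod
    · intro p hp
      have := (fac_bounds (adm2 a b p p) p (mem_mid.1 hp).1).1.le
      rwa [nu2, if_pos le_rfl, if_pos le_rfl] at this
    · intro p hp
      obtain ⟨h1, h2, h3⟩ := mem_mid.1 hp
      have hpr : (4 : ℝ) ≤ p := by exact_mod_cast (by omega : 4 ≤ p)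
      have h4 := rh_le h1
      have h5 := rh_nonneg p
      have h6 : 2 / (p : ℝ) ≤ 1 / 2 := by
        rw [div_le_div_iff₀ (by linarith) (by norm_num)]
        linarith
      split_ifs with h
      · have h7 := exp_ge h5 (h4.trans h6)
        have h8 : Real.exp (2 * (2 * rh p)) ≤ Real.exp (8 / p) := by
          apply Real.exp_le_exp.2
          calc 2 * (2 * rh p) ≤ 2 * (2 * (2 / p)) := by linarith
            _ = 8 / p := by ring
        have h9 : 1 ≤ ((1 - rh p) * Real.exp (2 * rh p)) ^ 2 := one_le_pow₀ h7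
        have h10 : ((1 - rh p) * Real.exp (2 * rh p)) ^ 2 = (1 - rh p) ^ 2 * Real.exp (2 * (2 * rh p)) := by
          rw [mul_pow, ← Real.exp_nat_mul]; norm_num
        have h11 : (1 - rh p) ^ 2 * Real.exp (2 * (2 * rh p)) ≤ (1 - rh p) ^ 2 * Real.exp (8 / p) :=
          mul_le_mul_of_nonneg_left h8 (by positivity)
        have h12 : 0 ≤ ((Z a p ∪ Z b p).card : ℝ) / p := by positivity
        linarith
      · rw [mul_one]
        unfold Bad at h
        push Not at h
        rw [card_union_of_disjoint (Z_disj a b p h1 h.2.2.1 h.2.2.2), Z_card_eq a p h1 h.1, Z_card_eq b p h1 h.2.1]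
        have e : (((Z 1 p).card + (Z 1 p).card : ℕ) : ℝ) / p = 2 * rh p := by
          unfold rh; push_cast; ring
        rw [e]
        nlinarith
  refine h1.trans ?_
  rw [prod_mul_distrib]
  unfold vv
  rw [prod_pow]
  apply mul_le_mul_of_nonneg_left _ (by have := (vv_pos w y); unfold vv at this; positivity)
  unfold hS
  rw [← prod_filter, Real.exp_sum]

lemma one_sub_sum_le_prod (S : Finset ℕ) (x : ℕ → ℝ) (h0 : ∀ p ∈ S, 0 ≤ x p) (h1 : ∀ p ∈ S, x p ≤ 1) :
    1 - ∑ p ∈ S, x p ≤ ∏ p ∈ S, (1 - x p) := by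
  classical
  induction S using Finset.induction_on with
  | empty => simp
  | insert a S ha ih =>
    rw [sum_insert ha, prod_insert ha]
    have ih' := ih (fun p hp => h0 p (mem_insert_of_mem hp)) (fun p hp => h1 p (mem_insert_of_mem hp))
    have e0 := h0 a (mem_insert_self _ _)
    have e1 := h1 a (mem_insert_self _ _)
    have e2 : 0 ≤ ∑ p ∈ S, x p := sum_nonneg fun p hp => h0 p (mem_insert_of_mem hp)
    have e3 : (1 - x a) * (1 - ∑ p ∈ S, x p) ≤ (1 - x a) * ∏ p ∈ S, (1 - x p) :=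
      mul_le_mul_of_nonneg_left ih' (by linarith)
    nlinarith

lemma sum_inv_sq (w y : ℕ) (hw : 1 ≤ w) : ∑ p ∈ mid w y, 1 / (p : ℝ) ^ 2 ≤ 1 / (w : ℝ) := by
  have h1 : ∑ p ∈ mid w y, 1 / (p : ℝ) ^ 2 ≤ ∑ n ∈ Ioc w (max w y), 1 / (n : ℝ) ^ 2 := by
    apply sum_le_sum_of_subset_of_nonneg
    · intro p hp
      rw [mem_mid] at hp
      rw [mem_Ioc]
      exact ⟨hp.2.1, hp.2.2.trans (le_max_right _ _)⟩
    · intro _ _ _; positivity
  refine h1.trans ?_
  have h2 : ∀ z : ℕ, w ≤ z → ∑ n ∈ Ioc w z, 1 / (n : ℝ) ^ 2 ≤ 1 / (w : ℝ) - 1 / (z : ℝ) := by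
    intro z hz
    induction z, hz using Nat.le_induction with
    | base => simp
    | succ z hz ih =>
      rw [show Ioc w (z + 1) = insert (z + 1) (Ioc w z) by ext x; simp only [mem_Ioc, mem_insert]; omega,
        sum_insert (by simp)]
      have hz0 : (0 : ℝ) < z := by exact_mod_cast (by omega : 0 < z)
      have h3 : 1 / (((z + 1 : ℕ) : ℝ)) ^ 2 ≤ 1 / z - 1 / ((z + 1 : ℕ) : ℝ) := by
        push_cast
        rw [div_sub_div _ _ hz0.ne' (by linarith), div_le_div_iff₀ (by positivity) (by positivity)]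
        nlinarith
      linarith
  have h3 := h2 (max w y) (le_max_left _ _)
  have h4 : (0 : ℝ) ≤ 1 / ((max w y : ℕ) : ℝ) := by positivity
  linarith

lemma Cm_ge (a b w y : ℕ) (hw : 4 ≤ w) : vv w y ^ 2 * (1 - 16 / w) ≤ Cm a b w y := by
  have h1 : ∏ p ∈ mid w y, ((1 - rh p) ^ 2 * (1 - 16 / (p : ℝ) ^ 2)) ≤ Cm a b w y := by
    unfold Cm
    apply Finset.prod_le_prod
    · intro p hp
      obtain ⟨h1, h2, h3⟩ := mem_mid.1 hp
      have hpr : (4 : ℝ) ≤ p := by exact_mod_cast (by omega : 4 ≤ p)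
      have : 16 / (p : ℝ) ^ 2 ≤ 1 := by
        rw [div_le_one (by positivity)]
        nlinarith
      apply mul_nonneg (by positivity) (by linarith)
    · intro p hp
      obtain ⟨h1, h2, h3⟩ := mem_mid.1 hp
      have hpr : (4 : ℝ) ≤ p := by exact_mod_cast (by omega : 4 ≤ p)
      have hp0 : (0 : ℝ) < p := by linarith
      have h4 := rh_le h1
      have h5 := rh_nonneg p
      have h6 : 2 / (p : ℝ) ≤ 1 / 2 := by
        rw [div_le_div_iff₀ (by linarith) (by norm_num)]
        linarith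
      have h7 : ((Z a p ∪ Z b p).card : ℝ) / p ≤ 2 * rh p := by
        have : (Z a p ∪ Z b p).card ≤ (Z 1 p).card + (Z 1 p).card :=
          (card_union_le _ _).trans (add_le_add (Z_le a p h1) (Z_le b p h1))
        have h8 : ((Z a p ∪ Z b p).card : ℝ) ≤ (Z 1 p).card + (Z 1 p).card := by exact_mod_cast this
        calc ((Z a p ∪ Z b p).card : ℝ) / p ≤ ((Z 1 p).card + (Z 1 p).card) / p :=
              div_le_div_of_nonneg_right h8 hp0.le
          _ = 2 * rh p := by unfold rh; ring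
      -- `(1 - u)^2 (1 - 16 / p^2) ≤ 1 - 2 u`
      have h8 : rh p ^ 2 ≤ 4 / (p : ℝ) ^ 2 := by
        calc rh p ^ 2 ≤ (2 / (p : ℝ)) ^ 2 := pow_le_pow_left₀ h5 h4 2
          _ = 4 / (p : ℝ) ^ 2 := by rw [div_pow]; norm_num
      have h9 : 1 / 4 ≤ (1 - rh p) ^ 2 := by nlinarith
      have h10 : 4 / (p : ℝ) ^ 2 ≤ (1 - rh p) ^ 2 * (16 / (p : ℝ) ^ 2) := by
        calc 4 / (p : ℝ) ^ 2 = (1 / 4) * (16 / (p : ℝ) ^ 2) := by ring
          _ ≤ _ := mul_le_mul_of_nonneg_right h9 (by positivity)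
      nlinarith
  refine le_trans ?_ h1
  rw [prod_mul_distrib, prod_pow]
  unfold vv
  apply mul_le_mul_of_nonneg_left _ (by have := (vv_pos w y); unfold vv at this; positivity)
  have h2 := one_sub_sum_le_prod (mid w y) (fun p => 16 / (p : ℝ) ^ 2) (fun p _ => by positivity) (by
    intro p hp
    obtain ⟨h1, h2, h3⟩ := mem_mid.1 hp
    have hpr : (4 : ℝ) ≤ p := by exact_mod_cast (by omega : 4 ≤ p)
    show 16 / (p : ℝ) ^ 2 ≤ 1
    rw [div_le_one (by positivity)]
    nlinarith)
  refine le_trans ?_ h2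
  have h3 := sum_inv_sq w y (by omega)
  have h4 : ∑ p ∈ mid w y, 16 / (p : ℝ) ^ 2 = 16 * ∑ p ∈ mid w y, 1 / (p : ℝ) ^ 2 := by
    rw [mul_sum]
    apply sum_congr rfl
    intro p _
    ring
  rw [h4]
  have h5 : 16 / (w : ℝ) = 16 * (1 / w) := by ring
  rw [h5]
  linarith

end Pool.Agent.H31.MF
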