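import Pool.Agent.H31.MF.Kat

set_option autoImplicit false

/-! # The weighted inequality of Turan and Kubilius -/

namespace Pool.Agent.H31.MF

open Finset Filter Topology Pool.Agent.H373R2.T7

/-- sums over the multiples of `a` -/
lemma sum_multiples (N a : ℕ) (ha : 1 ≤ a) {β : Type*} [AddCommMonoid β] (F : ℕ → β) :
    ∑ n ∈ (Icc 1 N).filter (fun n => a ∣ n), F n = ∑ m ∈ Icc 1 (N / a), F (a * m) := by
  symm
  apply sum_nbij' (fun m => a * m) (fun n => n / a)
  · intro m hm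
    rw [mem_Icc, Nat.le_div_iff_mul_le ha] at hm
    rw [mem_filter, mem_Icc]
    refine ⟨⟨Nat.mul_pos ha hm.1, by rw [mul_comm]; exact hm.2⟩, dvd_mul_right _ _⟩
  · intro n hn
    rw [mem_filter, mem_Icc] at hn
    rw [mem_Icc]
    refine ⟨Nat.div_pos (Nat.le_of_dvd hn.1.1 hn.2) ha, Nat.div_le_div_right hn.1.2⟩
  · intro m _
    exact Nat.mul_div_cancel_left m ha
  · intro n hn
    rw [mem_filter] at hn
    exact Nat.mul_div_cancel' hn.2
  · intro m _; rfl

/-- the count for the multiples of `a` -/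
noncomputable def X (z N a : ℕ) : ℝ := ∑ m ∈ Icc 1 (N / a), ind z (a * m)

lemma X_bounds (z N a P0 k : ℕ) (ε : ℝ) (hε0 : 0 ≤ ε) (hε1 : ε ≤ 1 / 3) (h : FL N z ε) (hN : 16 ≤ N) (ha : 1 ≤ a) (ha4 : a ^ 4 ≤ N)
    (hP0 : 4 ≤ P0) (hap : ∀ p : ℕ, p.Prime → p ∣ a → P0 ≤ p) (hk : ((pz z).filter (fun p => p ∣ a)).card ≤ k)
    (hexp : Real.exp (4 * k / P0) ≤ 1 + ε) (haN : (a : ℝ) / N ≤ ε) :
    |X z N a - (N : ℝ) / a * V z| ≤ 3 * ε * ((N : ℝ) / a * V z) := by
  have h1 := h _ (adm1 a) (N / a) (big_quot N a hN ha ha4)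
  rw [cnt1] at h1
  obtain ⟨h2, h3⟩ := prd1_bounds a z P0 hP0 hap k hk
  have hV := V_pos z
  have ha0 : (0 : ℝ) < a := by exact_mod_cast ha
  have hN0 : (0 : ℝ) < N := by exact_mod_cast (by omega : 0 < N)
  set M : ℝ := ((N / a : ℕ) : ℝ) with hM
  have hM0 : 0 ≤ M := Nat.cast_nonneg _
  have hM1 : M ≤ (N : ℝ) / a := Nat.cast_div_le
  have hM2 : (N : ℝ) / a * (1 - ε) ≤ M := by
    have h4 : (N : ℝ) / a - 1 ≤ M := by
      have := Nat.lt_div_mul_add (a := N) ha
      have h5 : (N : ℝ) < (N / a : ℕ) * a + a := by exact_mod_cast this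
      rw [← hM] at h5
      rw [sub_le_iff_le_add, div_le_iff₀ ha0]
      linarith
    have h5 : 1 ≤ (N : ℝ) / a * ε := by
      rw [div_le_iff₀ hN0] at haN
      rw [div_mul_eq_mul_div, le_div_iff₀ ha0]
      linarith
    linarith
  set Pr := Prd (Q1 a) z
  have hPr : Pr ≤ V z * (1 + ε) := h3.trans (mul_le_mul_of_nonneg_left hexp hV.le)
  set T := (N : ℝ) / a with hT
  have hT0 : 0 < T := by positivity
  unfold X
  have h5 := abs_le.1 h1
  have hPr0 : 0 ≤ Pr := hV.le.trans h2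
  have u1 : M * Pr ≤ T * (V z * (1 + ε)) := mul_le_mul hM1 hPr hPr0 hT0.le
  have u2 : T * (1 - ε) * V z ≤ M * Pr := mul_le_mul hM2 h2 hV.le hM0
  have hTV : 0 < T * V z := by positivity
  have u3 : ε * (M * Pr) ≤ ε * (T * (V z * (1 + ε))) := mul_le_mul_of_nonneg_left u1 hε0
  rw [abs_le]
  constructor
  · -- lower bound
    have : (1 - ε) * (T * (1 - ε) * V z) ≤ (1 - ε) * (M * Pr) := mul_le_mul_of_nonneg_left u2 (by linarith)
    nlinarith
  · have e : (1 + ε) * (T * (V z * (1 + ε))) = (T * V z) * (1 + 2 * ε + ε ^ 2) := by ring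
    have : ε ^ 2 ≤ ε := by nlinarith
    nlinarith

/-- the primes -/
def PP (a b : ℕ) : Finset ℕ := (Ioc (2 ^ a) (2 ^ b)).filter Nat.Prime

lemma mem_PP {a b p : ℕ} : p ∈ PP a b ↔ p.Prime ∧ 2 ^ a < p ∧ p ≤ 2 ^ b := by
  unfold PP; rw [mem_filter, mem_Ioc]; tauto

noncomputable def LL (a b : ℕ) : ℝ := ∑ p ∈ PP a b, 1 / (p : ℝ)

noncomputable def om (a b n : ℕ) : ℝ := ∑ p ∈ PP a b, if p ∣ n then 1 else 0

theorem turan_kubilius (z N J0 J1 : ℕ) (ε : ℝ) (hε0 : 0 ≤ ε) (hε1 : ε ≤ 1 / 3) (h : FL N z ε) (hN : 16 ≤ N) (hJ0 : 2 ≤ J0)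
    (hJ1 : 2 ^ (8 * J1) ≤ N) (hexp : Real.exp (8 / 2 ^ J0) ≤ 1 + ε) (hJN : (2 ^ J1 : ℝ) ^ 2 / N ≤ ε) :
    ∑ n ∈ Icc 1 N, ind z n * (om J0 J1 n - LL J0 J1) ^ 2 ≤ N * V z * (4 * LL J0 J1 + 12 * ε * LL J0 J1 ^ 2) := by
  classical
  set L := LL J0 J1 with hL
  set P := PP J0 J1 with hP
  have hL0 : 0 ≤ L := sum_nonneg fun _ _ => by positivity
  have hV := V_pos z
  have hN0 : (0 : ℝ) < N := by exact_mod_cast (by omega : 0 < N)
  have hTV : 0 < N * V z := by positivity
  have h2J : 4 ≤ 2 ^ J0 := by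
    calc 4 = 2 ^ 2 := by norm_num
      _ ≤ 2 ^ J0 := Nat.pow_le_pow_right (by norm_num) hJ0
  have hbound : ∀ a : ℕ, 1 ≤ a → a ≤ (2 ^ J1) ^ 2 → (∀ p : ℕ, p.Prime → p ∣ a → 2 ^ J0 ≤ p) →
      ((pz z).filter (fun p => p ∣ a)).card ≤ 2 → |X z N a - (N : ℝ) / a * V z| ≤ 3 * ε * ((N : ℝ) / a * V z) := by
    intro a ha1 ha2 ha3 ha4
    apply X_bounds z N a (2 ^ J0) 2 ε hε0 hε1 h hN ha1 _ h2J ha3 ha4
    · refine le_trans (le_of_eq ?_) hexp
      push_cast
      norm_num
    · refine le_trans ?_ hJN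
      apply div_le_div_of_nonneg_right _ hN0.le
      exact_mod_cast ha2
    · calc a ^ 4 ≤ ((2 ^ J1) ^ 2) ^ 4 := Nat.pow_le_pow_left ha2 4
        _ = 2 ^ (8 * J1) := by rw [← pow_mul, ← pow_mul]; congr 1; ring
        _ ≤ N := hJ1
  -- the three sums
  have s0 : |∑ n ∈ Icc 1 N, ind z n - N * V z| ≤ 3 * ε * (N * V z) := by
    have h1 := hbound 1 le_rfl (Nat.one_le_pow _ _ (by positivity)) (fun p hp h => absurd (Nat.dvd_one.1 h) hp.one_lt.ne') (by
      have : (pz z).filter (fun p => p ∣ 1) = ∅ := by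
        rw [filter_eq_empty_iff]
        intro p hp h
        exact absurd (Nat.dvd_one.1 h) (mem_pz.1 hp).2.one_lt.ne'
      rw [this]; simp)
    unfold X at h1
    simp only [Nat.div_one, one_mul, Nat.cast_one, div_one] at h1
    exact h1
  have hXp : ∀ p ∈ P, |X z N p - (N : ℝ) / p * V z| ≤ 3 * ε * ((N : ℝ) / p * V z) := by
    intro p hp
    rw [hP, mem_PP] at hp
    apply hbound p hp.1.one_lt.le
    · calc p ≤ 2 ^ J1 := hp.2.2
        _ ≤ (2 ^ J1) ^ 2 := Nat.le_self_pow (by norm_num) _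
    · intro q hq hqp
      rw [(Nat.prime_dvd_prime_iff_eq hq hp.1).1 hqp]
      exact hp.2.1.le
    · exact (prime_filter_card p z hp.1).trans (by norm_num)
  have hXpq : ∀ p ∈ P, ∀ q ∈ P, |X z N (p * q) - (N : ℝ) / (p * q) * V z| ≤ 3 * ε * ((N : ℝ) / (p * q) * V z) := by
    intro p hp q hq
    rw [hP, mem_PP] at hp hq
    have h1 := hbound (p * q) (Nat.mul_pos hp.1.pos hq.1.pos) (by
      calc p * q ≤ 2 ^ J1 * 2 ^ J1 := Nat.mul_le_mul hp.2.2 hq.2.2
        _ = (2 ^ J1) ^ 2 := by ring) (by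
      intro r hr hrpq
      rcases (Nat.Prime.dvd_mul hr).1 hrpq with h1 | h1
      · rw [(Nat.prime_dvd_prime_iff_eq hr hp.1).1 h1]; exact hp.2.1.le
      · rw [(Nat.prime_dvd_prime_iff_eq hr hq.1).1 h1]; exact hq.2.1.le) (by
      calc ((pz z).filter (fun r => r ∣ p * q)).card ≤ ({p, q} : Finset ℕ).card := by
            apply card_le_card
            intro r hr
            rw [mem_filter, mem_pz] at hr
            rw [mem_insert, mem_singleton]
            rcases (Nat.Prime.dvd_mul hr.1.2).1 hr.2 with h1 | h1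
            · left; exact (Nat.prime_dvd_prime_iff_eq hr.1.2 hp.1).1 h1
            · right; exact (Nat.prime_dvd_prime_iff_eq hr.1.2 hq.1).1 h1
        _ ≤ 2 := card_le_two)
    push_cast at h1
    exact h1
  have s1 : ∑ n ∈ Icc 1 N, ind z n * om J0 J1 n = ∑ p ∈ P, X z N p := by
    unfold om
    simp only [mul_sum]
    rw [sum_comm]
    apply sum_congr rfl
    intro p hp
    rw [mem_PP] at hp
    unfold X
    rw [← sum_multiples N p hp.1.one_lt.le (fun n => ind z n), sum_filter]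
    apply sum_congr rfl
    intro n _
    split_ifs <;> simp
  have s2 : ∑ n ∈ Icc 1 N, ind z n * om J0 J1 n ^ 2 ≤ ∑ p ∈ P, X z N p + ∑ p ∈ P, ∑ q ∈ P, X z N (p * q) := by
    have e1 : ∑ n ∈ Icc 1 N, ind z n * om J0 J1 n ^ 2 =
        ∑ p ∈ P, ∑ q ∈ P, ∑ n ∈ Icc 1 N, (if p ∣ n ∧ q ∣ n then ind z n else 0) := by
      have : ∀ n, ind z n * om J0 J1 n ^ 2 = ∑ p ∈ P, ∑ q ∈ P, (if p ∣ n ∧ q ∣ n then ind z n else 0) := by
        intro n
        unfold om
        rw [sq, sum_mul_sum, mul_sum]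
        apply sum_congr rfl
        intro p _
        rw [mul_sum]
        apply sum_congr rfl
        intro q _
        by_cases h1 : p ∣ n <;> by_cases h2 : q ∣ n <;> simp [h1, h2]
      simp only [this]
      rw [sum_comm]
      apply sum_congr rfl
      intro p _
      rw [sum_comm]
    rw [e1, ← sum_add_distrib]
    apply sum_le_sum
    intro p hp
    have hp' := hp
    rw [hP, mem_PP] at hp
    have hX0 : ∀ a, 0 ≤ X z N a := fun a => sum_nonneg fun m _ => ind_nonneg _ _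
    calc ∑ q ∈ P, ∑ n ∈ Icc 1 N, (if p ∣ n ∧ q ∣ n then ind z n else 0)
        ≤ ∑ q ∈ P, ((if q = p then X z N p else 0) + X z N (p * q)) := by
          apply sum_le_sum
          intro q hq
          rw [hP, mem_PP] at hq
          by_cases hqp : q = p
          · rw [if_pos hqp, hqp]
            have : ∑ n ∈ Icc 1 N, (if p ∣ n ∧ p ∣ n then ind z n else 0) = X z N p := by
              unfold X
              rw [← sum_multiples N p hp.1.one_lt.le (fun n => ind z n), sum_filter]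
              apply sum_congr rfl
              intro n _
              simp
            rw [this]
            have := hX0 (p * p)
            linarith
          · rw [if_neg hqp, zero_add]
            have hcop : Nat.Coprime p q := (Nat.coprime_primes hp.1 hq.1).2 (Ne.symm hqp)
            unfold X
            rw [← sum_multiples N (p * q) (Nat.mul_pos hp.1.pos hq.1.pos) (fun n => ind z n), sum_filter]
            apply sum_le_sum
            intro n _
            by_cases hn : p ∣ n ∧ q ∣ n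
            · rw [if_pos hn, if_pos (hcop.mul_dvd_of_dvd_of_dvd hn.1 hn.2)]
            · rw [if_neg hn]
              split_ifs
              · exact ind_nonneg _ _
              · exact le_rfl
      _ = X z N p + ∑ q ∈ P, X z N (p * q) := by
          rw [sum_add_distrib, sum_ite_eq' P p (fun _ => X z N p), if_pos hp']
  -- numerical bounds
  have t1 : ∑ p ∈ P, X z N p ≤ (1 + 3 * ε) * (N * V z * L) ∧ (1 - 3 * ε) * (N * V z * L) ≤ ∑ p ∈ P, X z N p := by
    have e : N * V z * L = ∑ p ∈ P, (N : ℝ) / p * V z := by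
      rw [hL]; unfold LL; rw [mul_sum]
      apply sum_congr rfl
      intro p _
      ring
    rw [e, mul_sum, mul_sum]
    constructor
    · apply sum_le_sum
      intro p hp
      have := (abs_le.1 (hXp p hp)).2
      linarith
    · apply sum_le_sum
      intro p hp
      have := (abs_le.1 (hXp p hp)).1
      linarith
  have t2 : ∑ p ∈ P, ∑ q ∈ P, X z N (p * q) ≤ (1 + 3 * ε) * (N * V z * L ^ 2) := by
    have e : N * V z * L ^ 2 = ∑ p ∈ P, ∑ q ∈ P, (N : ℝ) / (p * q) * V z := by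
      rw [hL]; unfold LL; rw [sq, sum_mul_sum, mul_sum]
      apply sum_congr rfl
      intro p _
      rw [mul_sum]
      apply sum_congr rfl
      intro q _
      ring
    rw [e, mul_sum]
    apply sum_le_sum
    intro p hp
    rw [mul_sum]
    apply sum_le_sum
    intro q hq
    have := (abs_le.1 (hXpq p hp q hq)).2
    linarith
  have e0 : ∑ n ∈ Icc 1 N, ind z n * (om J0 J1 n - L) ^ 2 =
      ∑ n ∈ Icc 1 N, ind z n * om J0 J1 n ^ 2 - 2 * L * ∑ n ∈ Icc 1 N, ind z n * om J0 J1 n + L ^ 2 * ∑ n ∈ Icc 1 N, ind z n := by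
    rw [mul_sum, mul_sum, ← sum_sub_distrib, ← sum_add_distrib]
    apply sum_congr rfl
    intro n _
    ring
  rw [e0, s1]
  have s0' := (abs_le.1 s0).2
  have w1 : L ^ 2 * ∑ n ∈ Icc 1 N, ind z n ≤ L ^ 2 * ((1 + 3 * ε) * (N * V z)) :=
    mul_le_mul_of_nonneg_left (by linarith) (by positivity)
  have w2 : 2 * L * ((1 - 3 * ε) * (N * V z * L)) ≤ 2 * L * ∑ p ∈ P, X z N p :=
    mul_le_mul_of_nonneg_left t1.2 (by positivity)
  have w3 : ε * (N * V z * L) ≤ 1 / 3 * (N * V z * L) := mul_le_mul_of_nonneg_right hε1 (by positivity)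
  have w4 : 0 ≤ N * V z * L := by positivity
  nlinarith [t1.1, t2]

end Pool.Agent.H31.MF
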